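import Pool.Agent.Helper97.QC.PDef
import Pool.Agent.Helper17.QC.K2
import Pool.Agent.Helper31.QC.D7
import Pool.Agent.Helper31.QC.K3
import Pool.Agent.Helper76.QC.D

/-! Four replicas: final bound of the fourth moment of one block. -/

set_option autoImplicit false

open MeasureTheory ProbabilityTheory Filter Finset

namespace Pool.Agent.Helper97.QC

open Pool.Agent.Helper97.CP

theorem signs0 : ∑ S : Finset (Fin 4), (-1 : ℤ) ^ (4 - S.card) = 0 := by decide

theorem signsJ : ∀ J ∈ prs, ∑ S : Finset (Fin 4),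
    (if J.1 ∈ S ∧ J.2 ∈ S then (-1 : ℤ) ^ (4 - S.card) else 0) = 0 := by
  decide

theorem sum_FF_eq (s : ℝ) (cc : Finset (Fin 4) → X4 → ℝ) (t : ℕ) (x : X4) :
    ∑ S : Finset (Fin 4), (-1 : ℝ) ^ (4 - S.card) * FF (cc S) t x =
      ∑ S : Finset (Fin 4), (-1 : ℝ) ^ (4 - S.card) * RR s S (cc S) t x := by
  have h0 : ∑ S : Finset (Fin 4), (-1 : ℝ) ^ (4 - S.card) = 0 := by
    have := congrArg (fun z : ℤ => (z : ℝ)) signs0
    push_cast at this
    exact this
  have hJ : ∑ S : Finset (Fin 4), (-1 : ℝ) ^ (4 - S.card) *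
      ∑ J ∈ prs.filter (fun J => J.1 ∈ S ∧ J.2 ∈ S), Kf s t (x J.1 - x J.2) = 0 := by
    have e1 : ∀ S : Finset (Fin 4), (-1 : ℝ) ^ (4 - S.card) *
        ∑ J ∈ prs.filter (fun J => J.1 ∈ S ∧ J.2 ∈ S), Kf s t (x J.1 - x J.2) =
        ∑ J ∈ prs, (if J.1 ∈ S ∧ J.2 ∈ S then (-1 : ℝ) ^ (4 - S.card) else 0) * Kf s t (x J.1 - x J.2) := by
      intro S
      rw [Finset.sum_filter, Finset.mul_sum]
      apply Finset.sum_congr rfl
      intro J _
      split_ifs <;> ring
    simp only [e1]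
    rw [Finset.sum_comm]
    apply Finset.sum_eq_zero
    intro J hJ
    rw [← Finset.sum_mul]
    have := congrArg (fun z : ℤ => (z : ℝ)) (signsJ J hJ)
    push_cast at this
    rw [this, zero_mul]
  have e : ∀ S : Finset (Fin 4), (-1 : ℝ) ^ (4 - S.card) * RR s S (cc S) t x =
      (-1 : ℝ) ^ (4 - S.card) * FF (cc S) t x - (-1 : ℝ) ^ (4 - S.card) - (-1 : ℝ) ^ (4 - S.card) *
      ∑ J ∈ prs.filter (fun J => J.1 ∈ S ∧ J.2 ∈ S), Kf s t (x J.1 - x J.2) := by
    intro S
    unfold RR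
    ring
  simp only [e]
  rw [Finset.sum_sub_distrib, Finset.sum_sub_distrib, h0, hJ]
  ring

theorem nsq_nonneg' (z : Z2) : 0 ≤ nsq z := by unfold nsq; positivity

theorem nsq_zero' : nsq 0 = 0 := by unfold nsq; simp

theorem nsq_neg' (z : Z2) : nsq (-z) = nsq z := by
  unfold nsq
  simp

/-- elementary bound of the logarithmic profile -/
theorem prof_le {α u : ℝ} (hα : 0 < α) (hα1 : α ≤ 1) (hu : 0 < u) :
    max 0 (Real.log u) + min 1 u ≤ 2 / α * u ^ α := by
  have hα' : 1 ≤ 1 / α := by rw [le_div_iff₀ hα]; linarith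
  rcases le_or_gt 1 u with h | h
  · have h1 : Real.log u ≤ 1 / α * u ^ α := by
      have := Real.log_le_rpow_div hu.le hα
      rw [one_div, inv_mul_eq_div]
      exact this
    have h2 : 0 ≤ Real.log u := Real.log_nonneg h
    have h3 : 1 ≤ u ^ α := Real.one_le_rpow h hα.le
    rw [max_eq_right h2, min_eq_left h]
    have : (1 : ℝ) ≤ 1 / α * u ^ α := by nlinarith
    calc _ ≤ 1 / α * u ^ α + 1 / α * u ^ α := add_le_add h1 this
      _ = _ := by ring
  · have h1 : Real.log u ≤ 0 := Real.log_nonpos hu.le h.le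
    rw [max_eq_left h1, min_eq_right h.le, zero_add]
    have h2 : u ≤ u ^ α := by
      conv_lhs => rw [← Real.rpow_one u]
      exact Real.rpow_le_rpow_of_exponent_ge hu h.le hα1
    have h3 : 0 < u ^ α := Real.rpow_pos_of_pos hu _
    calc u ≤ u ^ α := h2
      _ ≤ 2 / α * u ^ α := by
          have : (1 : ℝ) ≤ 2 / α := by rw [le_div_iff₀ hα]; linarith
          nlinarith

theorem Kf_max {s : ℝ} (hs : 0 ≤ s) (t : ℕ) (z : Z2) : Kf s t z ≤ Kf s t 0 := by
  rw [Helper76.QC.Kf_eq s t z, Helper76.QC.Kf_eq s t 0]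
  apply mul_le_mul_of_nonneg_left _ hs
  apply Finset.sum_le_sum
  intro n hn
  apply mul_le_mul_of_nonneg_right (Helper17.QC.q_le_zero (Finset.mem_Icc.1 hn).1 z)
  have := Helper76.QC.Kf_nonneg hs (t - n) 0
  linarith

theorem Kf_zero_time (s : ℝ) (z : Z2) : Kf s 0 z = 0 := by
  unfold Kf Tn; simp

/-- the potential -/
theorem exists_pot : ∃ C1 C2 : ℝ, 0 < C1 ∧ 0 < C2 ∧ ∀ (s : ℝ) (L : ℕ), 0 < s → 1 ≤ L → s * R L < 1 →
    s / (1 - s * R L) ≤ 1 / 16 → 1 / √(s / (1 - s * R L)) ≤ (L : ℝ) ^ √(s / (1 - s * R L)) →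
    ∃ g : ℕ → ℝ, Pot s L (fun z => ((L : ℝ) / (1 + nsq z)) ^ √(s / (1 - s * R L))) g
      (C1 * √(s / (1 - s * R L))) (C2 * √(s / (1 - s * R L))) := by
  obtain ⟨C3, hC3, h3⟩ := Helper31.QC.A_rho_le
  obtain ⟨C7, hC7, h7⟩ := Helper31.QC.weighted_sum
  obtain ⟨Cq, hCq, hq⟩ := Helper17.QC.Qs_le
  refine ⟨C3 * C7 * Cq, 2 * Cq + 1, by positivity, by positivity, ?_⟩
  intro s L hs hL hx hδ hα
  set δ := s / (1 - s * R L) with hδd
  have hδ0 : 0 < δ := div_pos hs (by linarith)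
  set α := √δ with hαd
  have hα0 : 0 < α := Real.sqrt_pos.2 hδ0
  have hα1 : α ≤ 1 / 4 := by
    rw [hαd, show (1 / 4 : ℝ) = √(1 / 16) by rw [show (1 / 16 : ℝ) = (1 / 4) ^ 2 by norm_num, Real.sqrt_sq (by norm_num)]]
    exact Real.sqrt_le_sqrt hδ
  have hαα : α * α = δ := Real.mul_self_sqrt hδ0.le
  have hLp : (0 : ℝ) < L := by exact_mod_cast (by omega : 0 < L)
  have hR0 : ∀ m ≤ L, s * R m ≤ s * R L := fun m hm => mul_le_mul_of_nonneg_left (Helper17.QC.R_mono hm) hs.le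
  -- bound of K
  have hK : ∀ m : ℕ, 1 ≤ m → m ≤ L → ∀ z, Kf s m z ≤ Cq * δ * (max 0 (Real.log (m / (1 + nsq z))) + min 1 (m / (1 + nsq z))) := by
    intro m hm hmL z
    have h1 := Helper76.QC.Kf_le hs.le (lt_of_le_of_lt (hR0 m hmL) hx) z
    have h2 : s / (1 - s * R m) ≤ δ := by
      rw [hδd]
      exact div_le_div_of_nonneg_left hs.le (by linarith) (by linarith [hR0 m hmL])
    have h3 := hq m z hm
    have h4 := Helper17.QC.Qs_nonneg m z
    calc Kf s m z ≤ s / (1 - s * R m) * Qs m z := h1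
      _ ≤ δ * Qs m z := mul_le_mul_of_nonneg_right h2 h4
      _ ≤ δ * _ := mul_le_mul_of_nonneg_left h3 hδ0.le
      _ = _ := by ring
  refine ⟨fun m => C3 * ((L : ℝ) / (1 + m)) ^ α, ?_⟩
  have hpos : ∀ z : Z2, 0 < (L : ℝ) / (1 + nsq z) := fun z => by
    have := nsq_nonneg' z
    positivity
  refine ⟨hs.le, fun z => (Real.rpow_pos_of_pos (hpos z) _).le, fun z => ?_, fun m x v => ?_, fun m x v => ?_,
    fun m z => Helper76.QC.kk_nonneg hs.le m z, fun t ht z => ?_, fun t ht z => ?_,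
    fun t z => Helper76.QC.Kf_nonneg hs.le t z, fun t z => Kf_max hs.le t z, by positivity, by positivity⟩
  · apply Real.rpow_le_rpow (hpos z).le _ hα0.le
    rw [nsq_zero', add_zero, div_one]
    apply div_le_self hLp.le
    have := nsq_nonneg' z
    linarith
  · exact h3 α L m x v hα0 (by linarith) hLp
  · have := h3 α L m x v hα0 (by linarith) hLp
    have e : (fun y : Z2 => ((L : ℝ) / (1 + nsq (v - y))) ^ α) = fun y => ((L : ℝ) / (1 + nsq (y - v))) ^ α := by
      funext y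
      rw [← nsq_neg' (y - v), neg_sub]
    rw [e]
    exact this
  · -- weighted sum
    have hr : 1 ≤ 1 + nsq z := by linarith [nsq_nonneg' z]
    have h := h7 α L (Cq * δ) (1 + nsq z) t (fun m => Kf s (min m L) z) hα0 (by linarith) (by positivity) hr
      (by exact_mod_cast ht) (by simp [Kf_zero_time]) (fun m => by
        have := Helper76.QC.Kf_mono hs.le (show min m L ≤ min (m + 1) L from min_le_min (by omega) le_rfl) z
        linarith) (fun m hm => by
        have h1 := hK (min m L) (by omega) (min_le_right _ _) z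
        refine h1.trans ?_
        apply mul_le_mul_of_nonneg_left _ (by positivity)
        have h5 : ((min m L : ℕ) : ℝ) / (1 + nsq z) ≤ (m : ℝ) / (1 + nsq z) := by
          apply div_le_div_of_nonneg_right _ (by linarith)
          exact_mod_cast min_le_left m L
        have h6 : 0 < ((min m L : ℕ) : ℝ) / (1 + nsq z) := by
          apply div_pos _ (by linarith)
          exact_mod_cast (by omega : 0 < min m L)
        exact add_le_add (max_le_max le_rfl (Real.log_le_log h6 h5)) (min_le_min le_rfl h5))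
    have e1 : ∑ m ∈ Icc 1 t, kk s m z * (C3 * ((L : ℝ) / (1 + m)) ^ α) =
        C3 * ∑ m ∈ Icc 1 t, (Kf s (min m L) z - Kf s (min (m - 1) L) z) * ((L : ℝ) / (1 + m)) ^ α := by
      rw [Finset.mul_sum]
      apply Finset.sum_congr rfl
      intro m hm
      have hm := Finset.mem_Icc.1 hm
      rw [min_eq_left (by omega : m ≤ L), min_eq_left (by omega : m - 1 ≤ L)]
      unfold kk
      ring
    rw [e1]
    calc _ ≤ C3 * (C7 * (Cq * δ) / α * ((L : ℝ) / (1 + nsq z)) ^ α) := mul_le_mul_of_nonneg_left h hC3.le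
      _ = _ := by
          rw [← hαα]
          field_simp
  · -- Kf + i0
    have h1 : Kf s t z ≤ 2 * Cq * α * ((L : ℝ) / (1 + nsq z)) ^ α := by
      have a1 := Helper76.QC.Kf_mono hs.le ht z
      have a2 := hK L hL le_rfl z
      have a3 := prof_le hα0 (by linarith) (hpos z)
      calc Kf s t z ≤ Kf s L z := a1
        _ ≤ Cq * δ * (max 0 (Real.log (L / (1 + nsq z))) + min 1 (L / (1 + nsq z))) := a2
        _ ≤ Cq * δ * (2 / α * ((L : ℝ) / (1 + nsq z)) ^ α) := mul_le_mul_of_nonneg_left a3 (by positivity)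
        _ = _ := by
            rw [← hαα]
            field_simp
    have h2 : i0 z ≤ α * ((L : ℝ) / (1 + nsq z)) ^ α := by
      unfold i0
      split_ifs with h
      · rw [h, nsq_zero', add_zero, div_one]
        rw [div_le_iff₀ hα0] at hα
        linarith
      · have := Real.rpow_pos_of_pos (hpos z) α
        positivity
    show _ ≤ (2 * Cq + 1) * α * ((L : ℝ) / (1 + nsq z)) ^ α
    linarith

theorem four_bound (CF CB : ℝ) (hCF : 0 ≤ CF) : ∃ C η : ℝ, 0 < C ∧ 0 < η ∧ ∀ (s : ℝ) (M L : ℕ), Blk s M L CB →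
    s / (1 - s * R L) ≤ η → ∀ cc : Finset (Fin 4) → X4 → ℝ, (∀ S, Fac s CF S (cc S)) → ∀ x : X4,
    |∑ S : Finset (Fin 4), (-1) ^ (4 - S.card) * FF (cc S) (L - M) x| ≤
      C * (s / (1 - s * R L)) * ∑ J ∈ prs, ((L : ℝ) / (1 + nsq (x J.1 - x J.2))) ^ √(s / (1 - s * R L)) := by
  obtain ⟨C1, C2, hC1, hC2, hpot⟩ := exists_pot
  refine ⟨16 * (10 * (1 + 6 * CF) * C2 * C1), min (1 / 16) ((1 / (10 * (1 + 6 * CF) * C1)) ^ 2), by positivity,
    by positivity, ?_⟩
  intro s M L hB hη cc hcc x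
  obtain ⟨hs, hM, hML, hx, -, hα⟩ := hB
  set δ := s / (1 - s * R L) with hδd
  have hδ0 : 0 < δ := div_pos hs (by linarith)
  obtain ⟨g, hg⟩ := hpot s L hs (by omega) hx (hη.trans (min_le_left _ _)) hα
  rw [← hδd] at hg
  have hα1 : √δ ≤ 1 / (10 * (1 + 6 * CF) * C1) := by
    have := Real.sqrt_le_sqrt (hη.trans (min_le_right _ _))
    rwa [Real.sqrt_sq (by positivity)] at this
  have hε : 10 * (1 + 6 * CF) * (C1 * √δ) ≤ 1 := by
    rw [le_div_iff₀ (by positivity)] at hα1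
    linarith
  have hR : ∀ S, |RR s S (cc S) (L - M) x| ≤ 10 * (1 + 6 * CF) * (C2 * √δ) * (C1 * √δ) *
      ∑ J ∈ prs, rJ (fun z => ((L : ℝ) / (1 + nsq z)) ^ √δ) J x := fun S =>
    hg.RR_bound (hcc S) hε (Nat.sub_le _ _) x
  rw [sum_FF_eq s]
  calc |∑ S : Finset (Fin 4), (-1 : ℝ) ^ (4 - S.card) * RR s S (cc S) (L - M) x|
      ≤ ∑ S : Finset (Fin 4), |(-1 : ℝ) ^ (4 - S.card) * RR s S (cc S) (L - M) x| :=
        Finset.abs_sum_le_sum_abs _ _
    _ ≤ ∑ _S : Finset (Fin 4), 10 * (1 + 6 * CF) * (C2 * √δ) * (C1 * √δ) *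
      ∑ J ∈ prs, rJ (fun z => ((L : ℝ) / (1 + nsq z)) ^ √δ) J x := by
        apply Finset.sum_le_sum
        intro S _
        rw [abs_mul, abs_pow, abs_neg, abs_one, one_pow, one_mul]
        exact hR S
    _ = _ := by
        rw [Finset.sum_const]
        have : (univ : Finset (Finset (Fin 4))).card = 16 := by decide
        rw [this]
        simp only [nsmul_eq_mul]
        have e : √δ * √δ = δ := Real.mul_self_sqrt hδ0.le
        push_cast
        unfold rJ
        calc _ = 16 * (10 * (1 + 6 * CF) * C2 * C1) * (√δ * √δ) *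
              ∑ J ∈ prs, ((L : ℝ) / (1 + nsq (x J.1 - x J.2))) ^ √δ := by ring
          _ = _ := by rw [e]

end Pool.Agent.Helper97.QC
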