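import Pool.Agent.Helper97.CP2.Ker

/-! Quasi-critical two-dimensional directed polymers (MP_f3a553_pr): basic definitions of the
deterministic part. -/

set_option autoImplicit false

open MeasureTheory ProbabilityTheory Filter Finset

namespace Pool.Agent.Helper97.QC

open Pool.Agent.Helper97.CP

/-- indicator of the origin -/
noncomputable def i0 (z : Z2) : ℝ := if z = 0 then 1 else 0

/-- probability that two independent walks with initial difference `z` meet at time `n`
(`Qn n` is the `n` step kernel of the difference walk, see `CP2/Basic.lean`) -/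
noncomputable def q (n : ℕ) (z : Z2) : ℝ := Qn n i0 z

/-- expected number of meetings up to time `t` -/
noncomputable def Qs (t : ℕ) (z : Z2) : ℝ := ∑ n ∈ Icc 1 t, q n z

noncomputable def R (t : ℕ) : ℝ := Qs t 0

/-- one step of the two replica operator -/
noncomputable def T2 (s : ℝ) (ψ : Z2 → ℝ) (z : Z2) : ℝ := Q (fun y => (1 + s * i0 y) * ψ y) z

noncomputable def Tn (s : ℝ) : ℕ → (Z2 → ℝ) → Z2 → ℝ
  | 0, ψ => ψ
  | t + 1, ψ => T2 s (Tn s t ψ)

/-- two point function minus one -/
noncomputable def Kf (s : ℝ) (t : ℕ) (z : Z2) : ℝ := Tn s t (fun _ => 1) z - 1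

/-- increments of the two point function -/
noncomputable def kk (s : ℝ) (m : ℕ) (z : Z2) : ℝ := Kf s m z - Kf s (m - 1) z

end Pool.Agent.Helper97.QC
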