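import Pool.Agent.Helper1.QC.C

/-! Towards the logarithm: elementary lemmas. -/

set_option autoImplicit false
set_option linter.unusedSectionVars false

open MeasureTheory ProbabilityTheory Filter Finset Topology

namespace Pool.Agent.Helper97.QC

theorem log_rem {x : ℝ} (hx : -(1 / 2) ≤ x) : |Real.log (1 + x) - x + x ^ 2 / 2| ≤ 5 * |x| ^ 3 := by
  rcases le_or_gt x (1 / 2) with h | h
  · have hab : |x| ≤ 1 / 2 := abs_le.2 ⟨by linarith, h⟩
    have h1 : |(-x)| < 1 := by rw [abs_neg]; linarith
    have h2 := Real.abs_log_sub_add_sum_range_le h1 2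
    simp only [Finset.sum_range_succ, Finset.sum_range_zero, sub_neg_eq_add, abs_neg] at h2
    norm_num at h2
    have h3 : |x| ^ 3 / (1 - |x|) ≤ 5 * |x| ^ 3 := by
      rw [div_le_iff₀ (by linarith)]
      have : 0 ≤ |x| ^ 3 := by positivity
      nlinarith
    have e : -x + x ^ 2 / 2 + Real.log (1 + x) = Real.log (1 + x) - x + x ^ 2 / 2 := by ring
    rw [e] at h2
    exact h2.trans h3
  · have hx0 : 0 < x := by linarith
    have h1 : Real.log (1 + x) ≤ x := by
      have := Real.log_le_sub_one_of_pos (show 0 < 1 + x by linarith)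
      linarith
    have h2 : 0 ≤ Real.log (1 + x) := Real.log_nonneg (by linarith)
    rw [abs_of_pos hx0]
    have h3 : x ^ 2 ≤ 2 * x ^ 3 := by nlinarith [sq_nonneg x]
    have h4 : x ≤ 2 * x ^ 2 := by nlinarith
    have h5 : 0 ≤ x ^ 3 := by positivity
    rw [abs_le]
    constructor
    · nlinarith
    · nlinarith

theorem log_abs_le {D : ℝ} (hD : 1 / 2 ≤ D) : |Real.log D| ≤ 2 * |D - 1| := by
  have hp : 0 < D := by linarith
  have h1 : Real.log D ≤ D - 1 := Real.log_le_sub_one_of_pos hp
  have h2 : 1 - D⁻¹ ≤ Real.log D := Real.one_sub_inv_le_log_of_pos hp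
  have h3 : D⁻¹ ≤ 2 := by
    rw [inv_le_comm₀ hp (by norm_num)]
    linarith
  have h4 : D - 1 ≤ |D - 1| := le_abs_self _
  have h5 : 1 - D ≤ |D - 1| := by rw [abs_sub_comm]; exact le_abs_self _
  have h6 : 0 ≤ |D - 1| := abs_nonneg _
  rw [abs_le]
  constructor
  · have e : 1 - D⁻¹ = -(D⁻¹ * (1 - D)) := by field_simp; ring
    rw [e] at h2
    have h7 : D⁻¹ * (1 - D) ≤ D⁻¹ * |D - 1| := mul_le_mul_of_nonneg_left h5 (inv_pos.2 hp).le
    have h8 : D⁻¹ * |D - 1| ≤ 2 * |D - 1| := mul_le_mul_of_nonneg_right h3 h6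
    linarith
  · linarith

section
variable {Ω : Type*} {mΩ : MeasurableSpace Ω} {P : Measure Ω} [IsProbabilityMeasure P]

/-- extension to unbounded test functions -/
theorem ortho {m : MeasurableSpace Ω} (hm : m ≤ mΩ) {g Z : Ω → ℝ} (hg : Measurable[m] g)
    (hZ : Measurable[mΩ] Z) (hi : Integrable (fun w => g w * Z w) P)
    (h : ∀ g' : Ω → ℝ, Measurable[m] g' → (∀ w, |g' w| ≤ 1) → ∫ w, g' w * Z w ∂P = 0) :
    ∫ w, g w * Z w ∂P = 0 := by
  set gk : ℕ → Ω → ℝ := fun k w => max (-(k : ℝ)) (min k (g w)) with hgk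
  have hmk : ∀ k, Measurable[m] (gk k) := fun k => measurable_const.max (measurable_const.min hg)
  have hbk : ∀ (k : ℕ) w, |gk k w| ≤ k := by
    intro k w
    have hk : (0 : ℝ) ≤ k := Nat.cast_nonneg k
    exact abs_le.2 ⟨le_max_left _ _, max_le (by linarith) (min_le_left _ _)⟩
  have hbg : ∀ (k : ℕ) w, |gk k w| ≤ |g w| := by
    intro k w
    have hk : (0 : ℝ) ≤ k := Nat.cast_nonneg k
    have h1 := neg_abs_le (g w)
    have h2 := le_abs_self (g w)
    have h3 := abs_nonneg (g w)
    rw [abs_le]
    constructor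
    · rcases le_total (g w) k with h | h
      · exact le_max_of_le_right (by rw [min_eq_right h]; exact h1)
      · exact le_max_of_le_right (by rw [min_eq_left h]; linarith)
    · exact max_le (by linarith) ((min_le_right _ _).trans h2)
  have hlim : ∀ w, Tendsto (fun k => gk k w * Z w) atTop (𝓝 (g w * Z w)) := by
    intro w
    apply Tendsto.mul_const
    apply tendsto_const_nhds.congr'
    filter_upwards [eventually_ge_atTop ⌈|g w|⌉₊] with k hk
    have h1 : |g w| ≤ k := (Nat.le_ceil _).trans (by exact_mod_cast hk)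
    have h2 := abs_le.1 h1
    simp only [hgk]
    rw [min_eq_right h2.2, max_eq_right h2.1]
  have hT := tendsto_integral_of_dominated_convergence (μ := P) (F := fun k w => gk k w * Z w)
    (f := fun w => g w * Z w) (fun w => |g w * Z w|)
    (fun k => (((hmk k).mono hm le_rfl).mul hZ).aestronglyMeasurable) hi.abs
    (fun k => by
      filter_upwards with w
      rw [Real.norm_eq_abs, abs_mul, abs_mul]
      exact mul_le_mul_of_nonneg_right (hbg k w) (abs_nonneg _))
    (by filter_upwards with w using hlim w)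
  have hz : ∀ k : ℕ, ∫ w, gk k w * Z w ∂P = 0 := by
    intro k
    rcases Nat.eq_zero_or_pos k with hk | hk
    · have : ∀ w, gk k w = 0 := fun w => by
        have := hbk k w
        rw [hk] at this
        simpa [hk] using this
      simp [this]
    · have hk' : (0 : ℝ) < k := by exact_mod_cast hk
      have h1 := h (fun w => gk k w / k) ((hmk k).div_const _) (fun w => by
        rw [abs_div, abs_of_pos hk', div_le_one hk']
        exact hbk k w)
      have e : (fun w => gk k w / k * Z w) = fun w => (1 / (k : ℝ)) * (gk k w * Z w) := by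
        funext w; ring
      rw [e, integral_const_mul] at h1
      rcases mul_eq_zero.1 h1 with h2 | h2
      · exfalso
        have : (0 : ℝ) < 1 / k := by positivity
        linarith
      · exact h2
  simp only [hz] at hT
  exact (tendsto_nhds_unique hT tendsto_const_nhds)

theorem sum_sq_int (Z : ℕ → Ω → ℝ) (hm : ∀ i, Measurable (Z i)) (n : ℕ)
    (h2 : ∀ i < n, Integrable (fun w => Z i w ^ 2) P)
    (ho : ∀ j < n, ∀ i < j, ∫ w, Z i w * Z j w ∂P = 0) :
    Integrable (fun w => (∑ i ∈ range n, Z i w) ^ 2) P ∧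
      ∫ w, (∑ i ∈ range n, Z i w) ^ 2 ∂P = ∑ i ∈ range n, ∫ w, Z i w ^ 2 ∂P := by
  have hprod : ∀ i < n, ∀ j < n, Integrable (fun w => Z i w * Z j w) P := by
    intro i hi j hj
    refine ((h2 i hi).add (h2 j hj)).mono' ((hm i).mul (hm j)).aestronglyMeasurable ?_
    filter_upwards with w
    rw [Real.norm_eq_abs, abs_mul]
    show _ ≤ Z i w ^ 2 + Z j w ^ 2
    rw [← sq_abs (Z i w), ← sq_abs (Z j w)]
    nlinarith [sq_nonneg (|Z i w| - |Z j w|), sq_nonneg (|Z i w|), sq_nonneg (|Z j w|)]
  induction n with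
  | zero => simp
  | succ n ih =>
    obtain ⟨i1, i2⟩ := ih (fun i hi => h2 i (by omega)) (fun j hj i hi => ho j (by omega) i hi)
      (fun i hi j hj => hprod i (by omega) j (by omega))
    have hc : Integrable (fun w => 2 * ∑ i ∈ range n, Z i w * Z n w) P :=
      (integrable_finsetSum _ fun i hi => hprod i (by have := Finset.mem_range.1 hi; omega) n (by omega)).const_mul 2
    have e : (fun w => (∑ i ∈ range (n + 1), Z i w) ^ 2) = fun w =>
        ((∑ i ∈ range n, Z i w) ^ 2 + 2 * ∑ i ∈ range n, Z i w * Z n w) + Z n w ^ 2 := by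
      funext w
      rw [Finset.sum_range_succ, ← Finset.sum_mul]
      ring
    have hsum : Integrable (fun w => (∑ i ∈ range n, Z i w) ^ 2 + 2 * ∑ i ∈ range n, Z i w * Z n w) P := i1.add hc
    rw [e]
    refine ⟨hsum.add (h2 n (by omega)), ?_⟩
    rw [integral_add hsum (h2 n (by omega)), integral_add i1 hc, integral_const_mul,
      integral_finsetSum _ fun i hi => hprod i (by have := Finset.mem_range.1 hi; omega) n (by omega),
      Finset.sum_eq_zero (s := range n) (f := fun i => ∫ w, Z i w * Z n w ∂P)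
        (fun i hi => ho n (by omega) i (Finset.mem_range.1 hi)), i2, Finset.sum_range_succ]
    ring

end

end Pool.Agent.Helper97.QC
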