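import Pool.Agent.Helper97.QC.F1

/-! Towards the logarithm: one system size. -/

set_option autoImplicit false
set_option linter.unusedSectionVars false

open MeasureTheory ProbabilityTheory Filter Finset Topology

namespace Pool.Agent.Helper97.QC

/-- data of one system size -/
structure Sys {Ω : Type*} {mΩ : MeasurableSpace Ω} (P : Measure Ω) (I : ℕ) (D V : ℕ → Ω → ℝ) (a : ℕ → ℝ)
    (Fl : ℕ → MeasurableSpace Ω) (G : ℕ → Set Ω) : Prop where
  hFl : ∀ i, Fl i ≤ mΩ
  hmono : ∀ i, Fl i ≤ Fl (i + 1)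
  hD : ∀ i, Measurable[Fl i] (D i)
  hDpos : ∀ i w, 0 < D i w
  hV : ∀ i, Measurable[Fl i] (V i)
  hVb : ∀ i, ∃ K, ∀ w, |V i w| ≤ K
  hDi : ∀ i, Integrable (fun w => (D (i + 1) w / D i w - 1) ^ 4) P
  hD0 : Integrable (D 0) P
  h1 : ∀ i < I, ∀ g : Ω → ℝ, Measurable[Fl i] g → (∀ w, |g w| ≤ 1) →
      ∫ w, g w * (D (i + 1) w / D i w - 1) ∂P = 0
  h2 : ∀ i < I, ∀ g : Ω → ℝ, Measurable[Fl i] g → (∀ w, |g w| ≤ 1) →
      ∫ w, g w * (D (i + 1) w / D i w - 1) ^ 2 ∂P = ∫ w, g w * V i w ∂P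
  hG : ∀ i, G i = {w | 1 / 2 ≤ D 0 w ∧ ∀ j < i, 1 / 2 ≤ D (j + 1) w / D j w}
  ha : ∀ i, 0 ≤ a i

/-- truncated increments -/
noncomputable def Xt {Ω : Type*} (D : ℕ → Ω → ℝ) (G : ℕ → Set Ω) (i : ℕ) : Ω → ℝ :=
  (G i).indicator (fun w => D (i + 1) w / D i w - 1)

noncomputable def Vt {Ω : Type*} (V : ℕ → Ω → ℝ) (G : ℕ → Set Ω) (i : ℕ) : Ω → ℝ :=
  (G i).indicator (V i)

section
variable {Ω : Type*} {mΩ : MeasurableSpace Ω} {P : Measure Ω} [IsProbabilityMeasure P]
  {I : ℕ} {D V : ℕ → Ω → ℝ} {a : ℕ → ℝ} {Fl : ℕ → MeasurableSpace Ω} {G : ℕ → Set Ω}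

theorem Sys.mono_le (h : Sys P I D V a Fl G) {i j : ℕ} (hij : i ≤ j) : Fl i ≤ Fl j := by
  induction j, hij using Nat.le_induction with
  | base => exact le_rfl
  | succ j _ ih => exact ih.trans (h.hmono j)

theorem Sys.ratio_meas (h : Sys P I D V a Fl G) (i : ℕ) : Measurable[Fl (i + 1)] (fun w => D (i + 1) w / D i w) := by
  have key : ∀ {m : MeasurableSpace Ω} {f g : Ω → ℝ}, Measurable[m] f → Measurable[m] g →
      Measurable[m] (fun w => f w / g w) := fun hf hg => hf.div hg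
  exact key (h.hD (i + 1)) ((h.hD i).mono (h.hmono i) le_rfl)

theorem Sys.G_meas (h : Sys P I D V a Fl G) (i : ℕ) : MeasurableSet[Fl i] (G i) := by
  have key : ∀ {m : MeasurableSpace Ω} {f : Ω → ℝ}, Measurable[m] f → MeasurableSet[m] {w | 1 / 2 ≤ f w} :=
    fun hf => hf measurableSet_Ici
  have h0 : MeasurableSet[Fl i] {w | 1 / 2 ≤ D 0 w} := key ((h.hD 0).mono (h.mono_le (Nat.zero_le _)) le_rfl)
  have h1 : ∀ j < i, MeasurableSet[Fl i] {w | 1 / 2 ≤ D (j + 1) w / D j w} := fun j hj =>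
    key ((h.ratio_meas j).mono (h.mono_le hj) le_rfl)
  have e : G i = {w | 1 / 2 ≤ D 0 w} ∩ ⋂ j ∈ Finset.range i, {w | 1 / 2 ≤ D (j + 1) w / D j w} := by
    rw [h.hG i]
    ext w
    simp only [Set.mem_ofPred_eq, Set.mem_inter_iff, Set.mem_iInter, Finset.mem_range]
  rw [e]
  apply MeasurableSet.inter h0
  apply Finset.measurableSet_biInter
  intro j hj
  exact h1 j (Finset.mem_range.1 hj)

theorem Sys.G_sub (h : Sys P I D V a Fl G) {i j : ℕ} (hij : i ≤ j) : G j ⊆ G i := by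
  rw [h.hG i, h.hG j]
  exact fun w hw => ⟨hw.1, fun k hk => hw.2 k (by omega)⟩

theorem ind_meas' {m : MeasurableSpace Ω} {A : Set Ω} {f : Ω → ℝ} (hA : MeasurableSet[m] A)
    (hf : Measurable[m] f) : Measurable[m] (A.indicator f) := hf.indicator hA

theorem sub_one_meas {m : MeasurableSpace Ω} {f : Ω → ℝ} (hf : Measurable[m] f) :
    Measurable[m] (fun w => f w - 1) := hf.sub_const 1

theorem Sys.X_meas (h : Sys P I D V a Fl G) (i : ℕ) : Measurable[Fl (i + 1)] (Xt D G i) :=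
  ind_meas' (h.hmono i _ (h.G_meas i)) (sub_one_meas (h.ratio_meas i))

theorem Sys.X_meas0 (h : Sys P I D V a Fl G) (i : ℕ) : Measurable (Xt D G i) :=
  (h.X_meas i).mono (h.hFl _) le_rfl

theorem Sys.V_meas (h : Sys P I D V a Fl G) (i : ℕ) : Measurable[Fl i] (Vt V G i) :=
  ind_meas' (h.G_meas i) (h.hV i)

theorem Sys.V_meas0 (h : Sys P I D V a Fl G) (i : ℕ) : Measurable (Vt V G i) :=
  (h.V_meas i).mono (h.hFl _) le_rfl

theorem Sys.V_bdd (h : Sys P I D V a Fl G) (i : ℕ) : ∃ K : ℝ, 0 < K ∧ ∀ w, |Vt V G i w| ≤ K := by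
  obtain ⟨K, hK⟩ := h.hVb i
  refine ⟨|K| + 1, by positivity, fun w => ?_⟩
  unfold Vt
  by_cases hw : w ∈ G i
  · rw [Set.indicator_of_mem hw]
    exact (hK w).trans ((le_abs_self K).trans (by linarith))
  · rw [Set.indicator_of_notMem hw, abs_zero]
    positivity

theorem Sys.G_meas0 (h : Sys P I D V a Fl G) (i : ℕ) : MeasurableSet (G i) := h.hFl i _ (h.G_meas i)

theorem Sys.X4 (h : Sys P I D V a Fl G) (i : ℕ) : Integrable (fun w => Xt D G i w ^ 4) P ∧
    ∫ w, Xt D G i w ^ 4 ∂P = ∫ w in G i, (D (i + 1) w / D i w - 1) ^ 4 ∂P := by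
  have e : (fun w => Xt D G i w ^ 4) = (G i).indicator (fun w => (D (i + 1) w / D i w - 1) ^ 4) := by
    funext w
    unfold Xt
    by_cases hw : w ∈ G i
    · rw [Set.indicator_of_mem hw, Set.indicator_of_mem hw]
    · rw [Set.indicator_of_notMem hw, Set.indicator_of_notMem hw]
      norm_num
  rw [e]
  exact ⟨(h.hDi i).indicator (h.G_meas0 i), integral_indicator (h.G_meas0 i)⟩

theorem ind_bdd {A : Set Ω} {g : Ω → ℝ} (hb : ∀ w, |g w| ≤ 1) (w : Ω) : |A.indicator g w| ≤ 1 := by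
  by_cases hw : w ∈ A
  · rw [Set.indicator_of_mem hw]; exact hb w
  · rw [Set.indicator_of_notMem hw, abs_zero]; norm_num

theorem Sys.X1 (h : Sys P I D V a Fl G) {i : ℕ} (hi : i < I) {g : Ω → ℝ} (hg : Measurable[Fl i] g)
    (hb : ∀ w, |g w| ≤ 1) : ∫ w, g w * Xt D G i w ∂P = 0 := by
  have h1 := h.h1 i hi ((G i).indicator g) (ind_meas' (h.G_meas i) hg) (ind_bdd hb)
  rw [← h1]
  congr 1
  funext w
  unfold Xt
  by_cases hw : w ∈ G i
  · rw [Set.indicator_of_mem hw, Set.indicator_of_mem hw]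
  · rw [Set.indicator_of_notMem hw, Set.indicator_of_notMem hw]
    ring

theorem Sys.X2 (h : Sys P I D V a Fl G) {i : ℕ} (hi : i < I) {g : Ω → ℝ} (hg : Measurable[Fl i] g)
    (hb : ∀ w, |g w| ≤ 1) : ∫ w, g w * Xt D G i w ^ 2 ∂P = ∫ w, g w * Vt V G i w ∂P := by
  have h1 := h.h2 i hi ((G i).indicator g) (ind_meas' (h.G_meas i) hg) (ind_bdd hb)
  have e1 : ∀ w, g w * Xt D G i w ^ 2 = (G i).indicator g w * (D (i + 1) w / D i w - 1) ^ 2 := by
    intro w
    unfold Xt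
    by_cases hw : w ∈ G i
    · rw [Set.indicator_of_mem hw, Set.indicator_of_mem hw]
    · rw [Set.indicator_of_notMem hw, Set.indicator_of_notMem hw]
      ring
  have e2 : ∀ w, g w * Vt V G i w = (G i).indicator g w * V i w := by
    intro w
    unfold Vt
    by_cases hw : w ∈ G i
    · rw [Set.indicator_of_mem hw, Set.indicator_of_mem hw]
    · rw [Set.indicator_of_notMem hw, Set.indicator_of_notMem hw]
      ring
  simp only [e1, e2]
  exact h1

theorem Sys.int12 (h : Sys P I D V a Fl G) (i : ℕ) :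
    Integrable (Xt D G i) P ∧ Integrable (fun w => Xt D G i w ^ 2) P :=
  Helper1.QC.int_mono (h.X_meas0 i) (h.X4 i).1

theorem Sys.V_int (h : Sys P I D V a Fl G) (i : ℕ) : Integrable (Vt V G i) P := by
  obtain ⟨K, _, hK⟩ := h.V_bdd i
  exact Integrable.of_bound (h.V_meas0 i).aestronglyMeasurable K (Eventually.of_forall fun w => by
    rw [Real.norm_eq_abs]; exact hK w)

/-- centred squares -/
noncomputable def Zt {Ω : Type*} (D V : ℕ → Ω → ℝ) (G : ℕ → Set Ω) (i : ℕ) (w : Ω) : ℝ :=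
  Xt D G i w ^ 2 - Vt V G i w

theorem Sys.Z_meas (h : Sys P I D V a Fl G) (i : ℕ) : Measurable[Fl (i + 1)] (Zt D V G i) := by
  have key : ∀ {m : MeasurableSpace Ω} {f g : Ω → ℝ}, Measurable[m] f → Measurable[m] g →
      Measurable[m] (fun w => f w ^ 2 - g w) := fun hf hg => (hf.pow_const 2).sub hg
  exact key (h.X_meas i) ((h.V_meas i).mono (h.hmono i) le_rfl)

theorem Sys.Z_sq (h : Sys P I D V a Fl G) {i : ℕ} (hi : i < I) :
    Integrable (fun w => Zt D V G i w ^ 2) P ∧ ∫ w, Zt D V G i w ^ 2 ∂P ≤ ∫ w, Xt D G i w ^ 4 ∂P := by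
  obtain ⟨K, hK0, hK⟩ := h.V_bdd i
  have hX2 := (h.int12 i).2
  have hVm := h.V_meas0 i
  have hVX : Integrable (fun w => Vt V G i w * Xt D G i w ^ 2) P :=
    hX2.bdd_mul (c := K) hVm.aestronglyMeasurable (Eventually.of_forall fun w => by
      rw [Real.norm_eq_abs]; exact hK w)
  have hVV : Integrable (fun w => Vt V G i w * Vt V G i w) P :=
    (h.V_int i).bdd_mul (c := K) hVm.aestronglyMeasurable (Eventually.of_forall fun w => by
      rw [Real.norm_eq_abs]; exact hK w)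
  have e : (fun w => Zt D V G i w ^ 2) = fun w =>
      (Xt D G i w ^ 4 - 2 * (Vt V G i w * Xt D G i w ^ 2)) + Vt V G i w * Vt V G i w := by
    funext w
    unfold Zt
    ring
  have i1 : Integrable (fun w => Xt D G i w ^ 4 - 2 * (Vt V G i w * Xt D G i w ^ 2)) P :=
    (h.X4 i).1.sub (hVX.const_mul 2)
  rw [e]
  refine ⟨i1.add hVV, ?_⟩
  rw [integral_add i1 hVV, integral_sub (h.X4 i).1 (hVX.const_mul 2), integral_const_mul]
  have h2 := h.X2 hi (g := fun w => Vt V G i w / K) ((h.V_meas i).div_const K) (fun w => by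
    rw [abs_div, abs_of_pos hK0, div_le_one hK0]; exact hK w)
  have e1 : (fun w => Vt V G i w / K * Xt D G i w ^ 2) = fun w => (1 / K) * (Vt V G i w * Xt D G i w ^ 2) := by
    funext w; ring
  have e2 : (fun w => Vt V G i w / K * Vt V G i w) = fun w => (1 / K) * (Vt V G i w * Vt V G i w) := by
    funext w; ring
  rw [e1, e2, integral_const_mul, integral_const_mul] at h2
  have h3 := mul_left_cancel₀ (by positivity : (1 / K) ≠ 0) h2
  rw [h3]
  have h4 : 0 ≤ ∫ w, Vt V G i w * Vt V G i w ∂P := integral_nonneg fun w => mul_self_nonneg _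
  linarith

theorem Sys.Z_orth (h : Sys P I D V a Fl G) {j : ℕ} (hj : j < I) {i : ℕ} (hij : i < j) :
    ∫ w, Zt D V G i w * Zt D V G j w ∂P = 0 := by
  have hi : i < I := by omega
  have m1 : Measurable (Zt D V G i) := (h.Z_meas i).mono (h.hFl _) le_rfl
  have m2 : Measurable (Zt D V G j) := (h.Z_meas j).mono (h.hFl _) le_rfl
  have hint : Integrable (fun w => Zt D V G i w * Zt D V G j w) P := by
    refine ((h.Z_sq hi).1.add (h.Z_sq hj).1).mono' (m1.mul m2).aestronglyMeasurable ?_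
    filter_upwards with w
    rw [Real.norm_eq_abs, abs_mul]
    show _ ≤ Zt D V G i w ^ 2 + Zt D V G j w ^ 2
    rw [← sq_abs (Zt D V G i w), ← sq_abs (Zt D V G j w)]
    nlinarith [sq_nonneg (|Zt D V G i w| - |Zt D V G j w|), sq_nonneg (|Zt D V G i w|),
      sq_nonneg (|Zt D V G j w|)]
  apply ortho (h.hFl j) ((h.Z_meas i).mono (h.mono_le hij) le_rfl) m2 hint
  intro g hg hb
  have h2 := h.X2 hj hg hb
  have hgm : Measurable g := hg.mono (h.hFl j) le_rfl
  have i1 : Integrable (fun w => g w * Xt D G j w ^ 2) P :=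
    (h.int12 j).2.bdd_mul (c := 1) hgm.aestronglyMeasurable (Eventually.of_forall fun w => by
      rw [Real.norm_eq_abs]; exact hb w)
  have i2 : Integrable (fun w => g w * Vt V G j w) P :=
    (h.V_int j).bdd_mul (c := 1) hgm.aestronglyMeasurable (Eventually.of_forall fun w => by
      rw [Real.norm_eq_abs]; exact hb w)
  have e : (fun w => g w * Zt D V G j w) = fun w => g w * Xt D G j w ^ 2 - g w * Vt V G j w := by
    funext w
    unfold Zt
    ring
  rw [e, integral_sub i1 i2, h2, sub_self]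

/-- mean absolute value of the sum of the centred squares -/
theorem Sys.Z_sum (h : Sys P I D V a Fl G) :
    Integrable (fun w => |∑ i ∈ range I, Zt D V G i w|) P ∧
    ∫ w, |∑ i ∈ range I, Zt D V G i w| ∂P ≤ √(∑ i ∈ range I, ∫ w, Xt D G i w ^ 4 ∂P) := by
  have hm : ∀ i, Measurable (Zt D V G i) := fun i => (h.Z_meas i).mono (h.hFl _) le_rfl
  obtain ⟨s1, s2⟩ := sum_sq_int (P := P) (Zt D V G) hm I (fun i hi => (h.Z_sq hi).1)
    (fun j hj i hij => h.Z_orth hj hij)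
  set f : Ω → ℝ := fun w => |∑ i ∈ range I, Zt D V G i w| with hf
  have hfm : Measurable f := (Finset.measurable_sum _ fun i _ => hm i).abs
  have hf2 : (fun w => f w ^ 2) = fun w => (∑ i ∈ range I, Zt D V G i w) ^ 2 := by
    funext w
    rw [hf]
    simp only [sq_abs]
  have hf2i : Integrable (fun w => f w ^ 2) P := by rw [hf2]; exact s1
  have hfi : Integrable f P := by
    refine (hf2i.add (integrable_const (1 : ℝ))).mono' hfm.aestronglyMeasurable ?_
    filter_upwards with w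
    have h0 : 0 ≤ f w := abs_nonneg _
    rw [Real.norm_eq_abs, abs_of_nonneg h0]
    show f w ≤ f w ^ 2 + 1
    nlinarith [sq_nonneg (f w - 1)]
  refine ⟨hfi, ?_⟩
  set c := ∫ w, f w ∂P with hc
  apply Real.le_sqrt_of_sq_le
  have h0 : 0 ≤ ∫ w, (f w - c) ^ 2 ∂P := integral_nonneg fun w => sq_nonneg _
  have e : ∫ w, (f w - c) ^ 2 ∂P = ∫ w, f w ^ 2 ∂P - c ^ 2 := by
    have : (fun w => (f w - c) ^ 2) = fun w => (f w ^ 2 - (2 * c) * f w) + c ^ 2 := by
      funext w; ring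
    have hs2 : Integrable (fun w => f w ^ 2 - (2 * c) * f w) P := hf2i.sub (hfi.const_mul _)
    rw [this, integral_add hs2 (integrable_const _),
      integral_sub hf2i (hfi.const_mul _), integral_const_mul, ← hc]
    simp only [integral_const, probReal_univ, one_smul]
    ring
  have e2 : ∫ w, f w ^ 2 ∂P ≤ ∑ i ∈ range I, ∫ w, Xt D G i w ^ 4 ∂P := by
    rw [hf2, s2]
    exact Finset.sum_le_sum fun i hi => (h.Z_sq (Finset.mem_range.1 hi)).2
  rw [e] at h0
  linarith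

end

end Pool.Agent.Helper97.QC
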