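import Pool.Agent.Helper97.QC.F2

/-! Towards the logarithm: comparison of characteristic functions for one system size. -/

set_option autoImplicit false
set_option linter.unusedSectionVars false

open MeasureTheory ProbabilityTheory Filter Finset Topology

namespace Pool.Agent.Helper97.QC

section
variable {Ω : Type*} {mΩ : MeasurableSpace Ω} {P : Measure Ω} [IsProbabilityMeasure P]
  {I : ℕ} {D V : ℕ → Ω → ℝ} {a : ℕ → ℝ} {Fl : ℕ → MeasurableSpace Ω} {G : ℕ → Set Ω}

theorem Sys.bad_pt (h : Sys P I D V a Fl G) (w : Ω) :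
    (G I)ᶜ.indicator (fun _ => (1 : ℝ)) w ≤ 2 * |D 0 w - 1| + 16 * ∑ i ∈ range I, Xt D G i w ^ 4 := by
  have hs : 0 ≤ ∑ i ∈ range I, Xt D G i w ^ 4 := Finset.sum_nonneg fun i _ => by positivity
  have ha := abs_nonneg (D 0 w - 1)
  by_cases hw : w ∈ G I
  · rw [Set.indicator_of_notMem (by simpa using hw)]
    positivity
  · rw [Set.indicator_of_mem (by simpa using hw)]
    rw [h.hG I] at hw
    by_cases h0 : 1 / 2 ≤ D 0 w
    · have hex : ∃ j, j < I ∧ D (j + 1) w / D j w < 1 / 2 := by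
        by_contra hc
        push Not at hc
        exact hw ⟨h0, fun j hj => hc j hj⟩
      classical
      have hj := Nat.find_spec hex
      set j := Nat.find hex with hjd
      have hGj : w ∈ G j := by
        rw [h.hG j]
        refine ⟨h0, fun k hk => ?_⟩
        have h1 := Nat.find_min hex hk
        rw [not_and, not_lt] at h1
        exact h1 (by omega)
      have hX : Xt D G j w = D (j + 1) w / D j w - 1 := by
        unfold Xt
        rw [Set.indicator_of_mem hGj]
      have h2 : 1 / 2 ≤ -Xt D G j w := by rw [hX]; linarith [hj.2]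
      have h3 : (1 / 2 : ℝ) ^ 4 ≤ (-Xt D G j w) ^ 4 := pow_le_pow_left₀ (by norm_num) h2 4
      have h4 : (-Xt D G j w) ^ 4 = Xt D G j w ^ 4 := by ring
      have h5 : Xt D G j w ^ 4 ≤ ∑ i ∈ range I, Xt D G i w ^ 4 :=
        Finset.single_le_sum (f := fun i => Xt D G i w ^ 4) (fun i _ => by positivity) (Finset.mem_range.2 hj.1)
      rw [h4] at h3
      norm_num at h3
      linarith
    · push Not at h0
      have : 1 / 2 ≤ |D 0 w - 1| := by
        rw [abs_sub_comm]
        refine le_trans ?_ (le_abs_self _)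
        linarith
      linarith

theorem Sys.D0i (h : Sys P I D V a Fl G) : Integrable (fun w => |D 0 w - 1|) P :=
  (h.hD0.sub (integrable_const _)).abs

theorem Sys.e4_eq (h : Sys P I D V a Fl G) : ∑ i ∈ range I, ∫ w, Xt D G i w ^ 4 ∂P =
    ∑ i ∈ range I, ∫ w in G i, (D (i + 1) w / D i w - 1) ^ 4 ∂P :=
  Finset.sum_congr rfl fun i _ => (h.X4 i).2

theorem Sys.bad (h : Sys P I D V a Fl G) :
    P.real (G I)ᶜ ≤ 2 * ∫ w, |D 0 w - 1| ∂P + 16 * ∑ i ∈ range I, ∫ w, Xt D G i w ^ 4 ∂P := by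
  have e : P.real (G I)ᶜ = ∫ w, (G I)ᶜ.indicator (fun _ => (1 : ℝ)) w ∂P := by
    rw [integral_indicator (h.G_meas0 I).compl, setIntegral_const, smul_eq_mul, mul_one]
  have hi : Integrable (fun w => ∑ i ∈ range I, Xt D G i w ^ 4) P :=
    integrable_finsetSum _ fun i _ => (h.X4 i).1
  rw [e, ← integral_const_mul, ← integral_finsetSum _ fun i _ => (h.X4 i).1, ← integral_const_mul,
    ← integral_add (h.D0i.const_mul 2) (hi.const_mul 16)]
  exact integral_mono ((integrable_const _).indicator (h.G_meas0 I).compl)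
    ((h.D0i.const_mul 2).add (hi.const_mul 16)) fun w => h.bad_pt w

theorem Sys.Vdev_int (h : Sys P I D V a Fl G) (i : ℕ) :
    Integrable ((G i).indicator (fun w => |V i w - a i|)) P ∧
      ∫ w, (G i).indicator (fun w => |V i w - a i|) w ∂P = ∫ w in G i, |V i w - a i| ∂P := by
  obtain ⟨K, hK⟩ := h.hVb i
  have hVm : Measurable (V i) := (h.hV i).mono (h.hFl i) le_rfl
  have hVi : Integrable (V i) P :=
    Integrable.of_bound hVm.aestronglyMeasurable K (Eventually.of_forall fun w => by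
      rw [Real.norm_eq_abs]; exact hK w)
  exact ⟨((hVi.sub (integrable_const _)).abs).indicator (h.G_meas0 i), integral_indicator (h.G_meas0 i)⟩

theorem Sys.Vdev (h : Sys P I D V a Fl G) {i : ℕ} (hi : i ≤ I) :
    ∫ w, |Vt V G i w - a i| ∂P ≤ ∫ w in G i, |V i w - a i| ∂P + a i * P.real (G I)ᶜ := by
  have e : P.real (G I)ᶜ = ∫ w, (G I)ᶜ.indicator (fun _ => (1 : ℝ)) w ∂P := by
    rw [integral_indicator (h.G_meas0 I).compl, setIntegral_const, smul_eq_mul, mul_one]
  have h1 := h.Vdev_int i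
  have hc : Integrable ((G I)ᶜ.indicator (fun _ => (1 : ℝ))) P :=
    (integrable_const _).indicator (h.G_meas0 I).compl
  rw [e, ← h1.2, ← integral_const_mul, ← integral_add h1.1 (hc.const_mul _)]
  apply integral_mono ((h.V_int i).sub (integrable_const _)).abs (h1.1.add (hc.const_mul _))
  intro w
  show |Vt V G i w - a i| ≤ (G i).indicator (fun w => |V i w - a i|) w + a i * (G I)ᶜ.indicator (fun _ => (1 : ℝ)) w
  unfold Vt
  have hnn : 0 ≤ (G I)ᶜ.indicator (fun _ => (1 : ℝ)) w := Set.indicator_nonneg (fun _ _ => by norm_num) w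
  have ha := h.ha i
  by_cases hw : w ∈ G i
  · rw [Set.indicator_of_mem hw, Set.indicator_of_mem hw]
    nlinarith
  · rw [Set.indicator_of_notMem hw, Set.indicator_of_notMem hw, Set.indicator_of_mem (show w ∈ (G I)ᶜ from
      fun hc => hw (h.G_sub hi hc))]
    rw [zero_sub, abs_neg, abs_of_nonneg ha]
    linarith

theorem Sys.X2_le (h : Sys P I D V a Fl G) {i : ℕ} (hi : i < I) :
    ∫ w, Xt D G i w ^ 2 ∂P ≤ a i + ∫ w in G i, |V i w - a i| ∂P := by
  have h2 := h.X2 hi (g := fun _ => 1) (@measurable_const _ _ _ (Fl i) _) (by simp)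
  simp only [one_mul] at h2
  rw [h2]
  have h1 := h.Vdev_int i
  have h3 : ∫ w, Vt V G i w ∂P ≤ ∫ w, (a i + (G i).indicator (fun w => |V i w - a i|) w) ∂P := by
    apply integral_mono (h.V_int i) ((integrable_const _).add h1.1)
    intro w
    show Vt V G i w ≤ a i + (G i).indicator (fun w => |V i w - a i|) w
    unfold Vt
    have ha := h.ha i
    by_cases hw : w ∈ G i
    · rw [Set.indicator_of_mem hw, Set.indicator_of_mem hw]
      linarith [le_abs_self (V i w - a i)]
    · rw [Set.indicator_of_notMem hw, Set.indicator_of_notMem hw]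
      linarith
  refine h3.trans (le_of_eq ?_)
  rw [integral_add (integrable_const _) h1.1, h1.2]
  simp

/-- expansion of the logarithm on the good event -/
theorem Sys.log_exp (h : Sys P I D V a Fl G) {w : Ω} (hw : w ∈ G I) (lam : ℝ) :
    |Real.log (D I w) + lam ^ 2 / 2 - ∑ i ∈ range I, Xt D G i w| ≤
      2 * |D 0 w - 1| + 1 / 2 * |∑ i ∈ range I, Zt D V G i w| +
      1 / 2 * ∑ i ∈ range I, (G i).indicator (fun w => |V i w - a i|) w +
      1 / 2 * |∑ i ∈ range I, a i - lam ^ 2| + 5 * ∑ i ∈ range I, |Xt D G i w| ^ 3 := by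
  have hGi : ∀ i ∈ range I, w ∈ G i := fun i hi => h.G_sub (Finset.mem_range.1 hi).le hw
  have hX : ∀ i ∈ range I, Xt D G i w = D (i + 1) w / D i w - 1 := fun i hi => by
    unfold Xt
    rw [Set.indicator_of_mem (hGi i hi)]
  have hw' := hw
  rw [h.hG I] at hw'
  have e1 : Real.log (D I w) = Real.log (D 0 w) + ∑ i ∈ range I, Real.log (1 + Xt D G i w) := by
    have h1 := Finset.sum_range_sub (fun i => Real.log (D i w)) I
    have h2 : ∑ i ∈ range I, Real.log (1 + Xt D G i w) =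
        ∑ i ∈ range I, (Real.log (D (i + 1) w) - Real.log (D i w)) := by
      apply Finset.sum_congr rfl
      intro i hi
      rw [hX i hi, ← Real.log_div (h.hDpos _ _).ne' (h.hDpos _ _).ne']
      congr 1
      ring
    rw [h2, h1]
    ring
  have e2 : ∑ i ∈ range I, Zt D V G i w = ∑ i ∈ range I, Xt D G i w ^ 2 - ∑ i ∈ range I, V i w := by
    rw [← Finset.sum_sub_distrib]
    apply Finset.sum_congr rfl
    intro i hi
    unfold Zt Vt
    rw [Set.indicator_of_mem (hGi i hi)]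
  have e3 : ∑ i ∈ range I, (G i).indicator (fun w => |V i w - a i|) w = ∑ i ∈ range I, |V i w - a i| := by
    apply Finset.sum_congr rfl
    intro i hi
    rw [Set.indicator_of_mem (hGi i hi)]
  have b1 : |∑ i ∈ range I, (Real.log (1 + Xt D G i w) - Xt D G i w + Xt D G i w ^ 2 / 2)| ≤
      5 * ∑ i ∈ range I, |Xt D G i w| ^ 3 := by
    rw [Finset.mul_sum]
    refine (Finset.abs_sum_le_sum_abs _ _).trans (Finset.sum_le_sum fun i hi => log_rem ?_)
    rw [hX i hi]
    have := hw'.2 i (Finset.mem_range.1 hi)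
    linarith
  have b2 : |∑ i ∈ range I, V i w - ∑ i ∈ range I, a i| ≤ ∑ i ∈ range I, |V i w - a i| := by
    rw [← Finset.sum_sub_distrib]
    exact Finset.abs_sum_le_sum_abs _ _
  have b0 := log_abs_le hw'.1
  rw [e2, e3]
  have e4 : Real.log (D I w) + lam ^ 2 / 2 - ∑ i ∈ range I, Xt D G i w =
      Real.log (D 0 w) + ∑ i ∈ range I, (Real.log (1 + Xt D G i w) - Xt D G i w + Xt D G i w ^ 2 / 2) -
      1 / 2 * (∑ i ∈ range I, Xt D G i w ^ 2 - ∑ i ∈ range I, V i w) -
      1 / 2 * (∑ i ∈ range I, V i w - ∑ i ∈ range I, a i) -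
      1 / 2 * (∑ i ∈ range I, a i - lam ^ 2) := by
    rw [e1, Finset.sum_add_distrib, Finset.sum_sub_distrib, ← Finset.sum_div]
    ring
  rw [e4]
  set A := Real.log (D 0 w)
  set B := ∑ i ∈ range I, (Real.log (1 + Xt D G i w) - Xt D G i w + Xt D G i w ^ 2 / 2)
  set X2 := ∑ i ∈ range I, Xt D G i w ^ 2 - ∑ i ∈ range I, V i w
  set X3 := ∑ i ∈ range I, V i w - ∑ i ∈ range I, a i
  set X4 := ∑ i ∈ range I, a i - lam ^ 2
  rw [abs_le] at b0 b1 b2 ⊢
  have c1 := abs_le.1 (le_refl |X2|)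
  have c2 := abs_le.1 (le_refl |X4|)
  constructor
  · linarith [b0.1, b1.1, b2.2, c1.2, c2.2]
  · linarith [b0.2, b1.2, b2.1, c1.1, c2.1]

theorem exp_diff (x y : ℝ) : ‖Complex.exp (Complex.I * x) - Complex.exp (Complex.I * y)‖ ≤ |x - y| := by
  have e : Complex.exp (Complex.I * x) - Complex.exp (Complex.I * y) =
      Complex.exp (Complex.I * y) * (Complex.exp (Complex.I * ((x - y : ℝ) : ℂ)) - 1) := by
    rw [mul_sub, mul_one, ← Complex.exp_add]
    congr 2
    push_cast
    ring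
  have h1 : ‖Complex.exp (Complex.I * y)‖ = 1 := by
    rw [mul_comm]; exact Complex.norm_exp_ofReal_mul_I y
  rw [e, norm_mul, h1, one_mul]
  exact Real.norm_exp_I_mul_ofReal_sub_one_le

theorem exp_diff2 (x y : ℝ) : ‖Complex.exp (Complex.I * x) - Complex.exp (Complex.I * y)‖ ≤ 2 := by
  have h : ∀ r : ℝ, ‖Complex.exp (Complex.I * r)‖ = 1 := fun r => by
    rw [mul_comm]; exact Complex.norm_exp_ofReal_mul_I r
  refine (norm_sub_le _ _).trans ?_
  rw [h, h]
  norm_num

/-- comparison of the characteristic functions -/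
theorem Sys.char_diff (h : Sys P I D V a Fl G) {lam θ : ℝ} (hlam : 0 < lam) (hθ : 0 < θ) (τ : ℝ) :
    ‖∫ w, Complex.exp (Complex.I * τ * (((Real.log (D I w) + lam ^ 2 / 2) / lam : ℝ) : ℂ)) ∂P -
      ∫ w, Complex.exp (Complex.I * τ * (∑ i ∈ range I, Xt D G i w) / lam) ∂P‖ ≤
    |τ| / lam * (2 * ∫ w, |D 0 w - 1| ∂P + 1 / 2 * √(∑ i ∈ range I, ∫ w, Xt D G i w ^ 4 ∂P) +
      1 / 2 * ∑ i ∈ range I, ∫ w in G i, |V i w - a i| ∂P + 1 / 2 * |∑ i ∈ range I, a i - lam ^ 2| +
      5 * (θ / 2 * (∑ i ∈ range I, a i + ∑ i ∈ range I, ∫ w in G i, |V i w - a i| ∂P) +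
        1 / (2 * θ) * ∑ i ∈ range I, ∫ w, Xt D G i w ^ 4 ∂P)) +
    2 * (2 * ∫ w, |D 0 w - 1| ∂P + 16 * ∑ i ∈ range I, ∫ w, Xt D G i w ^ 4 ∂P) := by
  have hDm : Measurable (D I) := (h.hD I).mono (h.hFl I) le_rfl
  have hSm : Measurable (fun w => ∑ i ∈ range I, Xt D G i w) := Finset.measurable_sum _ fun i _ => h.X_meas0 i
  set U : Ω → ℝ := fun w => τ * ((Real.log (D I w) + lam ^ 2 / 2) / lam) with hU
  set U' : Ω → ℝ := fun w => τ * ((∑ i ∈ range I, Xt D G i w) / lam) with hU'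
  have hUm : Measurable U := ((hDm.log.add_const _).div_const _).const_mul _
  have hUm' : Measurable U' := (hSm.div_const _).const_mul _
  have eU : ∀ w, Complex.I * τ * (((Real.log (D I w) + lam ^ 2 / 2) / lam : ℝ) : ℂ) = Complex.I * ((U w : ℝ) : ℂ) := by
    intro w
    rw [hU]
    push_cast
    ring
  have eU' : ∀ w, Complex.I * τ * (∑ i ∈ range I, Xt D G i w) / lam = Complex.I * ((U' w : ℝ) : ℂ) := by
    intro w
    rw [hU']
    push_cast
    ring
  simp only [eU, eU']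
  have hn : ∀ r : ℝ, ‖Complex.exp (Complex.I * r)‖ = 1 := fun r => by
    rw [mul_comm]; exact Complex.norm_exp_ofReal_mul_I r
  have cm : ∀ {f : Ω → ℝ}, Measurable f → Integrable (fun w => Complex.exp (Complex.I * (f w : ℂ))) P := by
    intro f hf
    apply Integrable.of_bound (C := 1)
    · exact (Complex.measurable_exp.comp ((Complex.measurable_ofReal.comp hf).const_mul _)).aestronglyMeasurable
    · exact Eventually.of_forall fun w => (hn _).le
  rw [← integral_sub (cm hUm) (cm hUm')]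
  refine (norm_integral_le_integral_norm _).trans ?_
  -- pointwise bound
  have hX3 : ∀ (i : ℕ) (w : Ω), |Xt D G i w| ^ 3 ≤ θ / 2 * Xt D G i w ^ 2 + 1 / (2 * θ) * Xt D G i w ^ 4 := by
    intro i w
    have h1 := Helper1.QC.cube_le (Xt D G i w) θ hθ
    have e : θ / 2 * Xt D G i w ^ 2 + 1 / (2 * θ) * Xt D G i w ^ 4 =
        (2 * θ * Xt D G i w ^ 2 + 2 / θ * Xt D G i w ^ 4) / 4 := by
      field_simp
      ring
    rw [e]
    linarith
  set B : Ω → ℝ := fun w => 2 * |D 0 w - 1| + 1 / 2 * |∑ i ∈ range I, Zt D V G i w| +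
      1 / 2 * ∑ i ∈ range I, (G i).indicator (fun w => |V i w - a i|) w +
      1 / 2 * |∑ i ∈ range I, a i - lam ^ 2| +
      5 * (θ / 2 * ∑ i ∈ range I, Xt D G i w ^ 2 + 1 / (2 * θ) * ∑ i ∈ range I, Xt D G i w ^ 4) with hB
  have hBnn : ∀ w, 0 ≤ B w := by
    intro w
    have i1 : 0 ≤ ∑ i ∈ range I, (G i).indicator (fun w => |V i w - a i|) w :=
      Finset.sum_nonneg fun i _ => Set.indicator_nonneg (fun _ _ => abs_nonneg _) w
    have i2 : 0 ≤ ∑ i ∈ range I, Xt D G i w ^ 2 := Finset.sum_nonneg fun i _ => sq_nonneg _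
    have i3 : 0 ≤ ∑ i ∈ range I, Xt D G i w ^ 4 := Finset.sum_nonneg fun i _ => by positivity
    rw [hB]
    positivity
  have hpt : ∀ w, ‖Complex.exp (Complex.I * (U w : ℂ)) - Complex.exp (Complex.I * (U' w : ℂ))‖ ≤
      |τ| / lam * B w + 2 * (G I)ᶜ.indicator (fun _ => (1 : ℝ)) w := by
    intro w
    by_cases hw : w ∈ G I
    · rw [Set.indicator_of_notMem (by simpa using hw), mul_zero, add_zero]
      refine (exp_diff _ _).trans ?_
      have e : U w - U' w = τ / lam * (Real.log (D I w) + lam ^ 2 / 2 - ∑ i ∈ range I, Xt D G i w) := by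
        rw [hU, hU']
        field_simp
      rw [e, abs_mul, abs_div, abs_of_pos hlam]
      apply mul_le_mul_of_nonneg_left _ (by positivity)
      refine (h.log_exp hw lam).trans ?_
      have h3 : ∑ i ∈ range I, |Xt D G i w| ^ 3 ≤
          θ / 2 * ∑ i ∈ range I, Xt D G i w ^ 2 + 1 / (2 * θ) * ∑ i ∈ range I, Xt D G i w ^ 4 := by
        rw [Finset.mul_sum, Finset.mul_sum, ← Finset.sum_add_distrib]
        exact Finset.sum_le_sum fun i _ => hX3 i w
      rw [hB]
      simp only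
      linarith
    · rw [Set.indicator_of_mem (by simpa using hw)]
      refine (exp_diff2 _ _).trans ?_
      have := mul_nonneg (div_nonneg (abs_nonneg τ) hlam.le) (hBnn w)
      linarith
  -- integral of the bound
  have j0 : Integrable (fun w => 2 * |D 0 w - 1|) P := h.D0i.const_mul 2
  have j1 : Integrable (fun w => 1 / 2 * |∑ i ∈ range I, Zt D V G i w|) P := h.Z_sum.1.const_mul _
  have j2' : Integrable (fun w => ∑ i ∈ range I, (G i).indicator (fun w => |V i w - a i|) w) P :=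
    integrable_finsetSum _ fun i _ => (h.Vdev_int i).1
  have j2 : Integrable (fun w => 1 / 2 * ∑ i ∈ range I, (G i).indicator (fun w => |V i w - a i|) w) P :=
    j2'.const_mul _
  have j4 : Integrable (fun w => ∑ i ∈ range I, Xt D G i w ^ 2) P :=
    integrable_finsetSum _ fun i _ => (h.int12 i).2
  have j5 : Integrable (fun w => ∑ i ∈ range I, Xt D G i w ^ 4) P :=
    integrable_finsetSum _ fun i _ => (h.X4 i).1
  have j45 : Integrable (fun w => θ / 2 * ∑ i ∈ range I, Xt D G i w ^ 2 +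
      1 / (2 * θ) * ∑ i ∈ range I, Xt D G i w ^ 4) P := (j4.const_mul _).add (j5.const_mul _)
  have k1 : Integrable (fun w => 2 * |D 0 w - 1| + 1 / 2 * |∑ i ∈ range I, Zt D V G i w|) P := j0.add j1
  have k2 : Integrable (fun w => 2 * |D 0 w - 1| + 1 / 2 * |∑ i ∈ range I, Zt D V G i w| +
      1 / 2 * ∑ i ∈ range I, (G i).indicator (fun w => |V i w - a i|) w) P := k1.add j2
  have k3 : Integrable (fun w => 2 * |D 0 w - 1| + 1 / 2 * |∑ i ∈ range I, Zt D V G i w| +
      1 / 2 * ∑ i ∈ range I, (G i).indicator (fun w => |V i w - a i|) w +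
      1 / 2 * |∑ i ∈ range I, a i - lam ^ 2|) P := k2.add (integrable_const _)
  have kB : Integrable B P := k3.add (j45.const_mul 5)
  have kI : Integrable ((G I)ᶜ.indicator (fun _ => (1 : ℝ))) P :=
    (integrable_const _).indicator (h.G_meas0 I).compl
  have hint : ∫ w, B w ∂P ≤ 2 * ∫ w, |D 0 w - 1| ∂P + 1 / 2 * √(∑ i ∈ range I, ∫ w, Xt D G i w ^ 4 ∂P) +
      1 / 2 * ∑ i ∈ range I, ∫ w in G i, |V i w - a i| ∂P + 1 / 2 * |∑ i ∈ range I, a i - lam ^ 2| +
      5 * (θ / 2 * (∑ i ∈ range I, a i + ∑ i ∈ range I, ∫ w in G i, |V i w - a i| ∂P) +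
        1 / (2 * θ) * ∑ i ∈ range I, ∫ w, Xt D G i w ^ 4 ∂P) := by
    rw [hB]
    have e1 : ∫ w, 2 * |D 0 w - 1| ∂P = 2 * ∫ w, |D 0 w - 1| ∂P := integral_const_mul _ _
    have e2 : ∫ w, 1 / 2 * |∑ i ∈ range I, Zt D V G i w| ∂P =
      1 / 2 * ∫ w, |∑ i ∈ range I, Zt D V G i w| ∂P := integral_const_mul _ _
    have e3 : ∫ w, 1 / 2 * ∑ i ∈ range I, (G i).indicator (fun w => |V i w - a i|) w ∂P =
      1 / 2 * ∑ i ∈ range I, ∫ w, (G i).indicator (fun w => |V i w - a i|) w ∂P := by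
      rw [integral_const_mul, integral_finsetSum _ fun i _ => (h.Vdev_int i).1]
    have e4 : ∫ _w, 1 / 2 * |∑ i ∈ range I, a i - lam ^ 2| ∂P = 1 / 2 * |∑ i ∈ range I, a i - lam ^ 2| := by
      simp
    have e5 : ∫ w, 5 * (θ / 2 * ∑ i ∈ range I, Xt D G i w ^ 2 + 1 / (2 * θ) * ∑ i ∈ range I, Xt D G i w ^ 4) ∂P =
        5 * (θ / 2 * ∑ i ∈ range I, ∫ w, Xt D G i w ^ 2 ∂P +
          1 / (2 * θ) * ∑ i ∈ range I, ∫ w, Xt D G i w ^ 4 ∂P) := by
      rw [integral_const_mul, integral_add (j4.const_mul _) (j5.const_mul _), integral_const_mul,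
        integral_const_mul, integral_finsetSum _ fun i _ => (h.int12 i).2,
        integral_finsetSum _ fun i _ => (h.X4 i).1]
    rw [integral_add k3 (j45.const_mul 5), integral_add k2 (integrable_const _), integral_add k1 j2,
      integral_add j0 j1, e1, e2, e3, e4, e5]
    have l1 := h.Z_sum.2
    have l2 : ∑ i ∈ range I, ∫ w, (G i).indicator (fun w => |V i w - a i|) w ∂P =
        ∑ i ∈ range I, ∫ w in G i, |V i w - a i| ∂P :=
      Finset.sum_congr rfl fun i _ => (h.Vdev_int i).2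
    have l3 : ∑ i ∈ range I, ∫ w, Xt D G i w ^ 2 ∂P ≤
        ∑ i ∈ range I, a i + ∑ i ∈ range I, ∫ w in G i, |V i w - a i| ∂P := by
      rw [← Finset.sum_add_distrib]
      exact Finset.sum_le_sum fun i hi => h.X2_le (Finset.mem_range.1 hi)
    rw [l2]
    have l4 := mul_le_mul_of_nonneg_left l3 (show 0 ≤ θ / 2 by positivity)
    linarith
  have hbad : ∫ w, (G I)ᶜ.indicator (fun _ => (1 : ℝ)) w ∂P ≤
      2 * ∫ w, |D 0 w - 1| ∂P + 16 * ∑ i ∈ range I, ∫ w, Xt D G i w ^ 4 ∂P := by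
    have e : P.real (G I)ᶜ = ∫ w, (G I)ᶜ.indicator (fun _ => (1 : ℝ)) w ∂P := by
      rw [integral_indicator (h.G_meas0 I).compl, setIntegral_const, smul_eq_mul, mul_one]
    rw [← e]
    exact h.bad
  have hfin : ∫ w, ‖Complex.exp (Complex.I * (U w : ℂ)) - Complex.exp (Complex.I * (U' w : ℂ))‖ ∂P ≤
      ∫ w, (|τ| / lam * B w + 2 * (G I)ᶜ.indicator (fun _ => (1 : ℝ)) w) ∂P :=
    integral_mono ((cm hUm).sub (cm hUm')).norm ((kB.const_mul _).add (kI.const_mul _)) hpt
  refine hfin.trans ?_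
  rw [integral_add (kB.const_mul _) (kI.const_mul _), integral_const_mul, integral_const_mul]
  have := mul_le_mul_of_nonneg_left hint (div_nonneg (abs_nonneg τ) hlam.le)
  linarith

end

end Pool.Agent.Helper97.QC
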