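import Pool.Agent.Helper97.QC.F3

/-! From the martingale central limit theorem to the logarithm. -/

set_option autoImplicit false
set_option linter.unusedSectionVars false

open MeasureTheory ProbabilityTheory Filter Finset Topology

namespace Pool.Agent.Helper97.QC

theorem log_clt {Ω : Type*} {mΩ : MeasurableSpace Ω} {P : Measure Ω} [IsProbabilityMeasure P]
    (I : ℕ → ℕ) (D V : ℕ → ℕ → Ω → ℝ) (a : ℕ → ℕ → ℝ) (lam : ℕ → ℝ)
    (Fl : ℕ → ℕ → MeasurableSpace Ω) (hFl : ∀ N i, Fl N i ≤ mΩ) (hmono : ∀ N i, Fl N i ≤ Fl N (i + 1))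
    (hD : ∀ N i, Measurable[Fl N i] (D N i)) (hDpos : ∀ N i w, 0 < D N i w)
    (hV : ∀ N i, Measurable[Fl N i] (V N i)) (hVb : ∀ N i, ∃ K, ∀ w, |V N i w| ≤ K)
    (hDi : ∀ N i, Integrable (fun w => (D N (i + 1) w / D N i w - 1) ^ 4) P)
    (hD0 : ∀ N, Integrable (D N 0) P)
    (h1 : ∀ N, ∀ i < I N, ∀ g : Ω → ℝ, Measurable[Fl N i] g → (∀ w, |g w| ≤ 1) →
      ∫ w, g w * (D N (i + 1) w / D N i w - 1) ∂P = 0)
    (h2 : ∀ N, ∀ i < I N, ∀ g : Ω → ℝ, Measurable[Fl N i] g → (∀ w, |g w| ≤ 1) →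
      ∫ w, g w * (D N (i + 1) w / D N i w - 1) ^ 2 ∂P = ∫ w, g w * V N i w ∂P)
    (G : ℕ → ℕ → Set Ω)
    (hG : ∀ N i, G N i = {w | 1 / 2 ≤ D N 0 w ∧ ∀ j < i, 1 / 2 ≤ D N (j + 1) w / D N j w})
    (hlam : Tendsto lam atTop atTop) (ha : ∀ N i, 0 ≤ a N i)
    (h0 : Tendsto (fun N => ∫ w, |D N 0 w - 1| ∂P) atTop (𝓝 0))
    (h4 : Tendsto (fun N => ∑ i ∈ range (I N), ∫ w in G N i, (D N (i + 1) w / D N i w - 1) ^ 4 ∂P)
      atTop (𝓝 0))
    (hVa : Tendsto (fun N => ∑ i ∈ range (I N), ∫ w in G N i, |V N i w - a N i| ∂P) atTop (𝓝 0))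
    (ha1 : Tendsto (fun N => ∑ i ∈ range (I N), a N i - lam N ^ 2) atTop (𝓝 0))
    (ha2 : ∀ η : ℝ, 0 < η → ∀ᶠ N in atTop, ∀ i < I N, a N i ≤ η) (τ : ℝ) :
    Tendsto (fun N => ∫ w, Complex.exp (Complex.I * τ *
      (((Real.log (D N (I N) w) + lam N ^ 2 / 2) / lam N : ℝ) : ℂ)) ∂P) atTop
      (𝓝 (Complex.exp (-(τ : ℂ) ^ 2 / 2))) := by
  have hS : ∀ N, Sys P (I N) (D N) (V N) (a N) (Fl N) (G N) := fun N =>
    ⟨hFl N, hmono N, hD N, hDpos N, hV N, hVb N, hDi N, hD0 N, h1 N, h2 N, hG N, ha N⟩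
  -- abbreviations
  set e0 : ℕ → ℝ := fun N => ∫ w, |D N 0 w - 1| ∂P with he0
  set e4 : ℕ → ℝ := fun N => ∑ i ∈ range (I N), ∫ w, Xt (D N) (G N) i w ^ 4 ∂P with he4
  set eV : ℕ → ℝ := fun N => ∑ i ∈ range (I N), ∫ w in G N i, |V N i w - a N i| ∂P with heV
  set sa : ℕ → ℝ := fun N => ∑ i ∈ range (I N), a N i with hsa
  have h4' : Tendsto e4 atTop (𝓝 0) := by
    refine h4.congr fun N => ?_
    exact ((hS N).e4_eq).symm
  have hle : ∀ᶠ N in atTop, 1 ≤ lam N := hlam.eventually_ge_atTop 1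
  have hinv : Tendsto (fun N => (lam N)⁻¹) atTop (𝓝 0) := tendsto_inv_atTop_zero.comp hlam
  have hinv2 : Tendsto (fun N => ((lam N)⁻¹) ^ 2) atTop (𝓝 0) := by
    have := hinv.pow 2
    simpa using this
  have hinv4 : Tendsto (fun N => ((lam N)⁻¹) ^ 4) atTop (𝓝 0) := by
    have := hinv.pow 4
    simpa using this
  have e40 : ∀ N, 0 ≤ e4 N := fun N => Finset.sum_nonneg fun i _ => integral_nonneg fun w => by positivity
  have eV0 : ∀ N, 0 ≤ eV N := fun N => Finset.sum_nonneg fun i _ => integral_nonneg fun w => abs_nonneg _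
  have e00 : ∀ N, 0 ≤ e0 N := fun N => integral_nonneg fun w => abs_nonneg _
  have sa0 : ∀ N, 0 ≤ sa N := fun N => Finset.sum_nonneg fun i _ => ha N i
  -- normalised sums
  have hsa1 : Tendsto (fun N => sa N / lam N ^ 2) atTop (𝓝 1) := by
    have h3 : Tendsto (fun N => 1 + (sa N - lam N ^ 2) * ((lam N)⁻¹) ^ 2) atTop (𝓝 (1 + 0 * 0)) :=
      (ha1.mul hinv2).const_add 1
    rw [mul_zero, add_zero] at h3
    refine h3.congr' ?_
    filter_upwards [hle] with N hN
    have : lam N ≠ 0 := by linarith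
    field_simp
    ring
  have hclt := Helper1.QC.mclt (P := P) I (fun N i => Xt (D N) (G N) i) (fun N i => Vt (V N) (G N) i) a lam Fl
    hFl hmono (fun N i => (hS N).X_meas i) (fun N i => ((hS N).X4 i).1) (fun N i => (hS N).V_int i)
    (fun N i hi g hg hb => (hS N).X1 hi hg hb) (fun N i hi g hg hb => (hS N).X2 hi hg hb)
    (by filter_upwards [hle] with N hN; linarith) ha
    (by
      -- hV
      have h3 : Tendsto (fun N => eV N * ((lam N)⁻¹) ^ 2 + sa N / lam N ^ 2 * (2 * e0 N + 16 * e4 N)) atTop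
          (𝓝 (0 * 0 + 1 * (2 * 0 + 16 * 0))) :=
        (hVa.mul hinv2).add (hsa1.mul ((h0.const_mul 2).add (h4'.const_mul 16)))
      norm_num at h3
      refine squeeze_zero' (Eventually.of_forall fun N => ?_) ?_ h3
      · exact div_nonneg (Finset.sum_nonneg fun i _ => integral_nonneg fun w => abs_nonneg _) (sq_nonneg _)
      · filter_upwards [hle] with N hN
        have hb := (hS N).bad
        have hsum : ∑ i ∈ range (I N), ∫ w, |Vt (V N) (G N) i w - a N i| ∂P ≤
            eV N + sa N * (2 * e0 N + 16 * e4 N) := by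
          calc ∑ i ∈ range (I N), ∫ w, |Vt (V N) (G N) i w - a N i| ∂P
              ≤ ∑ i ∈ range (I N), (∫ w in G N i, |V N i w - a N i| ∂P + a N i * P.real (G N (I N))ᶜ) :=
                Finset.sum_le_sum fun i hi => (hS N).Vdev (Finset.mem_range.1 hi).le
            _ = eV N + sa N * P.real (G N (I N))ᶜ := by rw [Finset.sum_add_distrib, ← Finset.sum_mul]
            _ ≤ _ := by
                have := mul_le_mul_of_nonneg_left hb (sa0 N)
                linarith
        have hl : 0 < lam N ^ 2 := by positivity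
        calc _ ≤ (eV N + sa N * (2 * e0 N + 16 * e4 N)) / lam N ^ 2 := div_le_div_of_nonneg_right hsum hl.le
          _ = _ := by
              field_simp)
    (by
      -- hX4
      have h3 := h4'.mul hinv4
      rw [mul_zero] at h3
      refine h3.congr fun N => ?_
      rw [inv_pow, div_eq_mul_inv])
    hsa1
    (by
      -- squares of the compensators
      have key : ∀ η : ℝ, 0 < η → ∀ᶠ N in atTop, (∑ i ∈ range (I N), a N i ^ 2) / lam N ^ 4 ≤ η := by
        intro η hη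
        have hev : ∀ᶠ N in atTop, sa N / lam N ^ 2 < 2 := hsa1.eventually_lt_const (by norm_num)
        filter_upwards [ha2 (η / 2) (by positivity), hle, hev] with N hN hl hs
        have hl2 : 1 ≤ lam N ^ 2 := one_le_pow₀ hl
        have b1 : ∑ i ∈ range (I N), a N i ^ 2 ≤ η / 2 * sa N := by
          rw [hsa, Finset.mul_sum]
          apply Finset.sum_le_sum
          intro i hi
          rw [sq]
          exact mul_le_mul_of_nonneg_right (hN i (Finset.mem_range.1 hi)) (ha N i)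
        rw [div_lt_iff₀ (by positivity)] at hs
        rw [div_le_iff₀ (by positivity)]
        have b2 : lam N ^ 2 ≤ lam N ^ 4 := by nlinarith
        nlinarith
      rw [Metric.tendsto_nhds]
      intro ε hε
      filter_upwards [key (ε / 2) (by positivity)] with N hN
      rw [Real.dist_eq, sub_zero, abs_of_nonneg (div_nonneg (Finset.sum_nonneg fun i _ => sq_nonneg _)
        (by positivity))]
      linarith) τ
  -- difference
  have hdiff : Tendsto (fun N => (∫ w, Complex.exp (Complex.I * τ *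
      (((Real.log (D N (I N) w) + lam N ^ 2 / 2) / lam N : ℝ) : ℂ)) ∂P) -
      ∫ w, Complex.exp (Complex.I * τ * (∑ i ∈ range (I N), Xt (D N) (G N) i w) / lam N) ∂P) atTop (𝓝 0) := by
    rw [tendsto_zero_iff_norm_tendsto_zero]
    -- θ lam = √e4 + 1/lam
    have hr : Tendsto (fun N => √(e4 N)) atTop (𝓝 0) := by
      have := (Real.continuous_sqrt.tendsto 0).comp h4'
      rwa [Real.sqrt_zero] at this
    set r : ℕ → ℝ := fun N => √(e4 N) + (lam N)⁻¹ with hrdef
    have hr0 : Tendsto r atTop (𝓝 0) := by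
      have := hr.add hinv
      simpa using this
    have habs : Tendsto (fun N => |sa N - lam N ^ 2|) atTop (𝓝 0) := by
      have := ha1.abs
      simpa using this
    -- the bound
    have hB : Tendsto (fun N => |τ| * (lam N)⁻¹ * (2 * e0 N + 1 / 2 * √(e4 N) + 1 / 2 * eV N +
        1 / 2 * |sa N - lam N ^ 2|) + 5 * |τ| * (1 / 2 * r N * (sa N / lam N ^ 2) +
          1 / 2 * r N * (eV N * ((lam N)⁻¹) ^ 2) + 1 / 2 * √(e4 N)) + 2 * (2 * e0 N + 16 * e4 N)) atTop
        (𝓝 (|τ| * 0 * (2 * 0 + 1 / 2 * 0 + 1 / 2 * 0 + 1 / 2 * 0) + 5 * |τ| * (1 / 2 * 0 * 1 +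
          1 / 2 * 0 * (0 * 0) + 1 / 2 * 0) + 2 * (2 * 0 + 16 * 0))) := by
      refine Tendsto.add (Tendsto.add (Tendsto.mul (hinv.const_mul _) ?_) (Tendsto.const_mul _ ?_))
        (Tendsto.const_mul _ ?_)
      · exact (((h0.const_mul 2).add (hr.const_mul _)).add (hVa.const_mul _)).add (habs.const_mul _)
      · exact (((hr0.const_mul _).mul hsa1).add ((hr0.const_mul _).mul (hVa.mul hinv2))).add (hr.const_mul _)
      · exact (h0.const_mul 2).add (h4'.const_mul 16)
    norm_num at hB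
    refine squeeze_zero' (Eventually.of_forall fun N => norm_nonneg _) ?_ hB
    filter_upwards [hle] with N hN
    have hl : 0 < lam N := by linarith
    have hrp : 0 < r N := by
      have := Real.sqrt_nonneg (e4 N)
      have := inv_pos.2 hl
      show 0 < √(e4 N) + (lam N)⁻¹
      linarith
    have h5 := (hS N).char_diff hl (div_pos hrp hl) τ
    refine h5.trans ?_
    have c1 : |τ| / lam N * (5 * (r N / lam N / 2 * (sa N + eV N) + 1 / (2 * (r N / lam N)) * e4 N)) ≤
        5 * |τ| * (1 / 2 * r N * (sa N / lam N ^ 2) +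
          1 / 2 * r N * (eV N * ((lam N)⁻¹) ^ 2) + 1 / 2 * √(e4 N)) := by
      have c2 : e4 N / r N ≤ √(e4 N) := by
        rw [div_le_iff₀ hrp]
        have h6 : √(e4 N) * √(e4 N) = e4 N := Real.mul_self_sqrt (e40 N)
        have h7 : √(e4 N) * √(e4 N) ≤ √(e4 N) * r N := by
          apply mul_le_mul_of_nonneg_left _ (Real.sqrt_nonneg _)
          have := inv_pos.2 hl
          show √(e4 N) ≤ √(e4 N) + (lam N)⁻¹
          linarith
        linarith
      have c3 : |τ| / lam N * (5 * (r N / lam N / 2 * (sa N + eV N) + 1 / (2 * (r N / lam N)) * e4 N)) =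
          5 * |τ| * (1 / 2 * r N * (sa N / lam N ^ 2) +
          1 / 2 * r N * (eV N * ((lam N)⁻¹) ^ 2) + 1 / 2 * (e4 N / r N)) := by
        field_simp
      rw [c3]
      apply mul_le_mul_of_nonneg_left _ (by positivity)
      linarith
    show |τ| / lam N * (2 * e0 N + 1 / 2 * √(e4 N) + 1 / 2 * eV N + 1 / 2 * |sa N - lam N ^ 2| +
      5 * (r N / lam N / 2 * (sa N + eV N) + 1 / (2 * (r N / lam N)) * e4 N)) + 2 * (2 * e0 N + 16 * e4 N) ≤ _
    rw [mul_add]
    have c4 : |τ| / lam N * (2 * e0 N + 1 / 2 * √(e4 N) + 1 / 2 * eV N + 1 / 2 * |sa N - lam N ^ 2|) =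
      |τ| * (lam N)⁻¹ * (2 * e0 N + 1 / 2 * √(e4 N) + 1 / 2 * eV N + 1 / 2 * |sa N - lam N ^ 2|) := by
      rw [div_eq_mul_inv]
    rw [c4]
    norm_num at c1 ⊢
    linarith
  have := hdiff.add hclt
  simpa using this

end Pool.Agent.Helper97.QC
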