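import Pool.Agent.Helper97.QC.P3b

/-! The interaction factors. -/

set_option autoImplicit false
set_option linter.unusedSectionVars false

open MeasureTheory ProbabilityTheory Filter Finset Topology

namespace Pool.Agent.Helper97.QC

open Pool.Agent.Helper97.CP

theorem subsets_cases : ∀ T : Finset (Fin 4), T = ∅ ∨ (∃ a, T = {a}) ∨ (∃ J ∈ prs, T = {J.1, J.2}) ∨ 3 ≤ T.card := by
  decide

theorem pair_inj : ∀ J ∈ prs, ∀ I ∈ prs, ({J.1, J.2} : Finset (Fin 4)) = {I.1, I.2} → I = J := by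
  decide

theorem pair_card : ∀ J ∈ prs, ({J.1, J.2} : Finset (Fin 4)).card = 2 := by
  decide

theorem exists_pair : ∀ a b : Fin 4, a ≠ b → ∃ J ∈ prs, (J = (a, b) ∨ J = (b, a)) := by
  decide

/-- no isolated element in a set of at least three replicas: two simultaneous meetings -/
theorem st_of_no_isolated {T : Finset (Fin 4)} (hT : 3 ≤ T.card) {y : X4}
    (h : ∀ a ∈ T, ∃ b ∈ T, b ≠ a ∧ y b = y a) : st y = 1 := by
  have hne : T.Nonempty := Finset.card_pos.1 (by omega)
  obtain ⟨a, ha⟩ := hne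
  obtain ⟨b, hb, hba, hyb⟩ := h a ha
  have hc : ∃ c ∈ T, c ∉ ({a, b} : Finset (Fin 4)) := by
    by_contra hcon
    push Not at hcon
    have := Finset.card_le_card (show T ⊆ {a, b} from fun c hc => hcon c hc)
    have h2 : ({a, b} : Finset (Fin 4)).card ≤ 2 := Finset.card_le_two
    omega
  obtain ⟨c, hcT, hcn⟩ := hc
  obtain ⟨d, hd, hdc, hyd⟩ := h c hcT
  obtain ⟨J, hJ, hJe⟩ := exists_pair a b hba.symm
  obtain ⟨I, hI, hIe⟩ := exists_pair c d hdc.symm
  have hca : c ≠ a := fun h => hcn (by rw [h]; simp)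
  have hcb : c ≠ b := fun h => hcn (by rw [h]; simp)
  unfold st
  rw [if_pos]
  refine ⟨J, hJ, I, hI, ?_, ?_, ?_⟩
  · rintro rfl
    rcases hJe with h1 | h1 <;> rcases hIe with h2 | h2 <;> rw [h1] at h2 <;>
      simp only [Prod.mk.injEq] at h2
    · exact hca h2.1.symm
    · exact hcb h2.2.symm
    · exact hcb h2.1.symm
    · exact hca h2.2.symm
  · rcases hJe with h1 | h1 <;> rw [h1]
    · exact hyb.symm
    · exact hyb
  · rcases hIe with h1 | h1 <;> rw [h1]
    · exact hyd.symm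
    · exact hyd

theorem three_ineq {a b c : ℝ} (ha : 0 ≤ a) (hb : 0 ≤ b) (hc : 0 ≤ c) :
    a * b * c ≤ (a ^ 3 + b ^ 3 + c ^ 3) / 3 := by
  nlinarith [mul_nonneg (add_nonneg (add_nonneg ha hb) hc)
    (add_nonneg (add_nonneg (sq_nonneg (a - b)) (sq_nonneg (b - c))) (sq_nonneg (c - a)))]

theorem quad_ineq' (a b c d : ℝ) : |a * b * c * d| ≤ (|a| ^ 4 + |b| ^ 4 + |c| ^ 4 + |d| ^ 4) / 4 := by
  have h1 : |a * b * c * d| = |a * b| * |c * d| := by
    rw [← abs_mul]; ring_nf
  have h2 : |a * b| * |c * d| ≤ ((a * b) ^ 2 + (c * d) ^ 2) / 2 := by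
    have := sq_nonneg (|a * b| - |c * d|)
    rw [← sq_abs (a * b), ← sq_abs (c * d)]
    linarith
  have h3 : (a * b) ^ 2 ≤ (a ^ 4 + b ^ 4) / 2 := by
    have := sq_nonneg (a ^ 2 - b ^ 2); nlinarith
  have h4 : (c * d) ^ 2 ≤ (c ^ 4 + d ^ 4) / 2 := by
    have := sq_nonneg (c ^ 2 - d ^ 2); nlinarith
  have e : ∀ r : ℝ, |r| ^ 4 = r ^ 4 := fun r => by
    rw [show |r| ^ 4 = (|r| ^ 2) ^ 2 by ring, sq_abs]; ring
  rw [h1, e, e, e, e]
  linarith

section
variable {Ω : Type*} [mΩ : MeasurableSpace Ω] {P : Measure Ω} [IsProbabilityMeasure P]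
  {Y : ℕ → Z2 → Ω → ℝ} {s C : ℝ}

/-- centred environment -/
noncomputable def xi (Y : ℕ → Z2 → Ω → ℝ) (x : Z2) (w : Ω) : ℝ := Y 0 x w - 1

theorem xi_meas (h : PEnv P Y s C) (x : Z2) : Measurable (xi Y x) := (h.meas 0 x).sub_const _

theorem xi_l4 (h : PEnv P Y s C) (x : Z2) : Integrable (fun w => xi Y x w ^ 4) P := by
  have hb : Integrable (fun w => 8 * Y 0 x w ^ 4 + 8) P := ((Y_l4 h 0 x).const_mul 8).add (integrable_const _)
  refine hb.mono' ((xi_meas h x).pow_const 4).aestronglyMeasurable ?_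
  filter_upwards with w
  rw [Real.norm_eq_abs, abs_of_nonneg (by positivity)]
  unfold xi
  set r := Y 0 x w
  have h1 : (r - 1) ^ 2 ≤ 2 * (r ^ 2 + 1) := by nlinarith [sq_nonneg (r + 1)]
  have h2 : ((r - 1) ^ 2) ^ 2 ≤ (2 * (r ^ 2 + 1)) ^ 2 := pow_le_pow_left₀ (sq_nonneg _) h1 2
  nlinarith [sq_nonneg (r ^ 2 - 1), h2]

theorem xi_prod_int (h : PEnv P Y s C) (T : Finset (Fin 4)) (y : X4) :
    Integrable (fun w => ∏ a ∈ T, xi Y (y a) w) P :=
  int_prod4 (f := fun a => xi Y (y a)) (fun a => xi_meas h _) (fun a => xi_l4 h _) T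

theorem xi_int (h : PEnv P Y s C) (x : Z2) : Integrable (xi Y x) P ∧ ∫ w, xi Y x w ∂P = 0 := by
  have := Y_int h 0 x
  refine ⟨this.1.sub (integrable_const _), ?_⟩
  unfold xi
  rw [integral_sub this.1 (integrable_const _), this.2]
  simp

theorem xi_mul (h : PEnv P Y s C) (x y : Z2) : ∫ w, xi Y x w * xi Y y w ∂P = s * i0 (x - y) := by
  have hx := Y_int h 0 x
  have hy := Y_int h 0 y
  have hxy := Y_mul h 0 x y
  have e : (fun w => xi Y x w * xi Y y w) = fun w => (Y 0 x w * Y 0 y w - Y 0 x w) - (Y 0 y w - 1) := by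
    funext w
    unfold xi
    ring
  have i1 : Integrable (fun w => Y 0 x w * Y 0 y w - Y 0 x w) P := hxy.1.sub hx.1
  have i2 : Integrable (fun w => Y 0 y w - 1) P := hy.1.sub (integrable_const _)
  rw [e, integral_sub i1 i2, integral_sub hxy.1 hx.1, integral_sub hy.1 (integrable_const _), hxy.2, hx.2, hy.2]
  simp

theorem xi_abs3 (h : PEnv P Y s C) (x : Z2) : Integrable (fun w => |xi Y x w| ^ 3) P ∧
    ∫ w, |xi Y x w| ^ 3 ∂P ≤ C * s := by
  have hi := (h.ident 0 x).comp (u := fun r : ℝ => |r - 1| ^ 3) (by fun_prop)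
  constructor
  · have hb : Integrable (fun w => xi Y x w ^ 4 + 1) P := (xi_l4 h x).add (integrable_const _)
    refine hb.mono' ((xi_meas h x).abs.pow_const 3).aestronglyMeasurable ?_
    filter_upwards with w
    rw [Real.norm_eq_abs, abs_of_nonneg (by positivity)]
    have e : xi Y x w ^ 4 = |xi Y x w| ^ 4 := by
      rw [show |xi Y x w| ^ 4 = (|xi Y x w| ^ 2) ^ 2 by ring, sq_abs]; ring
    rw [e]
    set r := |xi Y x w|
    have hr : 0 ≤ r := abs_nonneg _
    rcases le_total r 1 with h1 | h1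
    · have : r ^ 3 ≤ 1 := pow_le_one₀ hr h1
      have : 0 ≤ r ^ 4 := by positivity
      linarith
    · have : r ^ 3 * 1 ≤ r ^ 3 * r := mul_le_mul_of_nonneg_left h1 (by positivity)
      nlinarith
  · have e : ∫ w, |xi Y x w| ^ 3 ∂P = ∫ w, |Y 0 0 w - 1| ^ 3 ∂P := hi.integral_eq
    rw [e]
    exact h.m3

theorem xi_abs4 (h : PEnv P Y s C) (x : Z2) : Integrable (fun w => |xi Y x w| ^ 4) P ∧
    ∫ w, |xi Y x w| ^ 4 ∂P ≤ C * s := by
  have hi := (h.ident 0 x).comp (u := fun r : ℝ => |r - 1| ^ 4) (by fun_prop)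
  constructor
  · refine (xi_l4 h x).congr ?_
    filter_upwards with w
    rw [show |xi Y x w| ^ 4 = (|xi Y x w| ^ 2) ^ 2 by ring, sq_abs]; ring
  · have e : ∫ w, |xi Y x w| ^ 4 ∂P = ∫ w, |Y 0 0 w - 1| ^ 4 ∂P := hi.integral_eq
    rw [e]
    exact h.m4

/-- an isolated element makes the moment vanish -/
theorem eT_isolated (h : PEnv P Y s C) {T : Finset (Fin 4)} {y : X4} {a : Fin 4} (ha : a ∈ T)
    (hiso : ∀ b ∈ T, b ≠ a → y b ≠ y a) : ∫ w, ∏ b ∈ T, xi Y (y b) w ∂P = 0 := by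
  have e : (fun w => ∏ b ∈ T, xi Y (y b) w) = fun w => xi Y (y a) w * ∏ b ∈ T.erase a, xi Y (y b) w := by
    funext w
    exact (Finset.mul_prod_erase T (fun b => xi Y (y b) w) ha).symm
  have hind := indep_sig h (S := {p : ℕ × Z2 | p = (0, y a)}) (T := {p : ℕ × Z2 | p ≠ (0, y a)})
    (by
      rw [Set.disjoint_left]
      intro p hp hp'
      exact hp' hp)
  have m1 : Measurable[sig Y {p : ℕ × Z2 | p = (0, y a)}] (xi Y (y a)) := by
    have : Measurable[sig Y {p : ℕ × Z2 | p = (0, y a)}] (Y 0 (y a)) :=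
      meas_site (S := {p : ℕ × Z2 | p = (0, y a)}) rfl
    exact this.sub_const 1
  have m2 : Measurable[sig Y {p : ℕ × Z2 | p ≠ (0, y a)}] (fun w => ∏ b ∈ T.erase a, xi Y (y b) w) := by
    have key : ∀ {m : MeasurableSpace Ω} (f : Fin 4 → Ω → ℝ), (∀ b ∈ T.erase a, Measurable[m] (f b)) →
      Measurable[m] (fun w => ∏ b ∈ T.erase a, f b w) := fun f hf => Finset.measurable_prod _ fun b hb => hf b hb
    apply key (fun b => xi Y (y b))
    intro b hb
    have hb' := Finset.mem_erase.1 hb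
    have : Measurable[sig Y {p : ℕ × Z2 | p ≠ (0, y a)}] (Y 0 (y b)) :=
      meas_site (S := {p : ℕ × Z2 | p ≠ (0, y a)}) (fun hc => hiso b hb'.2 hb'.1 (Prod.ext_iff.1 hc).2)
    exact this.sub_const 1
  have hi : IndepFun (xi Y (y a)) (fun w => ∏ b ∈ T.erase a, xi Y (y b) w) P := by
    rw [IndepFun_iff_Indep]
    exact indep_of_indep_of_le_left (indep_of_indep_of_le_right hind m2.comap_le) m1.comap_le
  rw [e, hi.integral_fun_mul_eq_mul_integral (xi_int h _).1.aestronglyMeasurable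
    (xi_prod_int h _ _).aestronglyMeasurable, (xi_int h _).2, zero_mul]

theorem eT_bound (h : PEnv P Y s C) {T : Finset (Fin 4)} (hT : 3 ≤ T.card) (y : X4) :
    |∫ w, ∏ b ∈ T, xi Y (y b) w ∂P| ≤ C * s := by
  have hle : T.card ≤ 4 := by
    have := Finset.card_le_univ T
    simpa using this
  refine (abs_integral_le_integral_abs).trans ?_
  rcases (by omega : T.card = 3 ∨ T.card = 4) with h3 | h4
  · obtain ⟨a, b, c, hab, hac, hbc, rfl⟩ := Finset.card_eq_three.1 h3
    have e : ∀ w, ∏ b_1 ∈ ({a, b, c} : Finset (Fin 4)), xi Y (y b_1) w =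
        xi Y (y a) w * xi Y (y b) w * xi Y (y c) w := by
      intro w
      rw [Finset.prod_insert (by simp [hab, hac]), Finset.prod_insert (by simp [hbc]), Finset.prod_singleton]
      ring
    have h1 := xi_abs3 h (y a)
    have h2 := xi_abs3 h (y b)
    have h3 := xi_abs3 h (y c)
    have i12 : Integrable (fun w => |xi Y (y a) w| ^ 3 + |xi Y (y b) w| ^ 3) P := h1.1.add h2.1
    have i123 : Integrable (fun w => |xi Y (y a) w| ^ 3 + |xi Y (y b) w| ^ 3 + |xi Y (y c) w| ^ 3) P :=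
      i12.add h3.1
    calc ∫ w, |∏ b_1 ∈ ({a, b, c} : Finset (Fin 4)), xi Y (y b_1) w| ∂P
        ≤ ∫ w, (|xi Y (y a) w| ^ 3 + |xi Y (y b) w| ^ 3 + |xi Y (y c) w| ^ 3) / 3 ∂P := by
          apply integral_mono (xi_prod_int h _ _).abs (i123.div_const 3)
          intro w
          dsimp only
          rw [e, abs_mul, abs_mul]
          exact three_ineq (abs_nonneg _) (abs_nonneg _) (abs_nonneg _)
      _ = (∫ w, |xi Y (y a) w| ^ 3 ∂P + ∫ w, |xi Y (y b) w| ^ 3 ∂P + ∫ w, |xi Y (y c) w| ^ 3 ∂P) / 3 := by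
          rw [integral_div, integral_add i12 h3.1, integral_add h1.1 h2.1]
      _ ≤ C * s := by linarith [h1.2, h2.2, h3.2]
  · have hu : T = univ := Finset.eq_univ_of_card T (by simpa using h4)
    subst hu
    have e : ∀ w, ∏ b : Fin 4, xi Y (y b) w =
        xi Y (y 0) w * xi Y (y 1) w * xi Y (y 2) w * xi Y (y 3) w := fun w => by
      rw [Fin.prod_univ_four]
    have h0 := xi_abs4 h (y 0)
    have h1 := xi_abs4 h (y 1)
    have h2 := xi_abs4 h (y 2)
    have h3 := xi_abs4 h (y 3)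
    have i1 : Integrable (fun w => |xi Y (y 0) w| ^ 4 + |xi Y (y 1) w| ^ 4) P := h0.1.add h1.1
    have i2 : Integrable (fun w => |xi Y (y 0) w| ^ 4 + |xi Y (y 1) w| ^ 4 + |xi Y (y 2) w| ^ 4) P := i1.add h2.1
    have i3 : Integrable (fun w => |xi Y (y 0) w| ^ 4 + |xi Y (y 1) w| ^ 4 + |xi Y (y 2) w| ^ 4 +
      |xi Y (y 3) w| ^ 4) P := i2.add h3.1
    calc ∫ w, |∏ b : Fin 4, xi Y (y b) w| ∂P
        ≤ ∫ w, (|xi Y (y 0) w| ^ 4 + |xi Y (y 1) w| ^ 4 + |xi Y (y 2) w| ^ 4 + |xi Y (y 3) w| ^ 4) / 4 ∂P := by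
          apply integral_mono (xi_prod_int h _ _).abs (i3.div_const 4)
          intro w
          dsimp only
          rw [e]
          exact quad_ineq' _ _ _ _
      _ = (∫ w, |xi Y (y 0) w| ^ 4 ∂P + ∫ w, |xi Y (y 1) w| ^ 4 ∂P + ∫ w, |xi Y (y 2) w| ^ 4 ∂P +
            ∫ w, |xi Y (y 3) w| ^ 4 ∂P) / 4 := by
          rw [integral_div, integral_add i2 h3.1, integral_add i1 h2.1, integral_add h0.1 h1.1]
      _ ≤ C * s := by linarith [h0.2, h1.2, h2.2, h3.2]

/-- main part of the moment of the subset `T` -/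
noncomputable def E0 (s : ℝ) (y : X4) (T : Finset (Fin 4)) : ℝ :=
  (if T = ∅ then 1 else 0) + ∑ J ∈ prs, if T = {J.1, J.2} then s * oJ J y else 0

theorem eT_near (h : PEnv P Y s C) (T : Finset (Fin 4)) (y : X4) :
    |∫ w, ∏ b ∈ T, xi Y (y b) w ∂P - E0 s y T| ≤ (C + 1) * s * st y := by
  have hnn : 0 ≤ (C + 1) * s * st y := by
    have := h.C0
    have := h.s0
    have := st_nonneg y
    positivity
  rcases subsets_cases T with hT | ⟨a, hT⟩ | ⟨J, hJ, hT⟩ | hT
  · subst hT
    have e0 : E0 s y ∅ = 1 := by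
      unfold E0
      rw [if_pos rfl, Finset.sum_eq_zero, add_zero]
      intro J hJ
      rw [if_neg]
      intro hc
      have := pair_card J hJ
      rw [← hc] at this
      simp at this
    rw [e0]
    simp only [Finset.prod_empty, integral_const, probReal_univ, one_smul, sub_self, abs_zero]
    exact hnn
  · subst hT
    have e0 : E0 s y {a} = 0 := by
      unfold E0
      rw [if_neg (by simp), Finset.sum_eq_zero, add_zero]
      intro J hJ
      rw [if_neg]
      intro hc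
      have := pair_card J hJ
      rw [← hc] at this
      simp at this
    rw [e0]
    simp only [Finset.prod_singleton]
    rw [(xi_int h _).2, sub_zero, abs_zero]
    exact hnn
  · subst hT
    have e0 : E0 s y {J.1, J.2} = s * oJ J y := by
      unfold E0
      rw [if_neg (by simp), zero_add, Finset.sum_eq_single J]
      · rw [if_pos rfl]
      · intro I hI hne
        rw [if_neg]
        intro hc
        exact hne (pair_inj J hJ I hI hc)
      · intro hc
        exact absurd hJ hc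
    have e1 : ∫ w, ∏ b ∈ ({J.1, J.2} : Finset (Fin 4)), xi Y (y b) w ∂P = s * oJ J y := by
      simp only [Finset.prod_pair (prs_ne hJ)]
      exact xi_mul h _ _
    rw [e0, e1, sub_self, abs_zero]
    exact hnn
  · have e0 : E0 s y T = 0 := by
      unfold E0
      rw [if_neg (by rintro rfl; simp at hT), Finset.sum_eq_zero, add_zero]
      intro J hJ
      rw [if_neg]
      intro hc
      have := pair_card J hJ
      rw [← hc] at this
      omega
    rw [e0, sub_zero]
    by_cases hiso : ∃ a ∈ T, ∀ b ∈ T, b ≠ a → y b ≠ y a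
    · obtain ⟨a, ha, hh⟩ := hiso
      rw [eT_isolated h ha hh, abs_zero]
      exact hnn
    · push Not at hiso
      have hst := st_of_no_isolated hT (y := y) (fun a ha => by
        obtain ⟨b, hb, h1, h2⟩ := hiso a ha
        exact ⟨b, hb, h1, h2⟩)
      rw [hst, mul_one]
      refine (eT_bound h hT y).trans ?_
      have := h.s0
      nlinarith

theorem sum_E0 (s : ℝ) (y : X4) (S : Finset (Fin 4)) :
    ∑ T ∈ S.powerset, E0 s y T = 1 + ∑ J ∈ prs.filter (fun J => J.1 ∈ S ∧ J.2 ∈ S), s * oJ J y := by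
  unfold E0
  rw [Finset.sum_add_distrib, Finset.sum_comm]
  congr 1
  · rw [Finset.sum_ite_eq' S.powerset ∅ (fun _ => (1 : ℝ)), if_pos (Finset.empty_mem_powerset S)]
  · rw [Finset.sum_filter]
    apply Finset.sum_congr rfl
    intro J _
    rw [Finset.sum_ite_eq' S.powerset ({J.1, J.2} : Finset (Fin 4)) (fun _ => s * oJ J y)]
    congr 1
    rw [Finset.mem_powerset, Finset.insert_subset_iff, Finset.singleton_subset_iff]

theorem cS_fac (h : PEnv P Y s C) (_hs : s ≤ 1) (S : Finset (Fin 4)) :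
    Fac s (16 * (C + 1)) S (cS P Y S) := by
  have hC := h.C0
  have hs0 := h.s0
  refine ⟨fun y => ?_, fun y => ?_, by positivity⟩
  · unfold cS
    exact integral_nonneg fun w => Finset.prod_nonneg fun a _ => (h.pos _ _ _).le
  · have e1 : cS P Y S y = ∑ T ∈ S.powerset, ∫ w, ∏ b ∈ T, xi Y (y b) w ∂P := by
      unfold cS
      rw [← integral_finsetSum _ fun T _ => xi_prod_int h T y]
      congr 1
      funext w
      have h1 : ∀ a, Y 0 (y a) w = 1 + xi Y (y a) w := fun a => by unfold xi; ring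
      simp only [h1]
      exact Finset.prod_one_add S
    have e2 : cS P Y S y - 1 - ∑ J ∈ prs.filter (fun J => J.1 ∈ S ∧ J.2 ∈ S), s * oJ J y =
        ∑ T ∈ S.powerset, (∫ w, ∏ b ∈ T, xi Y (y b) w ∂P - E0 s y T) := by
      rw [Finset.sum_sub_distrib, sum_E0, e1]
      ring
    rw [e2]
    refine (Finset.abs_sum_le_sum_abs _ _).trans ?_
    refine (Finset.sum_le_sum fun T _ => eT_near h T y).trans ?_
    rw [Finset.sum_const, nsmul_eq_mul, Finset.card_powerset]
    have hcard : S.card ≤ 4 := by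
      have := Finset.card_le_univ S
      simpa using this
    have h2 : ((2 ^ S.card : ℕ) : ℝ) ≤ 16 := by
      have : 2 ^ S.card ≤ 2 ^ 4 := Nat.pow_le_pow_right (by norm_num) hcard
      have h3 : 2 ^ S.card ≤ 16 := by simpa using this
      exact_mod_cast h3
    have hnn : 0 ≤ (C + 1) * s * st y := by
      have := st_nonneg y
      positivity
    calc _ ≤ 16 * ((C + 1) * s * st y) := mul_le_mul_of_nonneg_right h2 hnn
      _ = _ := by ring

end

end Pool.Agent.Helper97.QC
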