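import Pool.Agent.Helper97.QC.P3a

/-! Expectations of quenched quantities, continued. -/

set_option autoImplicit false
set_option linter.unusedSectionVars false

open MeasureTheory ProbabilityTheory Filter Finset Topology

namespace Pool.Agent.Helper97.QC

open Pool.Agent.Helper97.CP

/-- one step average -/
noncomputable def A1 (f : Z2 → ℝ) (x : Z2) : ℝ := (1 / 4) * ∑ e : E4, f (x + stp e)

theorem Ac_prod (c : Fin 4) (f : Fin 4 → Z2 → ℝ) :
    Ac c (fun y : X4 => ∏ a, f a (y a)) = fun x : X4 => ∏ a, (Function.update f c (A1 (f c))) a (x a) := by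
  funext x
  unfold Ac
  have e1 : ∀ e : E4, ∏ a, f a (Function.update x c (x c + stp e) a) =
      f c (x c + stp e) * ∏ a ∈ univ.erase c, f a (x a) := by
    intro e
    rw [← Finset.mul_prod_erase univ _ (Finset.mem_univ c), Function.update_self]
    congr 1
    apply Finset.prod_congr rfl
    intro a ha
    rw [Function.update_of_ne (Finset.ne_of_mem_erase ha)]
  have e2 : ∏ a, (Function.update f c (A1 (f c))) a (x a) = A1 (f c) (x c) * ∏ a ∈ univ.erase c, f a (x a) := by
    rw [← Finset.mul_prod_erase univ _ (Finset.mem_univ c), Function.update_self]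
    congr 1
    apply Finset.prod_congr rfl
    intro a ha
    rw [Function.update_of_ne (Finset.ne_of_mem_erase ha)]
  rw [e2]
  simp only [e1]
  rw [← Finset.sum_mul]
  unfold A1
  ring

theorem PP_prod (f : Fin 4 → Z2 → ℝ) :
    PP (fun y : X4 => ∏ a, f a (y a)) = fun x : X4 => ∏ a, A1 (f a) (x a) := by
  unfold PP
  rw [Ac_prod, Ac_prod, Ac_prod, Ac_prod]
  funext x
  rw [Fin.prod_univ_four, Fin.prod_univ_four]
  simp [Function.update]

theorem A1_one (x : Z2) : A1 (fun _ => 1) x = 1 := by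
  unfold A1
  simp only [Finset.sum_const, Finset.card_univ, Fintype.card_fin,
    Fintype.card_prod, Fintype.card_bool, nsmul_eq_mul]
  push_cast
  ring

theorem PP_prodS (S : Finset (Fin 4)) (φ : Z2 → ℝ) (x : X4) :
    PP (fun y : X4 => ∏ a ∈ S, φ (y a)) x = ∏ a ∈ S, A1 φ (x a) := by
  have e1 : (fun y : X4 => ∏ a ∈ S, φ (y a)) = fun y : X4 => ∏ a, (if a ∈ S then φ else fun _ => 1) (y a) := by
    funext y
    have : ∀ a, (if a ∈ S then φ else fun _ => 1) (y a) = if a ∈ S then φ (y a) else 1 := by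
      intro a; split_ifs <;> rfl
    simp only [this]
    rw [Finset.prod_ite_mem, Finset.univ_inter]
  rw [e1, PP_prod]
  have : ∀ a, A1 (if a ∈ S then φ else fun _ => 1) (x a) = if a ∈ S then A1 φ (x a) else 1 := by
    intro a
    split_ifs
    · rfl
    · exact A1_one _
  simp only [this]
  rw [Finset.prod_ite_mem, Finset.univ_inter]

section
variable {Ω : Type*} [mΩ : MeasurableSpace Ω] {P : Measure Ω} [IsProbabilityMeasure P]
  {Y : ℕ → Z2 → Ω → ℝ} {s C : ℝ}

theorem cS_time (h : PEnv P Y s C) (n : ℕ) (S : Finset (Fin 4)) (y : X4) :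
    ∫ w, ∏ a ∈ S, Y n (y a) w ∂P = cS P Y S y := by
  have hi : ∀ k : ℕ, iIndepFun (fun x : Z2 => Y k x) P := fun k =>
    h.indep.precomp (g := fun x : Z2 => ((k, x) : ℕ × Z2)) (fun a b hab => (Prod.ext_iff.1 hab).2)
  have h1 : IdentDistrib (fun w => fun x : Z2 => Y n x w) (fun w => fun x : Z2 => Y 0 x w) P P :=
    IdentDistrib.pi (fun x => (h.ident n x).trans (h.ident 0 x).symm) (hi n) (hi 0)
  have h2 := h1.comp (u := fun v : Z2 → ℝ => ∏ a ∈ S, v (y a))
    (Finset.measurable_prod _ fun a _ => measurable_pi_apply _)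
  exact h2.integral_eq

theorem int_Ac (c : Fin 4) {F : Ω → X4 → ℝ} (hF : ∀ y, Integrable (fun w => F w y) P) (x : X4) :
    Integrable (fun w => Ac c (F w) x) P ∧ ∫ w, Ac c (F w) x ∂P = Ac c (fun y => ∫ w, F w y ∂P) x := by
  unfold Ac
  constructor
  · exact (integrable_finsetSum _ fun e _ => hF _).const_mul _
  · rw [integral_const_mul, integral_finsetSum _ fun e _ => hF _]

theorem int_PP {F : Ω → X4 → ℝ} (hF : ∀ y, Integrable (fun w => F w y) P) (x : X4) :
    Integrable (fun w => PP (F w) x) P ∧ ∫ w, PP (F w) x ∂P = PP (fun y => ∫ w, F w y ∂P) x := by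
  unfold PP
  have h3 := fun x => int_Ac 3 hF x
  have h2 := fun x => int_Ac 2 (F := fun w => Ac 3 (F w)) (fun y => (h3 y).1) x
  have h1 := fun x => int_Ac 1 (F := fun w => Ac 2 (Ac 3 (F w))) (fun y => (h2 y).1) x
  have h0 := fun x => int_Ac 0 (F := fun w => Ac 1 (Ac 2 (Ac 3 (F w)))) (fun y => (h1 y).1) x
  refine ⟨(h0 x).1, ?_⟩
  rw [(h0 x).2]
  congr 1
  funext y
  rw [(h1 y).2]
  congr 1
  funext y
  rw [(h2 y).2]
  congr 1
  funext y
  rw [(h3 y).2]

theorem Wt_prod_step (S : Finset (Fin 4)) (v : ℕ → Z2 → ℝ) (n t : ℕ) (x : X4) :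
    ∏ a ∈ S, Wt v n (t + 1) (x a) =
      PP (fun y => (∏ a ∈ S, v (n + 1) (y a)) * ∏ a ∈ S, Wt v (n + 1) t (y a)) x := by
  have e : (fun y : X4 => (∏ a ∈ S, v (n + 1) (y a)) * ∏ a ∈ S, Wt v (n + 1) t (y a)) =
      fun y : X4 => ∏ a ∈ S, (fun z => v (n + 1) z * Wt v (n + 1) t z) (y a) := by
    funext y
    rw [← Finset.prod_mul_distrib]
  rw [e]
  exact (PP_prodS S (fun z => v (n + 1) z * Wt v (n + 1) t z) x).symm

theorem prod_meas_slice (n : ℕ) (S : Finset (Fin 4)) (y : X4) :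
    Measurable[slice Y (n + 1)] (fun w => ∏ a ∈ S, Y (n + 1) (y a) w) := by
  have key : ∀ {m : MeasurableSpace Ω} (f : Fin 4 → Ω → ℝ), (∀ a, Measurable[m] (f a)) →
      Measurable[m] (fun w => ∏ a ∈ S, f a w) := fun f hf => Finset.measurable_prod _ fun a _ => hf a
  exact key (fun a => Y (n + 1) (y a)) fun a => meas_slice (n + 1) _

theorem prod_meas_futr (n t : ℕ) (S : Finset (Fin 4)) (y : X4) :
    Measurable[futr Y n] (fun w => ∏ a ∈ S, Wt (ev Y w) n t (y a)) := by
  have key : ∀ {m : MeasurableSpace Ω} (f : Fin 4 → Ω → ℝ), (∀ a, Measurable[m] (f a)) →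
      Measurable[m] (fun w => ∏ a ∈ S, f a w) := fun f hf => Finset.measurable_prod _ fun a _ => hf a
  exact key (fun a w => Wt (ev Y w) n t (y a)) fun a => meas_Wt n t _

theorem int_prod (h : PEnv P Y s C) (S : Finset (Fin 4)) (n t : ℕ) (x : X4) :
    Integrable (fun w => ∏ a ∈ S, Wt (ev Y w) n t (x a)) P ∧
      ∫ w, ∏ a ∈ S, Wt (ev Y w) n t (x a) ∂P = FF (cS P Y S) t x := by
  induction t generalizing n x with
  | zero =>
    have e : (fun w => ∏ a ∈ S, Wt (ev Y w) n 0 (x a)) = fun _ => 1 := by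
      funext w
      exact Finset.prod_eq_one fun a _ => rfl
    rw [e]
    exact ⟨integrable_const _, by simp [FF]⟩
  | succ t ih =>
    have h1 : ∀ y : X4, Integrable (fun w => (∏ a ∈ S, Y (n + 1) (y a) w) * ∏ a ∈ S, Wt (ev Y w) (n + 1) t (y a)) P ∧
        ∫ w, (∏ a ∈ S, Y (n + 1) (y a) w) * ∏ a ∈ S, Wt (ev Y w) (n + 1) t (y a) ∂P =
          cS P Y S y * FF (cS P Y S) t y := by
      intro y
      have hYi : Integrable (fun w => ∏ a ∈ S, Y (n + 1) (y a) w) P :=
        int_prod4 (f := fun a => Y (n + 1) (y a)) (fun a => h.meas _ _) (fun a => Y_l4 h _ _) S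
      have h2 := int_mul_slice h n (prod_meas_slice n S y) (prod_meas_futr (n + 1) t S y) hYi (ih (n + 1) y).1
      refine ⟨h2.1, ?_⟩
      rw [h2.2, (ih (n + 1) y).2, cS_time h]
    have h2 := int_PP (P := P) (F := fun w y => (∏ a ∈ S, Y (n + 1) (y a) w) * ∏ a ∈ S, Wt (ev Y w) (n + 1) t (y a))
      (fun y => (h1 y).1) x
    have e : (fun w => ∏ a ∈ S, Wt (ev Y w) n (t + 1) (x a)) = fun w => PP (fun y =>
        (∏ a ∈ S, Y (n + 1) (y a) w) * ∏ a ∈ S, Wt (ev Y w) (n + 1) t (y a)) x := by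
      funext w
      exact Wt_prod_step S (ev Y w) n t x
    rw [e]
    refine ⟨h2.1, ?_⟩
    rw [h2.2]
    simp only [fun y => (h1 y).2]
    rfl

theorem Y_int (h : PEnv P Y s C) (n : ℕ) (x : Z2) : Integrable (Y n x) P ∧ ∫ w, Y n x w ∂P = 1 := by
  have h0 : Integrable (fun w => ∏ a ∈ ({0} : Finset (Fin 4)), Y n x w) P :=
    int_prod4 (f := fun _ => Y n x) (fun a => h.meas _ _) (fun a => Y_l4 h _ _) {0}
  simp only [Finset.prod_singleton] at h0
  exact ⟨h0, by rw [(h.ident n x).integral_eq, h.m1]⟩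

theorem Y_mul (h : PEnv P Y s C) (n : ℕ) (x y : Z2) :
    Integrable (fun w => Y n x w * Y n y w) P ∧ ∫ w, Y n x w * Y n y w ∂P = 1 + s * i0 (x - y) := by
  constructor
  · have h0 := int_prod4 (P := P) (f := fun a : Fin 4 => if a = 0 then Y n x else Y n y)
      (fun a => by
        split_ifs
        · exact h.meas _ _
        · exact h.meas _ _)
      (fun a => by
        split_ifs
        · exact Y_l4 h _ _
        · exact Y_l4 h _ _) {0, 1}
    simpa using h0
  · by_cases hxy : x = y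
    · subst hxy
      have e : (fun w => Y n x w * Y n x w) = fun w => (fun r : ℝ => r ^ 2) (Y n x w) := by
        funext w
        simp only
        ring
      have e2 : ∫ w, (fun r : ℝ => r ^ 2) (Y n x w) ∂P = ∫ w, Y 0 0 w ^ 2 ∂P :=
        ((h.ident n x).comp (u := fun r : ℝ => r ^ 2) (by fun_prop)).integral_eq
      rw [e, e2, h.m2]
      unfold i0
      simp
    · have hne : ((n, x) : ℕ × Z2) ≠ (n, y) := fun hc => hxy (Prod.ext_iff.1 hc).2
      have hi := h.indep.indepFun hne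
      have := hi.integral_fun_mul_eq_mul_integral (Y_int h n x).1.aestronglyMeasurable
        (Y_int h n y).1.aestronglyMeasurable
      simp only at this
      rw [this, (Y_int h n x).2, (Y_int h n y).2]
      unfold i0
      rw [if_neg (sub_ne_zero.2 hxy)]
      ring

theorem int_L2 (h : PEnv P Y s C) (n t : ℕ) (ψ : Z2 → ℝ) (x y : Z2) :
    Integrable (fun w => L2 (ev Y w) n t ψ x y) P ∧
      ∫ w, L2 (ev Y w) n t ψ x y ∂P = Tn s t ψ (x - y) := by
  induction t generalizing n x y with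
  | zero =>
    show Integrable (fun _ => ψ (x - y)) P ∧ ∫ _w, ψ (x - y) ∂P = ψ (x - y)
    exact ⟨integrable_const _, by simp⟩
  | succ t ih =>
    have key : ∀ {m : MeasurableSpace Ω} {f g : Ω → ℝ}, Measurable[m] f → Measurable[m] g →
      Measurable[m] (fun w => f w * g w) := fun hf hg => hf.mul hg
    have h1 : ∀ x' y' : Z2, Integrable (fun w => (Y (n + 1) x' w * Y (n + 1) y' w) * L2 (ev Y w) (n + 1) t ψ x' y') P ∧
        ∫ w, (Y (n + 1) x' w * Y (n + 1) y' w) * L2 (ev Y w) (n + 1) t ψ x' y' ∂P =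
          (1 + s * i0 (x' - y')) * Tn s t ψ (x' - y') := by
      intro x' y'
      have h2 := int_mul_slice h n (key (meas_slice (n + 1) x') (meas_slice (n + 1) y'))
        (meas_L2 (n + 1) t ψ x' y') (Y_mul h _ _ _).1 (ih (n + 1) x' y').1
      refine ⟨h2.1, ?_⟩
      rw [h2.2, (Y_mul h _ _ _).2, (ih (n + 1) x' y').2]
    have e : (fun w => L2 (ev Y w) n (t + 1) ψ x y) = fun w => (1 / 16) * ∑ e : E4, ∑ e' : E4,
        (Y (n + 1) (x + stp e) w * Y (n + 1) (y + stp e') w) *
          L2 (ev Y w) (n + 1) t ψ (x + stp e) (y + stp e') := rfl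
    rw [e]
    constructor
    · exact (integrable_finsetSum _ fun e _ => integrable_finsetSum _ fun e' _ => (h1 _ _).1).const_mul _
    · rw [integral_const_mul, integral_finsetSum _ fun e _ => integrable_finsetSum _ fun e' _ => (h1 _ _).1]
      show _ = Q (fun z => (1 + s * i0 z) * Tn s t ψ z) (x - y)
      unfold Q
      congr 1
      apply Finset.sum_congr rfl
      intro e _
      rw [integral_finsetSum _ fun e' _ => (h1 _ _).1]
      apply Finset.sum_congr rfl
      intro e' _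
      rw [(h1 _ _).2]
      have : x + stp e - (y + stp e') = x - y + (stp e - stp e') := by abel
      rw [this]

theorem int_W1' (h : PEnv P Y s C) (n t : ℕ) (x : Z2) :
    Integrable (fun w => Wt (ev Y w) n t x) P ∧ ∫ w, Wt (ev Y w) n t x ∂P = 1 := by
  refine ⟨(Wt_l4 h n t x).integrable (by norm_num), ?_⟩
  induction t generalizing n x with
  | zero =>
    show ∫ _w, (1 : ℝ) ∂P = 1
    simp
  | succ t ih =>
    have h1 : ∀ x' : Z2, Integrable (fun w => Y (n + 1) x' w * Wt (ev Y w) (n + 1) t x') P ∧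
        ∫ w, Y (n + 1) x' w * Wt (ev Y w) (n + 1) t x' ∂P = 1 := by
      intro x'
      have h2 := int_mul_slice h n (meas_slice (n + 1) x') (meas_Wt (n + 1) t x') (Y_int h _ _).1
        ((Wt_l4 h (n + 1) t x').integrable (by norm_num))
      refine ⟨h2.1, ?_⟩
      rw [h2.2, (Y_int h _ _).2, ih]
      norm_num
    show ∫ w, (1 / 4) * ∑ e : E4, Y (n + 1) (x + stp e) w * Wt (ev Y w) (n + 1) t (x + stp e) ∂P = 1
    rw [integral_const_mul, integral_finsetSum _ fun e _ => (h1 _).1]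
    simp only [fun x' => (h1 x').2]
    simp

theorem int_W1 (h : PEnv P Y s C) (n t : ℕ) (x : Z2) : ∫ w, Wt (ev Y w) n t x ∂P = 1 := (int_W1' h n t x).2

theorem L2_one (v : ℕ → Z2 → ℝ) (n t : ℕ) (x y : Z2) :
    L2 v n t (fun _ => 1) x y = Wt v n t x * Wt v n t y := by
  induction t generalizing n x y with
  | zero =>
    show (1 : ℝ) = 1 * 1
    norm_num
  | succ t ih =>
    show (1 / 16) * ∑ e : E4, ∑ e' : E4,
      v (n + 1) (x + stp e) * v (n + 1) (y + stp e') * L2 v (n + 1) t (fun _ => 1) (x + stp e) (y + stp e') =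
      ((1 / 4) * ∑ e : E4, v (n + 1) (x + stp e) * Wt v (n + 1) t (x + stp e)) *
      ((1 / 4) * ∑ e : E4, v (n + 1) (y + stp e) * Wt v (n + 1) t (y + stp e))
    simp only [ih]
    rw [show ((1 / 4) * ∑ e : E4, v (n + 1) (x + stp e) * Wt v (n + 1) t (x + stp e)) *
      ((1 / 4) * ∑ e : E4, v (n + 1) (y + stp e) * Wt v (n + 1) t (y + stp e)) =
      (1 / 16) * ((∑ e : E4, v (n + 1) (x + stp e) * Wt v (n + 1) t (x + stp e)) *
      (∑ e : E4, v (n + 1) (y + stp e) * Wt v (n + 1) t (y + stp e))) by ring, Finset.sum_mul_sum]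
    congr 1
    apply Finset.sum_congr rfl
    intro e _
    apply Finset.sum_congr rfl
    intro e' _
    ring

theorem int_W2 (h : PEnv P Y s C) (n t : ℕ) (x y : Z2) :
    Integrable (fun w => (Wt (ev Y w) n t x - 1) * (Wt (ev Y w) n t y - 1)) P ∧
      ∫ w, (Wt (ev Y w) n t x - 1) * (Wt (ev Y w) n t y - 1) ∂P = Kf s t (x - y) := by
  have h2 := int_L2 h n t (fun _ => 1) x y
  have hx := int_W1' h n t x
  have hy := int_W1' h n t y
  have e : (fun w => (Wt (ev Y w) n t x - 1) * (Wt (ev Y w) n t y - 1)) =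
      fun w => L2 (ev Y w) n t (fun _ => 1) x y - Wt (ev Y w) n t x - (Wt (ev Y w) n t y - 1) := by
    funext w
    rw [L2_one]
    ring
  have i1 : Integrable (fun w => L2 (ev Y w) n t (fun _ => 1) x y - Wt (ev Y w) n t x) P := h2.1.sub hx.1
  have i2 : Integrable (fun w => Wt (ev Y w) n t y - 1) P := hy.1.sub (integrable_const _)
  rw [e]
  refine ⟨i1.sub i2, ?_⟩
  rw [integral_sub i1 i2, integral_sub h2.1 hx.1, integral_sub hy.1 (integrable_const _), h2.2, hx.2, hy.2]
  unfold Kf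
  simp

theorem int_W4 (h : PEnv P Y s C) (n t : ℕ) (x : X4) :
    Integrable (fun w => ∏ a, (Wt (ev Y w) n t (x a) - 1)) P ∧
      ∫ w, ∏ a, (Wt (ev Y w) n t (x a) - 1) ∂P =
        ∑ S : Finset (Fin 4), (-1) ^ (4 - S.card) * FF (cS P Y S) t x := by
  have e : (fun w => ∏ a, (Wt (ev Y w) n t (x a) - 1)) = fun w => ∑ S : Finset (Fin 4),
      (-1 : ℝ) ^ (4 - S.card) * ∏ a ∈ S, Wt (ev Y w) n t (x a) := by
    funext w
    have h1 := Finset.prod_add (fun a : Fin 4 => Wt (ev Y w) n t (x a)) (fun _ => (-1 : ℝ)) univ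
    simp only [← sub_eq_add_neg] at h1
    rw [h1, Finset.powerset_univ]
    apply Finset.sum_congr rfl
    intro S _
    rw [Finset.prod_const, Finset.card_sdiff_of_subset (Finset.subset_univ S), Finset.card_univ, Fintype.card_fin]
    ring
  rw [e]
  constructor
  · exact integrable_finsetSum _ fun S _ => (int_prod h S n t x).1.const_mul _
  · rw [integral_finsetSum _ fun S _ => (int_prod h S n t x).1.const_mul _]
    apply Finset.sum_congr rfl
    intro S _
    rw [integral_const_mul, (int_prod h S n t x).2]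

end

end Pool.Agent.Helper97.QC
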