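import Pool.Agent.Helper17.QC.P1
import Pool.Agent.Helper97.QC.P3b

/-! Quasi-critical two-dimensional directed polymers (MP_f3a553_pr): part P4, conditional
expectations (written by helper17). -/

set_option autoImplicit false

open MeasureTheory ProbabilityTheory Filter Finset Topology

namespace Pool.Agent.Helper97.QC

open Pool.Agent.Helper97.CP Pool.Agent.Helper17.QC

section
variable {Ω : Type*} [MeasurableSpace Ω] {P : Measure Ω} [IsProbabilityMeasure P]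
  {Y : ℕ → Z2 → Ω → ℝ} {s C : ℝ}

/-- sums of products of past and future variables -/
theorem key_past {ι : Type*} (h : PEnv P Y s C) (n : ℕ) (T : Finset ι) (c f : ι → Ω → ℝ)
    (hc : ∀ i ∈ T, Measurable[past Y n] (c i)) (hcb : ∀ i ∈ T, ∀ w, |c i w| ≤ 1)
    (hf : ∀ i ∈ T, Measurable[futr Y n] (f i)) (hfi : ∀ i ∈ T, Integrable (f i) P)
    (m : ι → ℝ) (hm : ∀ i ∈ T, ∫ w, f i w ∂P = m i) {g : Ω → ℝ} (hg : Measurable[past Y n] g)
    (hb : ∀ w, |g w| ≤ 1) :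
    Integrable (fun w => ∑ i ∈ T, c i w * f i w) P ∧
      ∫ w, g w * ∑ i ∈ T, c i w * f i w ∂P = ∫ w, g w * ∑ i ∈ T, c i w * m i ∂P := by
  have hpl := Pool.Agent.Helper97.QC.past_le (P := P) h n
  have hfl := Pool.Agent.Helper97.QC.futr_le (P := P) h n
  have hind := Pool.Agent.Helper97.QC.indep_past (P := P) h n
  have hg' : Measurable g := hg.mono hpl le_rfl
  have hc' : ∀ i ∈ T, Measurable (c i) := fun i hi => (hc i hi).mono hpl le_rfl
  have hgc : ∀ i ∈ T, ∀ w, |g w * c i w| ≤ 1 := by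
    intro i hi w
    rw [abs_mul]
    exact mul_le_one₀ (hb w) (abs_nonneg _) (hcb i hi w)
  have hgci : ∀ i ∈ T, Integrable (fun w => g w * c i w) P := fun i hi =>
    Integrable.of_bound (hg'.mul (hc' i hi)).aestronglyMeasurable 1
      (Filter.Eventually.of_forall fun w => by simpa [Real.norm_eq_abs] using hgc i hi w)
  have h1 : ∀ i ∈ T, Integrable (fun w => (g w * c i w) * f i w) P := fun i hi =>
    (hfi i hi).bdd_mul (c := 1) (hg'.mul (hc' i hi)).aestronglyMeasurable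
      (Filter.Eventually.of_forall fun w => by simpa [Real.norm_eq_abs] using hgc i hi w)
  have h2 : ∀ i ∈ T, ∫ w, (g w * c i w) * f i w ∂P = ∫ w, (g w * c i w) * m i ∂P := by
    intro i hi
    have hif : IndepFun (fun w => g w * c i w) (f i) P := by
      rw [IndepFun_iff_Indep]
      refine indep_of_indep_of_le_left (indep_of_indep_of_le_right hind ?_) ?_
      · exact (hf i hi).comap_le
      · exact (hg.mul (hc i hi)).comap_le
    rw [hif.integral_fun_mul_eq_mul_integral (hgci i hi).aestronglyMeasurable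
      (hfi i hi).aestronglyMeasurable, hm i hi, integral_mul_const]
  constructor
  · apply integrable_finsetSum
    intro i hi
    exact (hfi i hi).bdd_mul (c := 1) (hc' i hi).aestronglyMeasurable
      (Filter.Eventually.of_forall fun w => by simpa [Real.norm_eq_abs] using hcb i hi w)
  · have e1 : (fun w => g w * ∑ i ∈ T, c i w * f i w) = fun w => ∑ i ∈ T, (g w * c i w) * f i w := by
      funext w
      rw [Finset.mul_sum]
      exact Finset.sum_congr rfl fun i _ => by ring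
    have e2 : (fun w => g w * ∑ i ∈ T, c i w * m i) = fun w => ∑ i ∈ T, (g w * c i w) * m i := by
      funext w
      rw [Finset.mul_sum]
      exact Finset.sum_congr rfl fun i _ => by ring
    rw [e1, e2, integral_finsetSum _ h1, integral_finsetSum _ fun i hi => (hgci i hi).mul_const _]
    exact Finset.sum_congr rfl h2

theorem ev_pos (h : PEnv P Y s C) (w : Ω) (n : ℕ) (x : Z2) : 0 < ev Y w n x := h.pos n x w

theorem pq_le_one {v : ℕ → Z2 → ℝ} (hv : ∀ n x, 0 < v n x) {n : ℕ} {x : Z2} (hx : x ∈ bx n) :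
    pq v n x ≤ 1 := by
  rw [← pq_sum hv n]
  exact Finset.single_le_sum (fun y _ => pq_nonneg hv n y) hx

theorem abs_pq_le (h : PEnv P Y s C) {n : ℕ} {x : Z2} (hx : x ∈ bx n) (w : Ω) :
    |pq (ev Y w) n x| ≤ 1 := by
  rw [abs_of_nonneg (pq_nonneg (ev_pos h w) n x)]
  exact pq_le_one (ev_pos h w) hx

theorem Wt_int (h : PEnv P Y s C) (n t : ℕ) (x : Z2) : Integrable (fun w => Wt (ev Y w) n t x) P :=
  (Pool.Agent.Helper97.QC.Wt_l4 h n t x).integrable (by norm_num)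

theorem av2_prod (v : ℕ → Z2 → ℝ) (n : ℕ) (Φ : Z2 → Z2 → ℝ) :
    av2 v n Φ = ∑ p ∈ bx n ×ˢ bx n, (pq v n p.1 * pq v n p.2) * Φ p.1 p.2 := by
  unfold av2
  rw [Finset.sum_product]

theorem cond_X (h : PEnv P Y s C) (n t : ℕ) {g : Ω → ℝ} (hg : Measurable[past Y n] g) (hb : ∀ w, |g w| ≤ 1) :
    ∫ w, g w * (Wt (ev Y w) 0 (n + t) 0 / Wt (ev Y w) 0 n 0 - 1) ∂P = 0 := by
  have h1 : ∀ w, g w * (Wt (ev Y w) 0 (n + t) 0 / Wt (ev Y w) 0 n 0 - 1) =
      g w * ∑ x ∈ bx n, pq (ev Y w) n x * (Wt (ev Y w) n t x - 1) := by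
    intro w
    rw [Wt_ratio (ev_pos h w), av_one (ev_pos h w)]
    rfl
  simp only [h1]
  rw [(key_past h n (bx n) (fun x w => pq (ev Y w) n x) (fun x w => Wt (ev Y w) n t x - 1)
    (fun x _ => Pool.Agent.Helper97.QC.meas_pq n x) (fun x hx w => abs_pq_le h hx w)
    (fun x _ => (Pool.Agent.Helper97.QC.meas_Wt n t x).sub_const 1)
    (fun x _ => (Wt_int h n t x).sub (integrable_const 1)) (fun _ => 0) (fun x _ => ?_) hg hb).2]
  · simp
  · rw [integral_sub (Wt_int h n t x) (integrable_const 1), Pool.Agent.Helper97.QC.int_W1 h n t x]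
    simp

theorem cond_X2 (h : PEnv P Y s C) (n t : ℕ) {g : Ω → ℝ} (hg : Measurable[past Y n] g) (hb : ∀ w, |g w| ≤ 1) :
    ∫ w, g w * (Wt (ev Y w) 0 (n + t) 0 / Wt (ev Y w) 0 n 0 - 1) ^ 2 ∂P =
      ∫ w, g w * av2 (ev Y w) n (fun x y => Kf s t (x - y)) ∂P := by
  have h1 : ∀ w, g w * (Wt (ev Y w) 0 (n + t) 0 / Wt (ev Y w) 0 n 0 - 1) ^ 2 =
      g w * ∑ p ∈ bx n ×ˢ bx n, (pq (ev Y w) n p.1 * pq (ev Y w) n p.2) *
        ((Wt (ev Y w) n t p.1 - 1) * (Wt (ev Y w) n t p.2 - 1)) := by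
    intro w
    rw [Wt_ratio (ev_pos h w), av_sq (ev_pos h w), av2_prod]
  simp only [h1, av2_prod]
  exact (key_past h n (bx n ×ˢ bx n) (fun p w => pq (ev Y w) n p.1 * pq (ev Y w) n p.2)
    (fun p w => (Wt (ev Y w) n t p.1 - 1) * (Wt (ev Y w) n t p.2 - 1))
    (fun p _ => (Pool.Agent.Helper97.QC.meas_pq n p.1).mul (Pool.Agent.Helper97.QC.meas_pq n p.2))
    (fun p hp w => by
      rw [Finset.mem_product] at hp
      rw [abs_mul]
      exact mul_le_one₀ (abs_pq_le h hp.1 w) (abs_nonneg _) (abs_pq_le h hp.2 w))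
    (fun p _ => ((Pool.Agent.Helper97.QC.meas_Wt n t p.1).sub_const 1).mul
      ((Pool.Agent.Helper97.QC.meas_Wt n t p.2).sub_const 1))
    (fun p _ => (Pool.Agent.Helper97.QC.int_W2 h n t p.1 p.2).1) (fun p => Kf s t (p.1 - p.2))
    (fun p _ => (Pool.Agent.Helper97.QC.int_W2 h n t p.1 p.2).2) hg hb).2

theorem X4_eq (h : PEnv P Y s C) (n t : ℕ) (w : Ω) :
    (Wt (ev Y w) 0 (n + t) 0 / Wt (ev Y w) 0 n 0 - 1) ^ 4 =
      ∑ x ∈ Fintype.piFinset (fun _ : Fin 4 => bx n), (∏ a, pq (ev Y w) n (x a)) *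
        ∏ a, (Wt (ev Y w) n t (x a) - 1) := by
  rw [Wt_ratio (ev_pos h w), av_four (ev_pos h w)]
  rfl

theorem key_X4 (h : PEnv P Y s C) (n t : ℕ) {g : Ω → ℝ} (hg : Measurable[past Y n] g) (hb : ∀ w, |g w| ≤ 1) :
    Integrable (fun w => ∑ x ∈ Fintype.piFinset (fun _ : Fin 4 => bx n), (∏ a, pq (ev Y w) n (x a)) *
        ∏ a, (Wt (ev Y w) n t (x a) - 1)) P ∧
    ∫ w, g w * ∑ x ∈ Fintype.piFinset (fun _ : Fin 4 => bx n), (∏ a, pq (ev Y w) n (x a)) *
        ∏ a, (Wt (ev Y w) n t (x a) - 1) ∂P =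
    ∫ w, g w * ∑ x ∈ Fintype.piFinset (fun _ : Fin 4 => bx n), (∏ a, pq (ev Y w) n (x a)) *
        ∑ S : Finset (Fin 4), (-1) ^ (4 - S.card) * FF (cS P Y S) t x ∂P :=
  key_past h n (Fintype.piFinset (fun _ : Fin 4 => bx n)) (fun x w => ∏ a, pq (ev Y w) n (x a))
    (fun x w => ∏ a, (Wt (ev Y w) n t (x a) - 1))
    (fun x _ => Finset.measurable_fun_prod _ fun a _ => Pool.Agent.Helper97.QC.meas_pq n (x a))
    (fun x hx w => by
      rw [Fintype.mem_piFinset] at hx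
      rw [Finset.abs_prod]
      exact Finset.prod_le_one (fun a _ => abs_nonneg _) fun a _ => abs_pq_le h (hx a) w)
    (fun x _ => Finset.measurable_fun_prod _ fun a _ =>
      (Pool.Agent.Helper97.QC.meas_Wt n t (x a)).sub_const 1)
    (fun x _ => (Pool.Agent.Helper97.QC.int_W4 h n t x).1)
    (fun x => ∑ S : Finset (Fin 4), (-1) ^ (4 - S.card) * FF (cS P Y S) t x)
    (fun x _ => (Pool.Agent.Helper97.QC.int_W4 h n t x).2) hg hb

theorem int_X4 (h : PEnv P Y s C) (n t : ℕ) :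
    Integrable (fun w => (Wt (ev Y w) 0 (n + t) 0 / Wt (ev Y w) 0 n 0 - 1) ^ 4) P := by
  simp only [X4_eq h n t]
  exact (key_X4 h n t (g := fun _ => 0) (@measurable_const _ _ _ (past Y n) 0) (fun w => by simp)).1

theorem cond_X4 (h : PEnv P Y s C) (n t : ℕ) {g : Ω → ℝ} (hg : Measurable[past Y n] g) (hb : ∀ w, |g w| ≤ 1) :
    ∫ w, g w * (Wt (ev Y w) 0 (n + t) 0 / Wt (ev Y w) 0 n 0 - 1) ^ 4 ∂P =
      ∫ w, g w * av4 (ev Y w) n (fun x => ∑ S : Finset (Fin 4), (-1) ^ (4 - S.card) * FF (cS P Y S) t x) ∂P := by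
  simp only [X4_eq h n t]
  exact (key_X4 h n t hg hb).2

theorem cond_L2 (h : PEnv P Y s C) (n t : ℕ) (ψ : Z2 → ℝ) {g : Ω → ℝ} (hg : Measurable[past Y n] g)
    (hb : ∀ w, |g w| ≤ 1) :
    Integrable (fun w => av2 (ev Y w) n (L2 (ev Y w) n t ψ)) P ∧
    ∫ w, g w * av2 (ev Y w) n (L2 (ev Y w) n t ψ) ∂P =
      ∫ w, g w * av2 (ev Y w) n (fun x y => Tn s t ψ (x - y)) ∂P := by
  simp only [av2_prod]
  exact key_past h n (bx n ×ˢ bx n) (fun p w => pq (ev Y w) n p.1 * pq (ev Y w) n p.2)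
    (fun p w => L2 (ev Y w) n t ψ p.1 p.2)
    (fun p _ => (Pool.Agent.Helper97.QC.meas_pq n p.1).mul (Pool.Agent.Helper97.QC.meas_pq n p.2))
    (fun p hp w => by
      rw [Finset.mem_product] at hp
      rw [abs_mul]
      exact mul_le_one₀ (abs_pq_le h hp.1 w) (abs_nonneg _) (abs_pq_le h hp.2 w))
    (fun p _ => Pool.Agent.Helper97.QC.meas_L2 n t ψ p.1 p.2)
    (fun p _ => (Pool.Agent.Helper97.QC.int_L2 h n t ψ p.1 p.2).1) (fun p => Tn s t ψ (p.1 - p.2))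
    (fun p _ => (Pool.Agent.Helper97.QC.int_L2 h n t ψ p.1 p.2).2) hg hb

end

end Pool.Agent.Helper97.QC
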