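import Pool.Agent.Helper97.QC.A1
import Pool.Agent.Helper97.QC.P4
import Pool.Agent.Helper97.QC.P2
import Pool.Agent.Helper79.QC.P5
import Pool.Agent.Helper31.QC.S

/-! Bounds for a fixed system size. -/

set_option autoImplicit false
set_option linter.unusedSectionVars false

open MeasureTheory ProbabilityTheory Filter Finset

namespace Pool.Agent.Helper97.QC

open Pool.Agent.Helper97.CP

theorem le_meas {Ω : Type*} {m : MeasurableSpace Ω} {f : Ω → ℝ} (hf : Measurable[m] f) (c : ℝ) :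
    MeasurableSet[m] {w | c ≤ f w} := hf measurableSet_Ici

theorem div_meas {Ω : Type*} {m : MeasurableSpace Ω} {f g : Ω → ℝ} (hf : Measurable[m] f) (hg : Measurable[m] g) :
    Measurable[m] (fun w => f w / g w) := hf.div hg

theorem ind_meas {Ω : Type*} {m : MeasurableSpace Ω} {A : Set Ω} (hA : MeasurableSet[m] A) :
    Measurable[m] (A.indicator (fun _ => (1 : ℝ))) :=
  measurable_const.indicator hA

variable {Ω : Type*} [mΩ : MeasurableSpace Ω] {P : Measure Ω} [IsProbabilityMeasure P]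
  {Y : ℕ → Z2 → Ω → ℝ} {s C : ℝ}

/-- partition functions at the block times -/
noncomputable def Dw (Y : ℕ → Z2 → Ω → ℝ) (n : ℕ) (w : Ω) : ℝ := Wt (ev Y w) 0 n 0

theorem Dw_pos (h : PEnv P Y s C) (n : ℕ) (w : Ω) : 0 < Dw Y n w :=
  Helper17.QC.Wt_pos (ev_pos h w) 0 n 0

theorem Dw_meas (n : ℕ) : Measurable[past Y n] (Dw Y n) := meas_Wt0 n

theorem past_mono {m n : ℕ} (h : m ≤ n) : past Y m ≤ past Y n := by
  unfold past sig
  apply biSup_mono
  intro p hp
  exact le_trans hp h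

/-- the good events -/
def Gw (Y : ℕ → Z2 → Ω → ℝ) (M : ℕ → ℕ) (i : ℕ) : Set Ω :=
  {w | 1 / 2 ≤ Dw Y (M 0) w ∧ ∀ j < i, 1 / 2 ≤ Dw Y (M (j + 1)) w / Dw Y (M j) w}

theorem Gw_meas {M : ℕ → ℕ} {i : ℕ} (hM : ∀ j ≤ i, ∀ k ≤ j, M k ≤ M j) : MeasurableSet[past Y (M i)] (Gw Y M i) := by
  have h0 : MeasurableSet[past Y (M i)] {w | 1 / 2 ≤ Dw Y (M 0) w} :=
    le_meas ((Dw_meas (M 0)).mono (past_mono (hM i le_rfl 0 (Nat.zero_le _))) le_rfl) _
  have h1 : ∀ j < i, MeasurableSet[past Y (M i)] {w | 1 / 2 ≤ Dw Y (M (j + 1)) w / Dw Y (M j) w} := by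
    intro j hj
    exact le_meas (div_meas
        ((Dw_meas (M (j + 1))).mono (past_mono (hM i le_rfl (j + 1) (by omega))) le_rfl)
        ((Dw_meas (M j)).mono (past_mono (hM i le_rfl j (by omega))) le_rfl)) _
  have e : Gw Y M i = {w | 1 / 2 ≤ Dw Y (M 0) w} ∩
      ⋂ j ∈ Finset.range i, {w | 1 / 2 ≤ Dw Y (M (j + 1)) w / Dw Y (M j) w} := by
    ext w
    simp only [Gw, Set.mem_ofPred_eq, Set.mem_inter_iff, Set.mem_iInter, Finset.mem_range]
  rw [e]
  apply MeasurableSet.inter h0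
  apply Finset.measurableSet_biInter
  intro j hj
  exact h1 j (Finset.mem_range.1 hj)

theorem Gw_succ (M : ℕ → ℕ) (i : ℕ) : Gw Y M (i + 1) ⊆ Gw Y M i :=
  fun _ hw => ⟨hw.1, fun j hj => hw.2 j (by omega)⟩

/-- quenched averages are integrable -/
theorem av2_integrable (h : PEnv P Y s C) (n : ℕ) (Φ : Z2 → Z2 → ℝ) :
    Integrable (fun w => av2 (ev Y w) n Φ) P := by
  unfold av2
  apply integrable_finsetSum
  intro x hx
  apply integrable_finsetSum
  intro y hy
  apply Integrable.mul_const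
  have hb : ∀ w x, x ∈ bx n → |pq (ev Y w) n x| ≤ 1 := by
    intro w x hx
    rw [abs_of_nonneg (Helper17.QC.pq_nonneg (ev_pos h w) n x)]
    rw [← Helper17.QC.pq_sum (ev_pos h w) n]
    exact Finset.single_le_sum (f := fun x => pq (ev Y w) n x)
      (fun x _ => Helper17.QC.pq_nonneg (ev_pos h w) n x) hx
  have hm : ∀ x, Measurable fun w => pq (ev Y w) n x := fun x =>
    (meas_pq n x).mono (past_le h n) le_rfl
  apply Integrable.of_bound ((hm x).mul (hm y)).aestronglyMeasurable 1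
  filter_upwards with w
  rw [Real.norm_eq_abs, Pi.mul_apply, abs_mul]
  exact mul_le_one₀ (hb w x hx) (abs_nonneg _) (hb w y hy)

theorem psi_nonneg (M : ℕ) (z : Z2) : 0 ≤ psi M z := by
  unfold psi
  have := nsq_nonneg' z
  positivity

/-- the spread functional -/
noncomputable def uw (P : Measure Ω) (Y : ℕ → Z2 → Ω → ℝ) (M : ℕ → ℕ) (i : ℕ) : ℝ :=
  ∫ w in Gw Y M i, av2 (ev Y w) (M i) (fun x y => psi (M i) (x - y)) ∂P

theorem setInt_eq {A : Set Ω} (hA : MeasurableSet A) (f : Ω → ℝ) :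
    ∫ w in A, f w ∂P = ∫ w, A.indicator (fun _ => (1 : ℝ)) w * f w ∂P := by
  rw [← integral_indicator hA]
  congr 1
  funext w
  by_cases hw : w ∈ A
  · simp [hw]
  · simp [hw]

theorem ind_bd (A : Set Ω) (w : Ω) : |A.indicator (fun _ => (1 : ℝ)) w| ≤ 1 := by
  by_cases hw : w ∈ A
  · simp [hw]
  · simp [hw]

theorem ind_nonneg (A : Set Ω) (w : Ω) : 0 ≤ A.indicator (fun _ => (1 : ℝ)) w := by
  by_cases hw : w ∈ A
  · simp [hw]
  · simp [hw]

theorem sp_step (h : PEnv P Y s C) {C1 : ℝ} {M : ℕ → ℕ} {i : ℕ}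
    (hM : ∀ j ≤ i + 1, ∀ k ≤ j, M k ≤ M j) (hC : ∀ z, Tn s (M (i + 1) - M i) (psi (M (i + 1))) z ≤ C1 + 1 / 8 * psi (M i) z)
    (hC1 : 0 ≤ C1) : uw P Y M (i + 1) ≤ 4 * C1 + 1 / 2 * uw P Y M i := by
  set t := M (i + 1) - M i with ht
  have hMt : M i + t = M (i + 1) := by have := hM (i + 1) le_rfl i (by omega); omega
  have hGm : MeasurableSet (Gw Y M i) := (past_le h _) _ (Gw_meas fun j hj k hk => hM j (by omega) k hk)
  have hGm1 : MeasurableSet (Gw Y M (i + 1)) := (past_le h _) _ (Gw_meas hM)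
  have hL : ∀ w, 0 ≤ av2 (ev Y w) (M i) (L2 (ev Y w) (M i) t (psi (M (i + 1)))) := fun w => by
    have := Helper17.QC.av2_mono (ev_pos h w) (M i) (Φ := fun _ _ => 0)
      (Φ' := L2 (ev Y w) (M i) t (psi (M (i + 1))))
      (fun x y _ => Helper17.QC.L2_nonneg (ev_pos h w) (psi_nonneg _) _ _ _ _)
    rwa [Helper17.QC.av2_const (ev_pos h w)] at this
  have hint := (cond_L2 h (M i) t (psi (M (i + 1))) (g := fun _ => 1)
    (@measurable_const _ _ _ (past Y (M i)) _) (by simp)).1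
  -- step 1
  have s1 : uw P Y M (i + 1) ≤
      ∫ w in Gw Y M (i + 1), 4 * av2 (ev Y w) (M i) (L2 (ev Y w) (M i) t (psi (M (i + 1)))) ∂P := by
    unfold uw
    apply setIntegral_mono_on (av2_integrable h _ _).integrableOn (hint.const_mul 4).integrableOn hGm1
    intro w hw
    have h1 := Helper17.QC.av2_step (ev_pos h w) (M i) t (psi (M (i + 1)))
    rw [hMt] at h1
    rw [h1]
    apply mul_le_mul_of_nonneg_right _ (hL w)
    have h2 := hw.2 i (by omega)
    have d1 := Dw_pos h (M i) w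
    have d2 := Dw_pos h (M (i + 1)) w
    have h3 : Wt (ev Y w) 0 (M i) 0 / Wt (ev Y w) 0 (M (i + 1)) 0 ≤ 2 := by
      unfold Dw at d2
      rw [div_le_iff₀ d2]
      rw [le_div_iff₀ d1] at h2
      unfold Dw at h2
      linarith
    have h4 : 0 ≤ Wt (ev Y w) 0 (M i) 0 / Wt (ev Y w) 0 (M (i + 1)) 0 := (div_pos d1 d2).le
    nlinarith
  -- step 2
  have s2 : ∫ w in Gw Y M (i + 1), 4 * av2 (ev Y w) (M i) (L2 (ev Y w) (M i) t (psi (M (i + 1)))) ∂P ≤
      ∫ w in Gw Y M i, 4 * av2 (ev Y w) (M i) (L2 (ev Y w) (M i) t (psi (M (i + 1)))) ∂P := by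
    apply setIntegral_mono_set (hint.const_mul 4).integrableOn
    · filter_upwards with w
      have := hL w
      simp only [Pi.zero_apply]
      positivity
    · exact (Gw_succ M i).eventuallyLE
  -- step 3
  have hg : Measurable[past Y (M i)] ((Gw Y M i).indicator (fun _ => (1 : ℝ))) :=
    ind_meas (Gw_meas fun j hj k hk => hM j (by omega) k hk)
  have s3 : ∫ w in Gw Y M i, 4 * av2 (ev Y w) (M i) (L2 (ev Y w) (M i) t (psi (M (i + 1)))) ∂P =
      4 * ∫ w in Gw Y M i, av2 (ev Y w) (M i) (fun x y => Tn s t (psi (M (i + 1))) (x - y)) ∂P := by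
    rw [integral_const_mul, setInt_eq hGm, setInt_eq hGm]
    rw [(cond_L2 h (M i) t (psi (M (i + 1))) hg (ind_bd _)).2]
  have s4 : ∫ w in Gw Y M i, av2 (ev Y w) (M i) (fun x y => Tn s t (psi (M (i + 1))) (x - y)) ∂P ≤
      ∫ w in Gw Y M i, (1 / 8 * av2 (ev Y w) (M i) (fun x y => psi (M i) (x - y)) + C1) ∂P := by
    apply setIntegral_mono_on (av2_integrable h _ _).integrableOn
      (((av2_integrable h _ _).const_mul _).add (integrable_const _)).integrableOn hGm
    intro w _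
    have h1 := Helper17.QC.av2_mono (ev_pos h w) (M i) (Φ := fun x y => Tn s t (psi (M (i + 1))) (x - y))
      (Φ' := fun x y => 1 / 8 * psi (M i) (x - y) + C1) (fun x y _ => by linarith [hC (x - y)])
    have h2 := Helper17.QC.av2_lin (ev Y w) (M i) (1 / 8) (fun x y => psi (M i) (x - y)) (fun _ _ => C1)
    rw [Helper17.QC.av2_const (ev_pos h w)] at h2
    rw [h2] at h1
    exact h1
  have s5 : ∫ w in Gw Y M i, (1 / 8 * av2 (ev Y w) (M i) (fun x y => psi (M i) (x - y)) + C1) ∂P ≤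
      1 / 8 * uw P Y M i + C1 := by
    rw [integral_add ((av2_integrable h _ _).const_mul _).integrableOn (integrable_const _).integrableOn,
      integral_const_mul, setIntegral_const]
    unfold uw
    have : (P.real (Gw Y M i)) • C1 ≤ C1 := by
      rw [smul_eq_mul]
      exact mul_le_of_le_one_left hC1 measureReal_le_one
    linarith
  linarith

theorem av2_zero (h : PEnv P Y s C) (w : Ω) (Φ : Z2 → Z2 → ℝ) : av2 (ev Y w) 0 Φ = Φ 0 0 := by
  have hb : bx 0 = {0} := by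
    ext z
    rw [mem_bx, Finset.mem_singleton]
    constructor
    · rintro ⟨h0, h1⟩
      funext i
      simp only [Nat.cast_zero, abs_nonpos_iff] at h0 h1
      fin_cases i
      · exact h0
      · exact h1
    · rintro rfl
      simp
  have hs := Helper17.QC.pq_sum (ev_pos h w) 0
  rw [hb, Finset.sum_singleton] at hs
  unfold av2
  rw [hb, Finset.sum_singleton, Finset.sum_singleton, hs]
  ring

theorem sp_init (h : PEnv P Y s C) {C1 : ℝ} {M : ℕ → ℕ}
    (hC : Tn s (M 0) (psi (M 0)) 0 ≤ C1) : uw P Y M 0 ≤ 4 * C1 := by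
  have hGm : MeasurableSet (Gw Y M 0) := (past_le h _) _ (Gw_meas fun j hj k hk => by
    have : j = 0 := by omega
    subst this
    have : k = 0 := by omega
    subst this
    exact le_rfl)
  have hint := (cond_L2 h 0 (M 0) (psi (M 0)) (g := fun _ => 1)
    (@measurable_const _ _ _ (past Y 0) _) (by simp))
  have hL : ∀ w, 0 ≤ av2 (ev Y w) 0 (L2 (ev Y w) 0 (M 0) (psi (M 0))) := fun w => by
    have := Helper17.QC.av2_mono (ev_pos h w) 0 (Φ := fun _ _ => 0)
      (Φ' := L2 (ev Y w) 0 (M 0) (psi (M 0)))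
      (fun x y _ => Helper17.QC.L2_nonneg (ev_pos h w) (psi_nonneg _) _ _ _ _)
    rwa [Helper17.QC.av2_const (ev_pos h w)] at this
  have s1 : uw P Y M 0 ≤ ∫ w in Gw Y M 0, 4 * av2 (ev Y w) 0 (L2 (ev Y w) 0 (M 0) (psi (M 0))) ∂P := by
    unfold uw
    apply setIntegral_mono_on (av2_integrable h _ _).integrableOn (hint.1.const_mul 4).integrableOn hGm
    intro w hw
    have h1 := Helper17.QC.av2_step (ev_pos h w) 0 (M 0) (psi (M 0))
    rw [zero_add] at h1
    rw [h1]
    apply mul_le_mul_of_nonneg_right _ (hL w)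
    have h2 := hw.1
    have e0 : Wt (ev Y w) 0 0 0 = 1 := rfl
    have d2 := Dw_pos h (M 0) w
    have h3 : Wt (ev Y w) 0 0 0 / Wt (ev Y w) 0 (M 0) 0 ≤ 2 := by
      unfold Dw at d2 h2
      rw [e0, div_le_iff₀ d2]
      linarith
    have h4 : 0 ≤ Wt (ev Y w) 0 0 0 / Wt (ev Y w) 0 (M 0) 0 := by
      rw [e0]
      exact (div_pos one_pos d2).le
    nlinarith
  have s2 : ∫ w in Gw Y M 0, 4 * av2 (ev Y w) 0 (L2 (ev Y w) 0 (M 0) (psi (M 0))) ∂P ≤
      ∫ w, 4 * av2 (ev Y w) 0 (L2 (ev Y w) 0 (M 0) (psi (M 0))) ∂P := by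
    apply setIntegral_le_integral (hint.1.const_mul 4)
    filter_upwards with w
    have := hL w
    simp only [Pi.zero_apply]
    positivity
  have s3 : ∫ w, 4 * av2 (ev Y w) 0 (L2 (ev Y w) 0 (M 0) (psi (M 0))) ∂P ≤ 4 * C1 := by
    rw [integral_const_mul]
    have h2 := hint.2
    simp only [one_mul] at h2
    rw [h2]
    simp only [av2_zero h, sub_zero]
    rw [integral_const]
    simp only [probReal_univ, one_smul]
    linarith
  linarith

end Pool.Agent.Helper97.QC
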