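import Pool.Agent.Helper97.QC.FinN

/-! Bounds for a fixed system size, continued. -/

set_option autoImplicit false
set_option linter.unusedSectionVars false

open MeasureTheory ProbabilityTheory Filter Finset

namespace Pool.Agent.Helper97.QC

open Pool.Agent.Helper97.CP

variable {Ω : Type*} [mΩ : MeasurableSpace Ω] {P : Measure Ω} [IsProbabilityMeasure P]
  {Y : ℕ → Z2 → Ω → ℝ} {s C : ℝ}

theorem av4_integrable (h : PEnv P Y s C) (n : ℕ) (Ψ : X4 → ℝ) :
    Integrable (fun w => av4 (ev Y w) n Ψ) P := by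
  unfold av4
  apply integrable_finsetSum
  intro x hx
  apply Integrable.mul_const
  have hx' : ∀ a, x a ∈ bx n := fun a => Fintype.mem_piFinset.1 hx a
  have hb : ∀ w x, x ∈ bx n → |pq (ev Y w) n x| ≤ 1 := by
    intro w x hx
    rw [abs_of_nonneg (Helper17.QC.pq_nonneg (ev_pos h w) n x)]
    rw [← Helper17.QC.pq_sum (ev_pos h w) n]
    exact Finset.single_le_sum (f := fun x => pq (ev Y w) n x)
      (fun x _ => Helper17.QC.pq_nonneg (ev_pos h w) n x) hx
  have hm : ∀ x, Measurable fun w => pq (ev Y w) n x := fun x =>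
    (meas_pq n x).mono (past_le h n) le_rfl
  apply Integrable.of_bound (Finset.measurable_prod _ fun a _ => hm (x a)).aestronglyMeasurable 1
  filter_upwards with w
  rw [Real.norm_eq_abs, Finset.abs_prod]
  exact Finset.prod_le_one (fun a _ => abs_nonneg _) fun a _ => hb w (x a) (hx' a)

theorem uw_nonneg (h : PEnv P Y s C) (M : ℕ → ℕ) (i : ℕ) : 0 ≤ uw P Y M i := by
  apply integral_nonneg
  intro w
  have := Helper17.QC.av2_mono (ev_pos h w) (M i) (Φ := fun _ _ => 0)
    (Φ' := fun x y => psi (M i) (x - y)) (fun x y _ => psi_nonneg _ _)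
  rw [Helper17.QC.av2_const (ev_pos h w)] at this
  exact this

/-- integral over the good set of an affine function of the spread functional -/
theorem int_aff (h : PEnv P Y s C) {M : ℕ → ℕ} {i : ℕ} {c : ℝ} (hc : 0 ≤ c) :
    ∫ w in Gw Y M i, (c * av2 (ev Y w) (M i) (fun x y => psi (M i) (x - y)) + c) ∂P ≤
      c * (1 + uw P Y M i) := by
  rw [integral_add ((av2_integrable h _ _).const_mul _).integrableOn (integrable_const _).integrableOn,
    integral_const_mul, setIntegral_const]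
  have : (P.real (Gw Y M i)) • c ≤ c := by
    rw [smul_eq_mul]
    exact mul_le_of_le_one_left hc measureReal_le_one
  unfold uw
  linarith

theorem X4_le (h : PEnv P Y s C) {M : ℕ → ℕ} {i : ℕ} {δ K K' α : ℝ} (hM : ∀ j ≤ i + 1, ∀ k ≤ j, M k ≤ M j)
    (hδ : 0 ≤ δ) (hK : 0 ≤ K) (hK' : 0 ≤ K')
    (h4 : ∀ x : X4, |∑ S : Finset (Fin 4), (-1) ^ (4 - S.card) * FF (cS P Y S) (M (i + 1) - M i) x| ≤
      K * δ * ∑ J ∈ prs, ((M (i + 1) : ℝ) / (1 + nsq (x J.1 - x J.2))) ^ α)
    (hρ : ∀ z, ((M (i + 1) : ℝ) / (1 + nsq z)) ^ α ≤ K' * (1 + psi (M i) z)) :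
    ∫ w in Gw Y M i, (Dw Y (M (i + 1)) w / Dw Y (M i) w - 1) ^ 4 ∂P ≤
      6 * K * K' * δ * (1 + uw P Y M i) := by
  set t := M (i + 1) - M i with ht
  have hMt : M i + t = M (i + 1) := by have := hM (i + 1) le_rfl i (by omega); omega
  have hGm' : MeasurableSet[past Y (M i)] (Gw Y M i) := Gw_meas fun j hj k hk => hM j (by omega) k hk
  have hGm : MeasurableSet (Gw Y M i) := (past_le h _) _ hGm'
  have e1 := cond_X4 h (M i) t (ind_meas hGm') (ind_bd _)
  rw [hMt] at e1
  rw [setInt_eq hGm]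
  unfold Dw
  rw [e1, ← setInt_eq hGm]
  refine le_trans (setIntegral_mono_on (av4_integrable h _ _).integrableOn
    (((av2_integrable h (M i) (fun x y => psi (M i) (x - y))).const_mul (6 * K * K' * δ)).add
      (integrable_const (6 * K * K' * δ))).integrableOn hGm ?_) (int_aff h (by positivity))
  intro w _
  have b1 := Helper17.QC.av4_mono (ev_pos h w) (M i)
    (Ψ := fun x => ∑ S : Finset (Fin 4), (-1) ^ (4 - S.card) * FF (cS P Y S) t x)
    (Ψ' := fun x => K * δ * ∑ J ∈ prs, (fun z => ((M (i + 1) : ℝ) / (1 + nsq z)) ^ α) (x J.1 - x J.2))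
    (fun x => (le_abs_self _).trans (h4 x))
  have b0 := Helper17.QC.av4_pairs (ev_pos h w) (M i) (K * δ) (fun z => ((M (i + 1) : ℝ) / (1 + nsq z)) ^ α)
  rw [b0] at b1
  have b2 := Helper17.QC.av2_mono (ev_pos h w) (M i)
    (Φ := fun x y => (fun z => ((M (i + 1) : ℝ) / (1 + nsq z)) ^ α) (x - y))
    (Φ' := fun x y => K' * psi (M i) (x - y) + K') (fun x y _ => by
      have := hρ (x - y)
      show ((M (i + 1) : ℝ) / (1 + nsq (x - y))) ^ α ≤ _
      linarith)
  have b3 := Helper17.QC.av2_lin (ev Y w) (M i) K' (fun x y => psi (M i) (x - y)) (fun _ _ => K')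
  rw [Helper17.QC.av2_const (ev_pos h w)] at b3
  rw [b3] at b2
  have b4 := mul_le_mul_of_nonneg_left b2 (show 0 ≤ 6 * (K * δ) by positivity)
  refine b1.trans (b4.trans (le_of_eq ?_))
  show 6 * (K * δ) * (K' * av2 (ev Y w) (M i) (fun x y => psi (M i) (x - y)) + K') =
    6 * K * K' * δ * av2 (ev Y w) (M i) (fun x y => psi (M i) (x - y)) + 6 * K * K' * δ
  ring

theorem V_le (h : PEnv P Y s C) {M : ℕ → ℕ} {i : ℕ} {δ K a : ℝ} (hM : ∀ j ≤ i + 1, ∀ k ≤ j, M k ≤ M j)
    (hδ : 0 ≤ δ) (hK : 0 ≤ K)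
    (hV : ∀ z : Z2, Even (z 0 + z 1) → |Kf s (M (i + 1) - M i) z - a| ≤ K * δ * (1 + psi (M i) z)) :
    ∫ w in Gw Y M i, |av2 (ev Y w) (M i) (fun x y => Kf s (M (i + 1) - M i) (x - y)) - a| ∂P ≤
      K * δ * (1 + uw P Y M i) := by
  have hGm' : MeasurableSet[past Y (M i)] (Gw Y M i) := Gw_meas fun j hj k hk => hM j (by omega) k hk
  have hGm : MeasurableSet (Gw Y M i) := (past_le h _) _ hGm'
  refine le_trans (setIntegral_mono_on ((av2_integrable h _ _).sub (integrable_const _)).abs.integrableOn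
    (((av2_integrable h (M i) (fun x y => psi (M i) (x - y))).const_mul (K * δ)).add
      (integrable_const (K * δ))).integrableOn hGm ?_) (int_aff h (by positivity))
  intro w _
  have e0 := Helper17.QC.av2_lin (ev Y w) (M i) (K * δ) (fun x y => psi (M i) (x - y)) (fun _ _ => K * δ)
  rw [Helper17.QC.av2_const (ev_pos h w)] at e0
  show |av2 (ev Y w) (M i) (fun x y => Kf s (M (i + 1) - M i) (x - y)) - a| ≤
    K * δ * av2 (ev Y w) (M i) (fun x y => psi (M i) (x - y)) + K * δ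
  rw [← e0, abs_le]
  have l1 := Helper17.QC.av2_lin (ev Y w) (M i) 1 (fun x y => Kf s (M (i + 1) - M i) (x - y)) (fun _ _ => -a)
  rw [Helper17.QC.av2_const (ev_pos h w), one_mul] at l1
  constructor
  · have b := Helper17.QC.av2_mono (ev_pos h w) (M i)
      (Φ := fun x y => (-(K * δ)) * psi (M i) (x - y) + (-(K * δ)))
      (Φ' := fun x y => 1 * Kf s (M (i + 1) - M i) (x - y) + -a) (fun x y hp => by
        have := (abs_le.1 (hV (x - y) hp)).1
        linarith)
    rw [l1] at b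
    have l2 := Helper17.QC.av2_lin (ev Y w) (M i) (-(K * δ)) (fun x y => psi (M i) (x - y)) (fun _ _ => -(K * δ))
    rw [Helper17.QC.av2_const (ev_pos h w)] at l2
    rw [l2] at b
    rw [e0]
    linarith
  · have b := Helper17.QC.av2_mono (ev_pos h w) (M i)
      (Φ := fun x y => 1 * Kf s (M (i + 1) - M i) (x - y) + -a)
      (Φ' := fun x y => (K * δ) * psi (M i) (x - y) + (K * δ)) (fun x y hp => by
        have := (abs_le.1 (hV (x - y) hp)).2
        linarith)
    rw [l1] at b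
    linarith

theorem D0_le (h : PEnv P Y s C) (m : ℕ) :
    Integrable (Dw Y m) P ∧ ∫ w, |Dw Y m w - 1| ∂P ≤ √(Kf s m 0) := by
  have hL := Wt_l4 h 0 m 0
  have hi : Integrable (Dw Y m) P := hL.integrable (by norm_num)
  refine ⟨hi, ?_⟩
  have h2 := int_W2 h 0 m 0 0
  rw [sub_zero] at h2
  set f : Ω → ℝ := fun w => |Dw Y m w - 1| with hf
  have hfi : Integrable f P := (hi.sub (integrable_const _)).abs
  have hf2 : (fun w => f w ^ 2) = fun w => (Wt (ev Y w) 0 m 0 - 1) * (Wt (ev Y w) 0 m 0 - 1) := by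
    funext w
    rw [hf]
    simp only [sq_abs]
    unfold Dw
    ring
  have hf2i : Integrable (fun w => f w ^ 2) P := by rw [hf2]; exact h2.1
  have hv : ∫ w, f w ^ 2 ∂P = Kf s m 0 := by rw [hf2]; exact h2.2
  set c := ∫ w, f w ∂P with hc
  have hc0 : 0 ≤ c := integral_nonneg fun w => abs_nonneg _
  apply Real.le_sqrt_of_sq_le
  have h0 : 0 ≤ ∫ w, (f w - c) ^ 2 ∂P := integral_nonneg fun w => sq_nonneg _
  have e : ∫ w, (f w - c) ^ 2 ∂P = ∫ w, f w ^ 2 ∂P - c ^ 2 := by
    have : (fun w => (f w - c) ^ 2) = fun w => (f w ^ 2 - (2 * c) * f w) + c ^ 2 := by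
      funext w; ring
    have hs2 : Integrable (fun w => f w ^ 2 - (2 * c) * f w) P := hf2i.sub (hfi.const_mul _)
    rw [this, integral_add hs2 (integrable_const _),
      integral_sub hf2i (hfi.const_mul _), integral_const_mul, ← hc]
    simp only [integral_const, probReal_univ, one_smul]
    ring
  rw [e, hv] at h0
  linarith

/-- all bounds for a fixed system size -/
theorem fin_bounds (P : Measure Ω) [IsProbabilityMeasure P] (C CB : ℝ) (hC : 0 ≤ C) :
    ∃ K η : ℝ, 0 < K ∧ 0 < η ∧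
    ∀ (Y : ℕ → Z2 → Ω → ℝ) (s : ℝ) (M : ℕ → ℕ) (I : ℕ), PEnv P Y s C → 0 < s → s ≤ η → s * R (M 0) ≤ η →
      1 ≤ M 0 → (∀ i < I, Blk s (M i) (M (i + 1)) CB) → (∀ i < I, s / (1 - s * R (M (i + 1))) ≤ η) →
      (∀ i < I, ∫ w in Gw Y M i, (Dw Y (M (i + 1)) w / Dw Y (M i) w - 1) ^ 4 ∂P ≤
        K * (s / (1 - s * R (M (i + 1))))) ∧
      (∀ i < I, ∫ w in Gw Y M i, |av2 (ev Y w) (M i) (fun x y => Kf s (M (i + 1) - M i) (x - y)) -
        s / (1 - s * R (M (i + 1))) * (R (M (i + 1)) - R (M i))| ∂P ≤ K * (s / (1 - s * R (M (i + 1))))) ∧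
      ∫ w, |Dw Y (M 0) w - 1| ∂P ≤ K * √(s * R (M 0)) ∧
      (∀ i < I, 0 ≤ s / (1 - s * R (M (i + 1))) * (R (M (i + 1)) - R (M i)) ∧
        s / (1 - s * R (M (i + 1))) * (R (M (i + 1)) - R (M i)) ≤ K * √(s / (1 - s * R (M (i + 1))))) := by
  obtain ⟨C1, η1, hC1, hη1, hstep⟩ := Helper31.QC.spread_step CB
  obtain ⟨C2, hC2, hinit⟩ := Helper31.QC.spread_init
  obtain ⟨C3, hC3, hrho⟩ := Helper31.QC.rho_le CB
  obtain ⟨C4, hC4, hKfa⟩ := Helper31.QC.Kf_a CB
  obtain ⟨C5, hC5, hale⟩ := Helper31.QC.a_le CB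
  obtain ⟨C6, η6, hC6, hη6, hfour⟩ := four_bound (16 * (C + 1)) CB (by positivity)
  set K0 := 4 * C2 + 8 * C1 with hK0
  refine ⟨6 * C6 * C3 * (1 + K0) + C4 * (1 + K0) + 2 + C5, min (min η1 η6) (1 / 16), by positivity,
    by positivity, ?_⟩
  intro Y s M I h hs hsη hx0 hM0 hB hδ
  have hMm : ∀ i ≤ I, ∀ k ≤ i, M k ≤ M i := by
    intro i
    induction i with
    | zero => intro _ k hk; have : k = 0 := by omega
              subst this; exact le_rfl
    | succ i ih =>
      intro hi k hk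
      rcases Nat.lt_or_eq_of_le hk with hk | hk
      · have h1 := ih (by omega) k (by omega)
        have h2 := (hB i (by omega)).2.2.1
        omega
      · subst hk; exact le_rfl
  have hu : ∀ i ≤ I, uw P Y M i ≤ K0 := by
    intro i
    induction i with
    | zero =>
      intro _
      have h1 := hinit s (M 0) hs (by linarith [min_le_right (min η1 η6) (1 / 16 : ℝ)]) hM0
        (by linarith [min_le_right (min η1 η6) (1 / 16 : ℝ)])
      have := sp_init h h1
      linarith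
    | succ i ih =>
      intro hi
      have h1 := sp_step h (C1 := C1) (M := M) (i := i) (fun j hj k hk => hMm j (by omega) k hk)
        (hstep s (M i) (M (i + 1)) (hB i (by omega)) ((hδ i (by omega)).trans
          ((min_le_left _ _).trans (min_le_left _ _)))) hC1.le
      have h2 := ih (by omega)
      linarith
  have hδ0 : ∀ i < I, 0 < s / (1 - s * R (M (i + 1))) := fun i hi =>
    div_pos hs (by linarith [(hB i hi).2.2.2.1])
  have hη16 : ∀ i < I, s / (1 - s * R (M (i + 1))) ≤ 1 / 16 := fun i hi => (hδ i hi).trans (min_le_right _ _)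
  have hs1 : s ≤ 1 := by linarith [min_le_right (min η1 η6) (1 / 16 : ℝ)]
  refine ⟨fun i hi => ?_, fun i hi => ?_, ?_, fun i hi => ?_⟩
  · have h1 := X4_le h (M := M) (i := i) (fun j hj k hk => hMm j (by omega) k hk) (hδ0 i hi).le hC6.le hC3.le
      (hfour s (M i) (M (i + 1)) (hB i hi) ((hδ i hi).trans ((min_le_left _ _).trans (min_le_right _ _)))
        (cS P Y) (fun S => cS_fac h hs1 S))
      (hrho s (M i) (M (i + 1)) (hB i hi) (hη16 i hi))
    refine h1.trans ?_
    have h2 := hu i hi.le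
    have h3 := hδ0 i hi
    have h4 : 6 * C6 * C3 * (s / (1 - s * R (M (i + 1)))) * (1 + uw P Y M i) ≤
        6 * C6 * C3 * (s / (1 - s * R (M (i + 1)))) * (1 + K0) :=
      mul_le_mul_of_nonneg_left (by linarith) (by positivity)
    have h5 : 0 ≤ (C4 * (1 + K0) + 2 + C5) * (s / (1 - s * R (M (i + 1)))) := by positivity
    linarith
  · have h1 := V_le h (M := M) (i := i) (fun j hj k hk => hMm j (by omega) k hk) (hδ0 i hi).le hC4.le
      (hKfa s (M i) (M (i + 1)) (hB i hi) (by linarith [hη16 i hi]))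
    refine h1.trans ?_
    have h2 := hu i hi.le
    have h3 := hδ0 i hi
    have h4 : C4 * (s / (1 - s * R (M (i + 1)))) * (1 + uw P Y M i) ≤
        C4 * (s / (1 - s * R (M (i + 1)))) * (1 + K0) :=
      mul_le_mul_of_nonneg_left (by linarith) (by positivity)
    have h5 : 0 ≤ (6 * C6 * C3 * (1 + K0) + 2 + C5) * (s / (1 - s * R (M (i + 1)))) := by positivity
    linarith
  · have h1 := (D0_le h (M 0)).2
    refine h1.trans ?_
    have hx : s * R (M 0) ≤ 1 / 16 := hx0.trans (min_le_right _ _)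
    have hRn : 0 ≤ R (M 0) := Helper17.QC.Qs_nonneg _ _
    have hx' : 0 ≤ s * R (M 0) := by positivity
    have h2 := Helper76.QC.Kf_zero_le hs.le (show s * R (M 0) < 1 by linarith)
    have h3 : 1 / (1 - s * R (M 0)) ≤ 1 + 4 * (s * R (M 0)) := by
      rw [div_le_iff₀ (by linarith)]
      nlinarith
    have h4 : Kf s (M 0) 0 ≤ 2 ^ 2 * (s * R (M 0)) := by linarith
    have h5 : √(Kf s (M 0) 0) ≤ 2 * √(s * R (M 0)) := by
      refine (Real.sqrt_le_sqrt h4).trans ?_
      rw [Real.sqrt_mul (by norm_num), Real.sqrt_sq (by norm_num)]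
    have h6 := Real.sqrt_nonneg (s * R (M 0))
    have h7 : 0 ≤ (6 * C6 * C3 * (1 + K0) + C4 * (1 + K0) + C5) * √(s * R (M 0)) := by positivity
    linarith
  · have h1 := hale s (M i) (M (i + 1)) (hB i hi) (by linarith [hη16 i hi])
    refine ⟨h1.1, h1.2.trans ?_⟩
    have h6 := Real.sqrt_nonneg (s / (1 - s * R (M (i + 1))))
    have h7 : 0 ≤ (6 * C6 * C3 * (1 + K0) + C4 * (1 + K0) + 2) * √(s / (1 - s * R (M (i + 1)))) := by positivity
    linarith

end Pool.Agent.Helper97.QC
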