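import Pool.Agent.Helper97.QC.FinN2
import Pool.Agent.Helper72.QC.B
import Pool.Agent.Helper97.QC.F4

/-! Final assembly. -/

set_option autoImplicit false
set_option linter.unusedSectionVars false

open MeasureTheory ProbabilityTheory Filter Finset Topology

namespace Pool.Agent.Helper97.QC

open Pool.Agent.Helper97.CP

variable {Ω : Type*} [mΩ : MeasurableSpace Ω] {P : Measure Ω} [IsProbabilityMeasure P]

theorem av2_meas (Y : ℕ → Z2 → Ω → ℝ) (n : ℕ) (Φ : Z2 → Z2 → ℝ) :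
    Measurable[past Y n] (fun w => av2 (ev Y w) n Φ) := by
  have key : ∀ {m : MeasurableSpace Ω} (p : Z2 → Ω → ℝ), (∀ x, Measurable[m] (p x)) →
      Measurable[m] (fun w => ∑ x ∈ bx n, ∑ y ∈ bx n, p x w * p y w * Φ x y) := by
    intro m p hp
    apply Finset.measurable_sum
    intro x _
    apply Finset.measurable_sum
    intro y _
    exact ((hp x).mul (hp y)).mul_const _
  exact key (fun x w => pq (ev Y w) n x) (fun x => meas_pq n x)

theorem av2_bdd {Y : ℕ → Z2 → Ω → ℝ} {s C : ℝ} (h : PEnv P Y s C) (n : ℕ) (Φ : Z2 → Z2 → ℝ) :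
    ∃ K, ∀ w, |av2 (ev Y w) n Φ| ≤ K := by
  refine ⟨∑ x ∈ bx n, ∑ y ∈ bx n, |Φ x y|, fun w => ?_⟩
  have hb : ∀ x, x ∈ bx n → |pq (ev Y w) n x| ≤ 1 := by
    intro x hx
    rw [abs_of_nonneg (Helper17.QC.pq_nonneg (ev_pos h w) n x)]
    rw [← Helper17.QC.pq_sum (ev_pos h w) n]
    exact Finset.single_le_sum (f := fun x => pq (ev Y w) n x)
      (fun x _ => Helper17.QC.pq_nonneg (ev_pos h w) n x) hx
  unfold av2
  refine (Finset.abs_sum_le_sum_abs _ _).trans (Finset.sum_le_sum fun x hx => ?_)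
  refine (Finset.abs_sum_le_sum_abs _ _).trans (Finset.sum_le_sum fun y hy => ?_)
  rw [abs_mul, abs_mul]
  exact mul_le_of_le_one_left (abs_nonneg _) (mul_le_one₀ (hb x hx) (abs_nonneg _) (hb y hy))

/-- properties of the blocks at level `η` -/
def Bk (R : ℕ → ℝ) (s ϑ : ℕ → ℝ) (I : ℕ → ℕ) (M : ℕ → ℕ → ℕ) (C η : ℝ) (N : ℕ) : Prop :=
  0 < s N ∧ s N ≤ η ∧ M N (I N) = N ∧ 1 ≤ M N 0 ∧ (∀ i < I N, 16 * M N i ≤ M N (i + 1)) ∧
      (∀ i ≤ I N, s N * R (M N i) < 1) ∧ s N * R (M N 0) ≤ η ∧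
      (∀ i < I N, s N / (1 - s N * R (M N (i + 1))) ≤ η ∧
        √(s N / (1 - s N * R (M N (i + 1)))) * Real.log (M N (i + 1) / M N i) ≤ C ∧
        1 / √(s N / (1 - s N * R (M N (i + 1)))) ≤
          (M N (i + 1) : ℝ) ^ √(s N / (1 - s N * R (M N (i + 1))))) ∧
      ∑ i ∈ range (I N), s N / (1 - s N * R (M N (i + 1))) ≤ η ∧
      |∑ i ∈ range (I N), s N / (1 - s N * R (M N (i + 1))) * (R (M N (i + 1)) - R (M N i)) -
        Real.log (Real.log N / ϑ N)| ≤ η

theorem Rdef_zero : R 0 = 0 := by unfold R Qs; simp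

theorem Rdef_succ (n : ℕ) : R (n + 1) - R n = q (n + 1) 0 := by
  unfold R Qs
  rw [Finset.sum_Icc_succ_top (by omega)]
  ring

theorem blocks' (s ϑ : ℕ → ℝ) (hs : ∀ᶠ N : ℕ in atTop, s N = 1 / R N * (1 - ϑ N / Real.log N))
    (hϑ : Tendsto ϑ atTop atTop) (hϑ' : Tendsto (fun N : ℕ => ϑ N / Real.log N) atTop (𝓝 0)) :
    ∃ (I : ℕ → ℕ) (M : ℕ → ℕ → ℕ) (C : ℝ), 0 < C ∧ ∀ η : ℝ, 0 < η → ∀ᶠ N : ℕ in atTop, Bk R s ϑ I M C η N := by
  refine Helper72.QC.blocks R Rdef_zero (fun n => ?_) s ϑ hs hϑ hϑ'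
  rw [Rdef_succ]
  have := Helper17.QC.q_zero_bounds (show 1 ≤ n + 1 by omega)
  push_cast at this
  exact this

theorem Bk_mono {s ϑ : ℕ → ℝ} {I : ℕ → ℕ} {M : ℕ → ℕ → ℕ} {C η : ℝ} {N : ℕ} (h : Bk R s ϑ I M C η N) :
    ∀ i ≤ I N, ∀ k ≤ i, M N k ≤ M N i := by
  intro i
  induction i with
  | zero => intro _ k hk; have : k = 0 := by omega
            subst this; exact le_rfl
  | succ i ih =>
    intro hi k hk
    rcases Nat.lt_or_eq_of_le hk with hk | hk
    · have h1 := ih (by omega) k (by omega)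
      have h2 := h.2.2.2.2.1 i (by omega)
      omega
    · subst hk; exact le_rfl

theorem Bk_one_le {s ϑ : ℕ → ℝ} {I : ℕ → ℕ} {M : ℕ → ℕ → ℕ} {C η : ℝ} {N : ℕ} (h : Bk R s ϑ I M C η N) :
    ∀ i ≤ I N, 1 ≤ M N i := fun i hi => h.2.2.2.1.trans (Bk_mono h i hi 0 (Nat.zero_le _))

theorem Bk_Blk {s ϑ : ℕ → ℝ} {I : ℕ → ℕ} {M : ℕ → ℕ → ℕ} {C η : ℝ} {N : ℕ} (h : Bk R s ϑ I M C η N) :
    ∀ i < I N, Blk (s N) (M N i) (M N (i + 1)) C := fun i hi =>
  ⟨h.1, Bk_one_le h i hi.le, h.2.2.2.2.1 i hi, h.2.2.2.2.2.1 (i + 1) hi, (h.2.2.2.2.2.2.2.1 i hi).2.1,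
    (h.2.2.2.2.2.2.2.1 i hi).2.2⟩

/-- convergence of the characteristic function -/
theorem final_char (μ : Measure ℝ) [IsProbabilityMeasure μ] (h0 : ∫ x, x ∂μ = 0)
    (h1 : ∫ x, x ^ 2 ∂μ = 1) (hi : ∀ β : ℝ, 0 ≤ β → Integrable (fun x => Real.exp (β * x)) μ)
    (om : ℕ → Z2 → Ω → ℝ) (hom : ∀ n x, Measurable (om n x))
    (hind : iIndepFun (fun p : ℕ × Z2 => om p.1 p.2) P) (hlaw : ∀ n x, P.map (om n x) = μ)
    (β ϑ : ℕ → ℝ) (hβ : ∀ N, 0 ≤ β N)
    (hϑ : Tendsto ϑ atTop atTop) (hϑ' : Tendsto (fun N : ℕ => ϑ N / Real.log N) atTop (𝓝 0))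
    (hs : ∀ᶠ N : ℕ in atTop, Real.exp (Real.log (∫ x, Real.exp (2 * β N * x) ∂μ) -
      2 * Real.log (∫ x, Real.exp (β N * x) ∂μ)) - 1 = 1 / R N * (1 - ϑ N / Real.log N)) (τ : ℝ) :
    Tendsto (fun N : ℕ => ∫ w, Complex.exp (Complex.I * τ *
      (((Real.log (Dw (fun n x w => Real.exp (β N * om n x w - Real.log (∫ x, Real.exp (β N * x) ∂μ))) N w) +
        √(Real.log (Real.log N / ϑ N)) ^ 2 / 2) / √(Real.log (Real.log N / ϑ N)) : ℝ) : ℂ)) ∂P) atTop
      (𝓝 (Complex.exp (-(τ : ℂ) ^ 2 / 2))) := by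
  classical
  obtain ⟨CE, s0, hCE, hs0, hpenv⟩ := Helper79.QC.penv_of_law P μ h0 h1 hi om hom hind hlaw
  set s : ℕ → ℝ := fun N => Real.exp (Real.log (∫ x, Real.exp (2 * β N * x) ∂μ) -
      2 * Real.log (∫ x, Real.exp (β N * x) ∂μ)) - 1 with hsdef
  set Y : ℕ → ℕ → Z2 → Ω → ℝ := fun N n x w =>
    Real.exp (β N * om n x w - Real.log (∫ x, Real.exp (β N * x) ∂μ)) with hYdef
  have hP1 : ∀ N, ∃ C', PEnv P (Y N) (s N) C' := fun N => (hpenv (β N) (hβ N)).1
  have hP2 : ∀ N, s N ≤ s0 → PEnv P (Y N) (s N) CE := fun N => (hpenv (β N) (hβ N)).2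
  obtain ⟨I, M, CB, hCB, hblk⟩ := blocks' s ϑ hs hϑ hϑ'
  obtain ⟨K, η, hK, hη, hfin⟩ := fin_bounds P CE CB hCE.le
  set η1 := min η s0 with hη1
  have hη1p : 0 < η1 := lt_min hη hs0
  set good : ℕ → Prop := fun N => Bk R s ϑ I M CB η1 N with hgood
  set I' : ℕ → ℕ := fun N => if good N then I N else 0 with hI'
  set M' : ℕ → ℕ → ℕ := fun N i => if good N then M N (min i (I N)) else N with hM'
  have hI'g : ∀ N, good N → I' N = I N := fun N hg => if_pos hg
  have hI'b : ∀ N, ¬ good N → I' N = 0 := fun N hg => if_neg hg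
  have hM'g : ∀ N, good N → ∀ i ≤ I N, M' N i = M N i := fun N hg i hi => by
    show (if good N then M N (min i (I N)) else N) = _
    rw [if_pos hg, min_eq_left hi]
  have hM'b : ∀ N, ¬ good N → ∀ i, M' N i = N := fun N hg i => if_neg hg
  have hgI : ∀ N i, i < I' N → good N := fun N i hi => by
    by_contra hg
    rw [hI'b N hg] at hi
    omega
  have hmono' : ∀ N i, M' N i ≤ M' N (i + 1) := by
    intro N i
    by_cases hg : good N
    · show (if good N then M N (min i (I N)) else N) ≤ (if good N then M N (min (i + 1) (I N)) else N)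
      rw [if_pos hg, if_pos hg]
      exact Bk_mono hg _ (min_le_right _ _) _ (min_le_min (by omega) le_rfl)
    · rw [hM'b N hg, hM'b N hg]
  have hlast : ∀ N, M' N (I' N) = N := by
    intro N
    by_cases hg : good N
    · rw [hI'g N hg, hM'g N hg _ le_rfl]
      exact hg.2.2.1
    · exact hM'b N hg _
  have hstep : ∀ N i, M' N i + (M' N (i + 1) - M' N i) = M' N (i + 1) := fun N i => by
    have := hmono' N i
    omega
  set lam : ℕ → ℝ := fun N => √(Real.log (Real.log N / ϑ N)) with hlam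
  set a : ℕ → ℕ → ℝ := fun N i => if i < I' N then
    s N / (1 - s N * R (M' N (i + 1))) * (R (M' N (i + 1)) - R (M' N i)) else 0 with ha
  -- conclusions of the finite size bounds
  have hF : ∀ N, good N → _ := fun N hg => hfin (Y N) (s N) (M' N) (I' N)
    (hP2 N (hg.2.1.trans (min_le_right _ _))) hg.1 (hg.2.1.trans (min_le_left _ _))
    (by rw [hM'g N hg 0 (Nat.zero_le _)]; exact hg.2.2.2.2.2.2.1.trans (min_le_left _ _))
    (by rw [hM'g N hg 0 (Nat.zero_le _)]; exact hg.2.2.2.1)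
    (fun i hi => by
      rw [hI'g N hg] at hi
      rw [hM'g N hg i hi.le, hM'g N hg (i + 1) hi]
      exact Bk_Blk hg i hi)
    (fun i hi => by
      rw [hI'g N hg] at hi
      rw [hM'g N hg (i + 1) hi]
      exact (hg.2.2.2.2.2.2.2.1 i hi).1.trans (min_le_left _ _))
  -- logarithm
  have hratio : Tendsto (fun N : ℕ => Real.log N / ϑ N) atTop atTop := by
    have h1 : Tendsto (fun N : ℕ => (ϑ N / Real.log N)⁻¹) atTop atTop := by
      apply Tendsto.inv_tendsto_nhdsGT_zero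
      rw [tendsto_nhdsWithin_iff]
      refine ⟨hϑ', ?_⟩
      filter_upwards [hϑ.eventually_gt_atTop 0, eventually_ge_atTop 2] with N h1 h2
      have : 0 < Real.log N := Real.log_pos (by exact_mod_cast (by omega : 1 < N))
      exact div_pos h1 this
    refine h1.congr fun N => ?_
    rw [inv_div]
  have hloglog : Tendsto (fun N : ℕ => Real.log (Real.log N / ϑ N)) atTop atTop :=
    Real.tendsto_log_atTop.comp hratio
  have hlamt : Tendsto lam atTop atTop := Real.tendsto_sqrt_atTop.comp hloglog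
  have hlamsq : ∀ᶠ N in atTop, lam N ^ 2 = Real.log (Real.log N / ϑ N) := by
    filter_upwards [hloglog.eventually_ge_atTop 0] with N h
    exact Real.sq_sqrt h
  have ha0 : ∀ N i, 0 ≤ a N i := by
    intro N i
    show 0 ≤ if i < I' N then _ else _
    split_ifs with hi
    · exact ((hF N (hgI N i hi)).2.2.2 i hi).1
    · exact le_rfl
  -- squeeze helper
  have squeeze : ∀ f : ℕ → ℝ, (∀ ε : ℝ, 0 < ε → ∀ᶠ N in atTop, |f N| ≤ ε) → Tendsto f atTop (𝓝 0) := by
    intro f hf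
    rw [Metric.tendsto_nhds]
    intro ε hε
    filter_upwards [hf (ε / 2) (by positivity)] with N hN
    rw [Real.dist_eq, sub_zero]
    linarith
  have evG : ∀ ε : ℝ, 0 < ε → ∀ᶠ N in atTop, good N ∧ Bk R s ϑ I M CB ε N := fun ε hε =>
    (hblk η1 hη1p).and (hblk ε hε)
  have main := log_clt (P := P) I' (fun N i => Dw (Y N) (M' N i))
    (fun N i w => av2 (ev (Y N) w) (M' N i) (fun x y => Kf (s N) (M' N (i + 1) - M' N i) (x - y))) a lam
    (fun N i => past (Y N) (M' N i)) (fun N i => by obtain ⟨C', h⟩ := hP1 N; exact past_le h _)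
    (fun N i => past_mono (hmono' N i)) (fun N i => Dw_meas _)
    (fun N i w => by obtain ⟨C', h⟩ := hP1 N; exact Dw_pos h _ w)
    (fun N i => av2_meas _ _ _) (fun N i => by obtain ⟨C', h⟩ := hP1 N; exact av2_bdd h _ _)
    (fun N i => by
      obtain ⟨C', h⟩ := hP1 N
      have := int_X4 h (M' N i) (M' N (i + 1) - M' N i)
      rw [hstep] at this
      exact this)
    (fun N => by obtain ⟨C', h⟩ := hP1 N; exact (D0_le h _).1)
    (fun N i hi g hg hb => by
      obtain ⟨C', h⟩ := hP1 N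
      have := cond_X h (M' N i) (M' N (i + 1) - M' N i) hg hb
      rw [hstep] at this
      exact this)
    (fun N i hi g hg hb => by
      obtain ⟨C', h⟩ := hP1 N
      have := cond_X2 h (M' N i) (M' N (i + 1) - M' N i) hg hb
      rw [hstep] at this
      exact this)
    (fun N i => Gw (Y N) (M' N) i) (fun N i => rfl) hlamt ha0
    (squeeze _ fun ε hε => by
      filter_upwards [evG ((ε / K) ^ 2) (by positivity)] with N ⟨hg, hb⟩
      have h1 := (hF N hg).2.2.1
      rw [abs_of_nonneg (integral_nonneg fun w => abs_nonneg _)]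
      refine h1.trans ?_
      have h2 : √(s N * R (M' N 0)) ≤ ε / K := by
        rw [← Real.sqrt_sq (show 0 ≤ ε / K by positivity), hM'g N hg 0 (Nat.zero_le _)]
        exact Real.sqrt_le_sqrt hb.2.2.2.2.2.2.1
      calc K * √(s N * R (M' N 0)) ≤ K * (ε / K) := mul_le_mul_of_nonneg_left h2 hK.le
        _ = ε := by field_simp)
    (squeeze _ fun ε hε => by
      filter_upwards [evG (ε / K) (by positivity)] with N ⟨hg, hb⟩
      have h1 := (hF N hg).1
      rw [abs_of_nonneg (Finset.sum_nonneg fun i _ => integral_nonneg fun w => by positivity)]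
      refine (Finset.sum_le_sum fun i hi => h1 i (Finset.mem_range.1 hi)).trans ?_
      rw [← Finset.mul_sum]
      have h2 : ∑ i ∈ range (I' N), s N / (1 - s N * R (M' N (i + 1))) ≤ ε / K := by
        rw [hI'g N hg]
        refine le_trans (le_of_eq ?_) hb.2.2.2.2.2.2.2.2.1
        apply Finset.sum_congr rfl
        intro i hi
        rw [hM'g N hg (i + 1) (Finset.mem_range.1 hi)]
      calc K * _ ≤ K * (ε / K) := mul_le_mul_of_nonneg_left h2 hK.le
        _ = ε := by field_simp)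
    (squeeze _ fun ε hε => by
      filter_upwards [evG (ε / K) (by positivity)] with N ⟨hg, hb⟩
      have h1 := (hF N hg).2.1
      rw [abs_of_nonneg (Finset.sum_nonneg fun i _ => integral_nonneg fun w => abs_nonneg _)]
      have h3 : ∀ i ∈ range (I' N), ∫ w in Gw (Y N) (M' N) i, |av2 (ev (Y N) w) (M' N i)
          (fun x y => Kf (s N) (M' N (i + 1) - M' N i) (x - y)) - a N i| ∂P ≤
          K * (s N / (1 - s N * R (M' N (i + 1)))) := by
        intro i hi
        have : a N i = s N / (1 - s N * R (M' N (i + 1))) * (R (M' N (i + 1)) - R (M' N i)) :=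
          if_pos (Finset.mem_range.1 hi)
        rw [this]
        exact h1 i (Finset.mem_range.1 hi)
      refine (Finset.sum_le_sum h3).trans ?_
      rw [← Finset.mul_sum]
      have h2 : ∑ i ∈ range (I' N), s N / (1 - s N * R (M' N (i + 1))) ≤ ε / K := by
        rw [hI'g N hg]
        refine le_trans (le_of_eq ?_) hb.2.2.2.2.2.2.2.2.1
        apply Finset.sum_congr rfl
        intro i hi
        rw [hM'g N hg (i + 1) (Finset.mem_range.1 hi)]
      calc K * _ ≤ K * (ε / K) := mul_le_mul_of_nonneg_left h2 hK.le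
        _ = ε := by field_simp)
    (squeeze _ fun ε hε => by
      filter_upwards [evG ε hε, hlamsq] with N ⟨hg, hb⟩ hl
      rw [hl]
      refine le_trans (le_of_eq ?_) hb.2.2.2.2.2.2.2.2.2
      congr 2
      rw [hI'g N hg]
      apply Finset.sum_congr rfl
      intro i hi
      have hi' := Finset.mem_range.1 hi
      show (if i < I' N then _ else _) = _
      rw [hI'g N hg, if_pos hi', hM'g N hg (i + 1) hi', hM'g N hg i hi'.le])
    (fun ε hε => by
      filter_upwards [evG ((ε / K) ^ 2) (by positivity)] with N ⟨hg, hb⟩ i hi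
      have h1 := ((hF N hg).2.2.2 i hi).2
      have h2 : a N i = s N / (1 - s N * R (M' N (i + 1))) * (R (M' N (i + 1)) - R (M' N i)) := if_pos hi
      rw [h2]
      refine h1.trans ?_
      rw [hI'g N hg] at hi
      have h3 : √(s N / (1 - s N * R (M' N (i + 1)))) ≤ ε / K := by
        rw [← Real.sqrt_sq (show 0 ≤ ε / K by positivity), hM'g N hg (i + 1) hi]
        exact Real.sqrt_le_sqrt (hb.2.2.2.2.2.2.2.1 i hi).1
      calc K * _ ≤ K * (ε / K) := mul_le_mul_of_nonneg_left h3 hK.le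
        _ = ε := by field_simp)
    τ
  simp only [hlast] at main
  exact main

end Pool.Agent.Helper97.QC
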