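import Pool.Agent.Helper97.QC.Base

/-! Four replicas: operators. -/

set_option autoImplicit false

open MeasureTheory ProbabilityTheory Filter Finset

namespace Pool.Agent.Helper97.QC

open Pool.Agent.Helper97.CP

abbrev X4 := Fin 4 → Z2

/-- average over one step of the coordinate `c` -/
noncomputable def Ac (c : Fin 4) (Ψ : X4 → ℝ) (x : X4) : ℝ :=
  (1 / 4) * ∑ e : E4, Ψ (Function.update x c (x c + stp e))

/-- one step of four independent walks -/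
noncomputable def PP (Ψ : X4 → ℝ) : X4 → ℝ := Ac 0 (Ac 1 (Ac 2 (Ac 3 Ψ)))

theorem Ac_mono {c : Fin 4} {Ψ Φ : X4 → ℝ} (h : ∀ y, Ψ y ≤ Φ y) (x : X4) : Ac c Ψ x ≤ Ac c Φ x := by
  unfold Ac
  exact mul_le_mul_of_nonneg_left (Finset.sum_le_sum fun e _ => h _) (by norm_num)

theorem Ac_const (c : Fin 4) (r : ℝ) : Ac c (fun _ => r) = fun _ => r := by
  funext x
  unfold Ac
  simp only [Finset.sum_const, Finset.card_univ, Fintype.card_fin,
    Fintype.card_prod, Fintype.card_bool, nsmul_eq_mul]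
  push_cast
  ring

theorem Ac_add (c : Fin 4) (Ψ Φ : X4 → ℝ) : Ac c (fun y => Ψ y + Φ y) = fun x => Ac c Ψ x + Ac c Φ x := by
  funext x
  unfold Ac
  rw [Finset.sum_add_distrib, mul_add]

theorem Ac_mul_left (c : Fin 4) (r : ℝ) (Ψ : X4 → ℝ) : Ac c (fun y => r * Ψ y) = fun x => r * Ac c Ψ x := by
  funext x
  unfold Ac
  rw [← Finset.mul_sum]
  ring

/-- a function which does not depend on the coordinate `c` -/
def Ind (c : Fin 4) (φ : X4 → ℝ) : Prop := ∀ x v, φ (Function.update x c v) = φ x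

theorem Ac_ind {c : Fin 4} {φ : X4 → ℝ} (h : Ind c φ) (Ψ : X4 → ℝ) :
    Ac c (fun y => φ y * Ψ y) = fun x => φ x * Ac c Ψ x := by
  funext x
  unfold Ac
  simp only [h x]
  rw [← Finset.mul_sum]
  ring

theorem Ac_ind' {c : Fin 4} {φ : X4 → ℝ} (h : Ind c φ) : Ac c φ = φ := by
  have h1 := Ac_ind h (fun _ => 1)
  simp only [mul_one, Ac_const] at h1
  exact h1

theorem Ac_comm (a b : Fin 4) (Ψ : X4 → ℝ) : Ac a (Ac b Ψ) = Ac b (Ac a Ψ) := by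
  by_cases hab : a = b
  · subst hab; rfl
  funext x
  unfold Ac
  simp only [Finset.mul_sum]
  rw [Finset.sum_comm]
  apply Finset.sum_congr rfl
  intro e _
  apply Finset.sum_congr rfl
  intro e' _
  rw [Function.update_of_ne (Ne.symm hab), Function.update_of_ne hab,
    Function.update_comm (Ne.symm hab)]

theorem PP_mono {Ψ Φ : X4 → ℝ} (h : ∀ y, Ψ y ≤ Φ y) (x : X4) : PP Ψ x ≤ PP Φ x :=
  Ac_mono (Ac_mono (Ac_mono (Ac_mono h))) x

theorem PP_const (r : ℝ) : PP (fun _ => r) = fun _ => r := by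
  unfold PP
  simp only [Ac_const]

theorem PP_add (Ψ Φ : X4 → ℝ) : PP (fun y => Ψ y + Φ y) = fun x => PP Ψ x + PP Φ x := by
  unfold PP
  simp only [Ac_add]

theorem PP_mul_left (r : ℝ) (Ψ : X4 → ℝ) : PP (fun y => r * Ψ y) = fun x => r * PP Ψ x := by
  unfold PP
  simp only [Ac_mul_left]

theorem PP_sub (Ψ Φ : X4 → ℝ) : PP (fun y => Ψ y - Φ y) = fun x => PP Ψ x - PP Φ x := by
  have h1 := PP_add Ψ (fun y => (-1) * Φ y)
  have h2 := PP_mul_left (-1) Φ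
  rw [h2] at h1
  funext x
  have h3 := congrFun h1 x
  simp only at h3
  rw [show (fun y => Ψ y - Φ y) = fun y => Ψ y + (-1) * Φ y from funext fun y => by ring, h3]
  ring

theorem PP_sum {ι : Type*} (t : Finset ι) (f : ι → X4 → ℝ) :
    PP (fun y => ∑ i ∈ t, f i y) = fun x => ∑ i ∈ t, PP (f i) x := by
  classical
  induction t using Finset.induction_on with
  | empty => simp only [Finset.sum_empty]; exact PP_const 0
  | insert a t ha ih =>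
    simp only [Finset.sum_insert ha]
    rw [PP_add, ih]

theorem PP_nonneg {Ψ : X4 → ℝ} (h : ∀ y, 0 ≤ Ψ y) (x : X4) : 0 ≤ PP Ψ x := by
  have := PP_mono (Ψ := fun _ => 0) h x
  rwa [PP_const] at this

theorem abs_PP_le (Ψ : X4 → ℝ) (x : X4) : |PP Ψ x| ≤ PP (fun y => |Ψ y|) x := by
  rw [abs_le]
  constructor
  · have h1 := PP_mono (Ψ := fun y => (-1) * |Ψ y|) (Φ := Ψ) (fun y => by
      have := neg_abs_le (Ψ y); linarith) x
    rw [PP_mul_left] at h1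
    simp only at h1
    linarith
  · exact PP_mono (fun y => le_abs_self _) x

/-- the coordinate `c` can be averaged first -/
theorem PP_split (c : Fin 4) : ∃ P' : (X4 → ℝ) → X4 → ℝ,
    (∀ Ψ Φ : X4 → ℝ, (∀ y, Ψ y ≤ Φ y) → ∀ x, P' Ψ x ≤ P' Φ x) ∧ ∀ Ψ, PP Ψ = P' (Ac c Ψ) := by
  fin_cases c
  · refine ⟨fun Ψ => Ac 1 (Ac 2 (Ac 3 Ψ)), fun Ψ Φ h x => Ac_mono (Ac_mono (Ac_mono h)) x, fun Ψ => ?_⟩
    unfold PP
    show Ac 0 (Ac 1 (Ac 2 (Ac 3 Ψ))) = Ac 1 (Ac 2 (Ac 3 (Ac 0 Ψ)))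
    rw [Ac_comm 0 1, Ac_comm 0 2, Ac_comm 0 3]
  · refine ⟨fun Ψ => Ac 0 (Ac 2 (Ac 3 Ψ)), fun Ψ Φ h x => Ac_mono (Ac_mono (Ac_mono h)) x, fun Ψ => ?_⟩
    unfold PP
    show Ac 0 (Ac 1 (Ac 2 (Ac 3 Ψ))) = Ac 0 (Ac 2 (Ac 3 (Ac 1 Ψ)))
    rw [Ac_comm 1 2, Ac_comm 1 3]
  · refine ⟨fun Ψ => Ac 0 (Ac 1 (Ac 3 Ψ)), fun Ψ Φ h x => Ac_mono (Ac_mono (Ac_mono h)) x, fun Ψ => ?_⟩
    unfold PP
    show Ac 0 (Ac 1 (Ac 2 (Ac 3 Ψ))) = Ac 0 (Ac 1 (Ac 3 (Ac 2 Ψ)))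
    rw [Ac_comm 2 3]
  · exact ⟨fun Ψ => Ac 0 (Ac 1 (Ac 2 Ψ)), fun Ψ Φ h x => Ac_mono (Ac_mono (Ac_mono h)) x, fun Ψ => rfl⟩

theorem Ac_PP (c : Fin 4) (Ψ : X4 → ℝ) : Ac c (PP Ψ) = PP (Ac c Ψ) := by
  unfold PP
  rw [Ac_comm c 0, Ac_comm c 1, Ac_comm c 2, Ac_comm c 3]

theorem ind_pair {a b c : Fin 4} (ha : c ≠ a) (hb : c ≠ b) (u : Z2 → ℝ) : Ind c (fun x => u (x a - x b)) := by
  intro x v
  simp only
  rw [Function.update_of_ne ha.symm, Function.update_of_ne hb.symm]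

theorem Ac_Ac_pair {a b : Fin 4} (hab : a ≠ b) (u : Z2 → ℝ) :
    Ac a (Ac b (fun x => u (x a - x b))) = fun x => Q u (x a - x b) := by
  funext x
  unfold Ac Q
  simp only [Function.update_self, Function.update_of_ne hab, Function.update_of_ne (Ne.symm hab)]
  rw [← Finset.mul_sum, ← mul_assoc]
  congr 1
  · norm_num
  · apply Finset.sum_congr rfl
    intro e _
    apply Finset.sum_congr rfl
    intro e' _
    congr 1
    abel

theorem PP_perm {l : List (Fin 4)} (h : l.Perm [0, 1, 2, 3]) (Ψ : X4 → ℝ) : PP Ψ = l.foldr Ac Ψ := by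
  have : LeftCommutative Ac := ⟨fun a b Ψ => Ac_comm a b Ψ⟩
  rw [h.foldr_eq Ψ]
  rfl

theorem exists_perm : ∀ a b : Fin 4, a ≠ b → ∃ c d : Fin 4, [a, b, c, d].Perm [0, 1, 2, 3] ∧
    c ≠ a ∧ c ≠ b ∧ d ≠ a ∧ d ≠ b := by
  decide

theorem PP_pair {a b : Fin 4} (hab : a ≠ b) (u : Z2 → ℝ) :
    PP (fun x => u (x a - x b)) = fun x => Q u (x a - x b) := by
  obtain ⟨c, d, hp, h1, h2, h3, h4⟩ := exists_perm a b hab
  rw [PP_perm hp]
  show Ac a (Ac b (Ac c (Ac d (fun x => u (x a - x b))))) = _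
  rw [Ac_ind' (ind_pair h3 h4 u), Ac_ind' (ind_pair h1 h2 u)]
  exact Ac_Ac_pair hab u

end Pool.Agent.Helper97.QC
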