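import Pool.Agent.Helper97.QC.Four

/-! Four replicas: the supersolution. -/

set_option autoImplicit false

open MeasureTheory ProbabilityTheory Filter Finset

namespace Pool.Agent.Helper97.QC

open Pool.Agent.Helper97.CP

theorem i0_nonneg (z : Z2) : 0 ≤ i0 z := by unfold i0; split_ifs <;> norm_num
theorem i0_le (z : Z2) : i0 z ≤ 1 := by unfold i0; split_ifs <;> norm_num

/-- pairs of replicas -/
def prs : Finset (Fin 4 × Fin 4) := univ.filter fun p => p.1 < p.2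

theorem prs_ne {J : Fin 4 × Fin 4} (h : J ∈ prs) : J.1 ≠ J.2 := by
  unfold prs at h
  exact ne_of_lt (Finset.mem_filter.1 h).2

theorem prs_card : prs.card = 6 := by decide

theorem exists_other : ∀ J I : Fin 4 × Fin 4, J ∈ prs → I ∈ prs → I ≠ J →
    (I.1 ≠ J.1 ∧ I.1 ≠ J.2) ∨ (I.2 ≠ J.1 ∧ I.2 ≠ J.2) := by
  decide

/-- indicator that the pair `J` meets -/
noncomputable def oJ (J : Fin 4 × Fin 4) (y : X4) : ℝ := i0 (y J.1 - y J.2)

theorem oJ_nonneg (J : Fin 4 × Fin 4) (y : X4) : 0 ≤ oJ J y := i0_nonneg _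

/-- dressed one step operator of the pair `J` -/
noncomputable def TJ (s : ℝ) (J : Fin 4 × Fin 4) (Ψ : X4 → ℝ) : X4 → ℝ :=
  PP (fun y => (1 + s * oJ J y) * Ψ y)

theorem TJ_mono {s : ℝ} (hs : 0 ≤ s) {J : Fin 4 × Fin 4} {Ψ Φ : X4 → ℝ} (h : ∀ y, Ψ y ≤ Φ y) (x : X4) :
    TJ s J Ψ x ≤ TJ s J Φ x := by
  apply PP_mono
  intro y
  apply mul_le_mul_of_nonneg_left (h y)
  have := oJ_nonneg J y
  positivity

/-- contribution of the meetings of `J` at time `m+1`, weighted by `Ψ` -/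
noncomputable def UJ (s : ℝ) (J : Fin 4 × Fin 4) (Ψ : X4 → ℝ) : ℕ → X4 → ℝ
  | 0 => PP (fun y => s * oJ J y * Ψ y)
  | m + 1 => TJ s J (UJ s J Ψ m)

theorem Ac_oJ {s : ℝ} {J : Fin 4 × Fin 4} {c : Fin 4} (h1 : c ≠ J.1) (h2 : c ≠ J.2) (Ψ : X4 → ℝ) :
    Ac c (fun y => (1 + s * oJ J y) * Ψ y) = fun y => (1 + s * oJ J y) * Ac c Ψ y :=
  Ac_ind (ind_pair h1 h2 fun z => 1 + s * i0 z) Ψ

theorem Ac_UJ {s : ℝ} {J : Fin 4 × Fin 4} {c : Fin 4} (h1 : c ≠ J.1) (h2 : c ≠ J.2) (Ψ : X4 → ℝ) (m : ℕ) :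
    Ac c (UJ s J Ψ m) = UJ s J (Ac c Ψ) m := by
  induction m with
  | zero =>
    show Ac c (PP _) = PP _
    rw [Ac_PP]
    congr 1
    exact Ac_ind (ind_pair h1 h2 fun z => s * i0 z) Ψ
  | succ m ih =>
    show Ac c (PP _) = PP _
    rw [Ac_PP, Ac_oJ h1 h2, ih]

theorem kk_one (s : ℝ) (z : Z2) : kk s 1 z = s * Q i0 z := by
  unfold kk Kf
  show T2 s (fun _ => 1) z - 1 - ((1 : ℝ) - 1) = _
  unfold T2
  rw [show (fun y => (1 + s * i0 y) * (1 : ℝ)) = fun y => 1 + s * i0 y from funext fun y => by ring,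
    Q_add, Q_const, Q_mul_left]
  ring

theorem kk_succ (s : ℝ) (m : ℕ) (hm : 1 ≤ m) (z : Z2) : kk s (m + 1) z = T2 s (kk s m) z := by
  obtain ⟨k, rfl⟩ : ∃ k, m = k + 1 := ⟨m - 1, by omega⟩
  have e : kk s (k + 1) = fun z => Tn s (k + 1) (fun _ => 1) z - Tn s k (fun _ => 1) z := by
    funext z
    unfold kk Kf
    simp only [Nat.add_sub_cancel]
    ring
  rw [e]
  unfold kk Kf
  simp only [Nat.add_sub_cancel]
  show T2 s (Tn s (k + 1) _) z - 1 - (T2 s (Tn s k _) z - 1) = _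
  unfold T2
  rw [show (fun y => (1 + s * i0 y) * (Tn s (k + 1) (fun _ => 1) y - Tn s k (fun _ => 1) y)) =
    fun y => (1 + s * i0 y) * Tn s (k + 1) (fun _ => 1) y - (1 + s * i0 y) * Tn s k (fun _ => 1) y from
    funext fun y => by ring, Q_sub]
  ring

theorem UJ_le {s : ℝ} (hs : 0 ≤ s) {J : Fin 4 × Fin 4} (hJ : J ∈ prs) {c : Fin 4} (h1 : c ≠ J.1) (h2 : c ≠ J.2)
    (m : ℕ) : ∀ (Ψ : X4 → ℝ) (g : ℝ), (∀ x, (Ac c)^[m + 1] Ψ x ≤ g) → ∀ x,
      UJ s J Ψ m x ≤ kk s (m + 1) (x J.1 - x J.2) * g := by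
  obtain ⟨P', hP', hPP⟩ := PP_split c
  have hne := prs_ne hJ
  induction m with
  | zero =>
    intro Ψ g hg x
    show PP (fun y => s * oJ J y * Ψ y) x ≤ _
    have e1 : Ac c (fun y => s * oJ J y * Ψ y) = fun y => s * oJ J y * Ac c Ψ y :=
      Ac_ind (ind_pair h1 h2 fun z => s * i0 z) Ψ
    rw [hPP, e1]
    have e2 : ∀ y, s * oJ J y * Ac c Ψ y ≤ s * oJ J y * g := fun y =>
      mul_le_mul_of_nonneg_left (hg y) (mul_nonneg hs (oJ_nonneg J y))
    refine (hP' _ _ e2 x).trans (le_of_eq ?_)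
    have e3 : (fun y => s * oJ J y * g) = Ac c (fun y => s * oJ J y * g) :=
      (Ac_ind' (ind_pair h1 h2 fun z => s * i0 z * g)).symm
    rw [e3, ← hPP]
    have e4 := PP_pair hne (fun z => (s * g) * i0 z)
    have e5 : (fun y => s * oJ J y * g) = fun y : X4 => (s * g) * i0 (y J.1 - y J.2) := by
      funext y; unfold oJ; ring
    rw [e5, e4, kk_one]
    show Q (fun z => s * g * i0 z) (x J.1 - x J.2) = _
    rw [Q_mul_left]
    ring
  | succ m ih =>
    intro Ψ g hg x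
    show PP (fun y => (1 + s * oJ J y) * UJ s J Ψ m y) x ≤ _
    rw [hPP, Ac_oJ h1 h2, Ac_UJ h1 h2]
    have e2 : ∀ y : X4, (1 + s * oJ J y) * UJ s J (Ac c Ψ) m y ≤
        (1 + s * oJ J y) * (kk s (m + 1) (y J.1 - y J.2) * g) := fun y => by
      apply mul_le_mul_of_nonneg_left (ih (Ac c Ψ) g (fun x => ?_) y)
      · have := oJ_nonneg J y
        positivity
      · rw [← Function.iterate_succ_apply]
        exact hg x
    refine (hP' _ _ e2 x).trans (le_of_eq ?_)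
    have e3 : (fun y : X4 => (1 + s * oJ J y) * (kk s (m + 1) (y J.1 - y J.2) * g)) =
        Ac c (fun y => (1 + s * oJ J y) * (kk s (m + 1) (y J.1 - y J.2) * g)) :=
      (Ac_ind' (ind_pair h1 h2 fun z => (1 + s * i0 z) * (kk s (m + 1) z * g))).symm
    rw [e3, ← hPP]
    have e4 := PP_pair hne (fun z => (1 + s * i0 z) * (kk s (m + 1) z * g))
    show PP (fun y : X4 => (1 + s * i0 (y J.1 - y J.2)) * (kk s (m + 1) (y J.1 - y J.2) * g)) x = _
    rw [e4, kk_succ s (m + 1) (by omega)]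
    unfold T2
    show Q (fun z => (1 + s * i0 z) * (kk s (m + 1) z * g)) (x J.1 - x J.2) = _
    rw [show (fun z => (1 + s * i0 z) * (kk s (m + 1) z * g)) =
      fun z => g * ((1 + s * i0 z) * kk s (m + 1) z) from funext fun z => by ring, Q_mul_left]
    ring

/-- smoothing of one coordinate -/
theorem Ac_iter_A {c d : Fin 4} (hcd : c ≠ d) (ρ : Z2 → ℝ) (m : ℕ) (x : X4) :
    (Ac c)^[m] (fun y => ρ (y c - y d)) x = A m (fun v => ρ (v - x d)) (x c) := by
  have key : ∀ m, (Ac c)^[m] (fun y => ρ (y c - y d)) = fun x => A m (fun v => ρ (v - x d)) (x c) := by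
    intro m
    induction m with
    | zero => funext x; rw [A_zero]; rfl
    | succ m ih =>
      rw [Function.iterate_succ_apply', ih]
      funext x
      unfold Ac
      simp only [Function.update_self, Function.update_of_ne (Ne.symm hcd)]
      rw [A_succ]
  rw [key]

theorem Ac_iter_A' {c d : Fin 4} (hcd : c ≠ d) (ρ : Z2 → ℝ) (m : ℕ) (x : X4) :
    (Ac c)^[m] (fun y => ρ (y d - y c)) x = A m (fun v => ρ (x d - v)) (x c) := by
  have key : ∀ m, (Ac c)^[m] (fun y => ρ (y d - y c)) = fun x => A m (fun v => ρ (x d - v)) (x c) := by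
    intro m
    induction m with
    | zero => funext x; rw [A_zero]; rfl
    | succ m ih =>
      rw [Function.iterate_succ_apply', ih]
      funext x
      unfold Ac
      simp only [Function.update_self, Function.update_of_ne (Ne.symm hcd)]
      rw [A_succ]
  rw [key]

/-- accumulated contribution -/
noncomputable def Th (s : ℝ) (J : Fin 4 × Fin 4) (Ψ : X4 → ℝ) : ℕ → X4 → ℝ
  | 0 => fun _ => 0
  | t + 1 => PP (fun y => (1 + s * oJ J y) * Th s J Ψ t y + s * oJ J y * Ψ y)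

theorem Th_eq (s : ℝ) (J : Fin 4 × Fin 4) (Ψ : X4 → ℝ) (t : ℕ) (x : X4) :
    Th s J Ψ t x = ∑ m ∈ range t, UJ s J Ψ m x := by
  have key : Th s J Ψ t = fun x => ∑ m ∈ range t, UJ s J Ψ m x := by
    induction t with
    | zero => funext x; simp [Th]
    | succ t ih =>
      show PP _ = _
      rw [ih, PP_add]
      funext x
      rw [Finset.sum_range_succ', show (fun y => (1 + s * oJ J y) * ∑ m ∈ range t, UJ s J Ψ m y) =
        fun y => ∑ m ∈ range t, (1 + s * oJ J y) * UJ s J Ψ m y from funext fun y => Finset.mul_sum _ _ _,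
        PP_sum]
      rfl
  rw [key]

theorem Th_nonneg {s : ℝ} (hs : 0 ≤ s) (J : Fin 4 × Fin 4) {Ψ : X4 → ℝ} (hΨ : ∀ y, 0 ≤ Ψ y) (t : ℕ) (x : X4) :
    0 ≤ Th s J Ψ t x := by
  induction t generalizing x with
  | zero => exact le_rfl
  | succ t ih =>
    apply PP_nonneg
    intro y
    have := oJ_nonneg J y
    have := hΨ y
    have := ih y
    positivity

end Pool.Agent.Helper97.QC
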