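import Pool.Agent.Helper97.QC.Four2

/-! Four replicas: the bound of the remainder. -/

set_option autoImplicit false

open MeasureTheory ProbabilityTheory Filter Finset

namespace Pool.Agent.Helper97.QC

open Pool.Agent.Helper97.CP

/-- data of the potential up to time `T` -/
structure Pot (s : ℝ) (T : ℕ) (ρ : Z2 → ℝ) (g : ℕ → ℝ) (ε κ : ℝ) : Prop where
  s0 : 0 ≤ s
  nonneg : ∀ z, 0 ≤ ρ z
  le0 : ∀ z, ρ z ≤ ρ 0
  sm : ∀ (m : ℕ) (x v : Z2), A m (fun y => ρ (y - v)) x ≤ g m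
  sm' : ∀ (m : ℕ) (x v : Z2), A m (fun y => ρ (v - y)) x ≤ g m
  kknn : ∀ (m : ℕ) (z : Z2), 0 ≤ kk s m z
  sumle : ∀ t ≤ T, ∀ z, ∑ m ∈ Icc 1 t, kk s m z * g m ≤ ε * ρ z
  Kle : ∀ t ≤ T, ∀ z, Kf s t z + i0 z ≤ κ * ρ z
  Knn : ∀ (t : ℕ) (z : Z2), 0 ≤ Kf s t z
  Kmax : ∀ (t : ℕ) (z : Z2), Kf s t z ≤ Kf s t 0
  ε0 : 0 ≤ ε
  κ0 : 0 ≤ κ

variable {s ε κ : ℝ} {T : ℕ} {ρ : Z2 → ℝ} {g : ℕ → ℝ}

/-- potential of a pair -/
def rJ (ρ : Z2 → ℝ) (I : Fin 4 × Fin 4) (y : X4) : ℝ := ρ (y I.1 - y I.2)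

theorem Pot.Th_le (h : Pot s T ρ g ε κ) {J I : Fin 4 × Fin 4} (hJ : J ∈ prs) (hI : I ∈ prs) (hne : I ≠ J)
    {t : ℕ} (ht : t ≤ T) (x : X4) : Th s J (rJ ρ I) t x ≤ ε * rJ ρ J x := by
  rw [Th_eq]
  have hI' := prs_ne hI
  have key : ∀ m, UJ s J (rJ ρ I) m x ≤ kk s (m + 1) (x J.1 - x J.2) * g (m + 1) := by
    intro m
    rcases exists_other J I hJ hI hne with ⟨a1, a2⟩ | ⟨a1, a2⟩
    · refine UJ_le h.s0 hJ a1 a2 m _ _ (fun x => ?_) x
      unfold rJ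
      rw [Ac_iter_A hI']
      exact h.sm _ _ _
    · refine UJ_le h.s0 hJ a1 a2 m _ _ (fun x => ?_) x
      unfold rJ
      rw [Ac_iter_A' hI'.symm]
      exact h.sm' _ _ _
  refine (Finset.sum_le_sum fun m _ => key m).trans ?_
  have h2 := h.sumle t ht (x J.1 - x J.2)
  rw [Finset.range_eq_Ico, Finset.sum_Ico_add' (fun m => kk s m (x J.1 - x J.2) * g m) 0 t 1]
  exact h2

/-- total accumulated contribution -/
noncomputable def TT (s : ℝ) (ρ : Z2 → ℝ) (J : Fin 4 × Fin 4) (t : ℕ) (x : X4) : ℝ :=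
  ∑ I ∈ prs.erase J, Th s J (rJ ρ I) t x

theorem TT_succ (s : ℝ) (ρ : Z2 → ℝ) (J : Fin 4 × Fin 4) (t : ℕ) (x : X4) :
    TT s ρ J (t + 1) x = PP (fun y => (1 + s * oJ J y) * TT s ρ J t y +
      s * oJ J y * ∑ I ∈ prs.erase J, rJ ρ I y) x := by
  unfold TT
  have e : (fun y => (1 + s * oJ J y) * ∑ I ∈ prs.erase J, Th s J (rJ ρ I) t y +
      s * oJ J y * ∑ I ∈ prs.erase J, rJ ρ I y) =
      fun y => ∑ I ∈ prs.erase J, ((1 + s * oJ J y) * Th s J (rJ ρ I) t y + s * oJ J y * rJ ρ I y) := by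
    funext y
    rw [Finset.sum_add_distrib, Finset.mul_sum, Finset.mul_sum]
  rw [e, PP_sum]
  rfl

theorem Pot.TT_le (h : Pot s T ρ g ε κ) {J : Fin 4 × Fin 4} (hJ : J ∈ prs) {t : ℕ} (ht : t ≤ T) (x : X4) :
    TT s ρ J t x ≤ 5 * ε * rJ ρ J x := by
  unfold TT
  have h1 : ∀ I ∈ prs.erase J, Th s J (rJ ρ I) t x ≤ ε * rJ ρ J x := fun I hI =>
    h.Th_le hJ (Finset.mem_of_mem_erase hI) (Finset.ne_of_mem_erase hI) ht x
  refine (Finset.sum_le_sum h1).trans (le_of_eq ?_)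
  rw [Finset.sum_const, Finset.card_erase_of_mem hJ, prs_card]
  simp only [nsmul_eq_mul]
  push_cast
  ring

theorem Pot.TT_nonneg (h : Pot s T ρ g ε κ) (J : Fin 4 × Fin 4) (t : ℕ) (x : X4) : 0 ≤ TT s ρ J t x :=
  Finset.sum_nonneg fun I _ => Th_nonneg h.s0 J (fun y => h.nonneg _) t x

/-- indicator of two simultaneous meetings -/
noncomputable def st (y : X4) : ℝ :=
  open Classical in if ∃ J ∈ prs, ∃ I ∈ prs, I ≠ J ∧ y J.1 = y J.2 ∧ y I.1 = y I.2 then 1 else 0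

theorem st_nonneg (y : X4) : 0 ≤ st y := by unfold st; split_ifs <;> norm_num

/-- interaction source -/
noncomputable def GG (s : ℝ) (ρ : Z2 → ℝ) (y : X4) : ℝ :=
  ∑ J ∈ prs, s * oJ J y * ∑ I ∈ prs.erase J, rJ ρ I y

theorem Pot.GG_nonneg (h : Pot s T ρ g ε κ) (y : X4) : 0 ≤ GG s ρ y :=
  Finset.sum_nonneg fun J _ => mul_nonneg (mul_nonneg h.s0 (oJ_nonneg J y))
    (Finset.sum_nonneg fun I _ => h.nonneg _)

theorem Pot.st_le (h : Pot s T ρ g ε κ) (y : X4) : s * st y * ρ 0 ≤ GG s ρ y := by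
  unfold st
  split_ifs with hc
  · obtain ⟨J, hJ, I, hI, hne, h1, h2⟩ := hc
    have e1 : oJ J y = 1 := by unfold oJ i0; rw [h1]; simp
    have e2 : rJ ρ I y = ρ 0 := by unfold rJ; rw [h2]; simp
    have a1 : s * oJ J y * ∑ I ∈ prs.erase J, rJ ρ I y ≤ GG s ρ y :=
      Finset.single_le_sum (f := fun J => s * oJ J y * ∑ I ∈ prs.erase J, rJ ρ I y)
        (fun J _ => mul_nonneg (mul_nonneg h.s0 (oJ_nonneg J y)) (Finset.sum_nonneg fun I _ => h.nonneg _)) hJ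
    have a2 : rJ ρ I y ≤ ∑ I ∈ prs.erase J, rJ ρ I y :=
      Finset.single_le_sum (f := fun I => rJ ρ I y) (fun I _ => h.nonneg _)
        (Finset.mem_erase.2 ⟨hne, hI⟩)
    refine le_trans ?_ a1
    rw [e1, e2.symm]
    simp only [mul_one]
    exact mul_le_mul_of_nonneg_left a2 h.s0
  · simp only [mul_zero, zero_mul]
    exact h.GG_nonneg y

/-- properties of the interaction factor of a set `S` of replicas -/
structure Fac (s C : ℝ) (S : Finset (Fin 4)) (c : X4 → ℝ) : Prop where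
  nonneg : ∀ y, 0 ≤ c y
  near : ∀ y, |c y - 1 - ∑ J ∈ prs.filter (fun J => J.1 ∈ S ∧ J.2 ∈ S), s * oJ J y| ≤ C * s * st y
  C0 : 0 ≤ C

/-- the correlation function -/
noncomputable def FF (c : X4 → ℝ) : ℕ → X4 → ℝ
  | 0 => fun _ => 1
  | t + 1 => PP (fun y => c y * FF c t y)

theorem Kf_succ_pair (s : ℝ) (t : ℕ) {J : Fin 4 × Fin 4} (hJ : J ∈ prs) (x : X4) :
    1 + Kf s (t + 1) (x J.1 - x J.2) =
      PP (fun y => (1 + s * oJ J y) * (1 + Kf s t (y J.1 - y J.2))) x := by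
  have e := PP_pair (prs_ne hJ) (fun z => (1 + s * i0 z) * (1 + Kf s t z))
  show _ = PP (fun y => (1 + s * i0 (y J.1 - y J.2)) * (1 + Kf s t (y J.1 - y J.2))) x
  rw [e]
  unfold Kf
  show 1 + (T2 s (Tn s t _) _ - 1) = _
  unfold T2
  ring_nf

/-- the remainder -/
noncomputable def RR (s : ℝ) (S : Finset (Fin 4)) (c : X4 → ℝ) (t : ℕ) (x : X4) : ℝ :=
  FF c t x - 1 - ∑ J ∈ prs.filter (fun J => J.1 ∈ S ∧ J.2 ∈ S), Kf s t (x J.1 - x J.2)

theorem RR_zero (s : ℝ) (S : Finset (Fin 4)) (c : X4 → ℝ) (x : X4) : RR s S c 0 x = 0 := by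
  unfold RR FF Kf Tn
  simp

theorem PP_sub_one (Ψ : X4 → ℝ) (x : X4) : PP (fun y => Ψ y - 1) x = PP Ψ x - 1 := by
  have h := congrFun (PP_sub Ψ (fun _ => 1)) x
  rw [h, PP_const]

theorem PP_sub_one_sub (Ψ Φ : X4 → ℝ) (x : X4) : PP (fun y => Ψ y - 1 - Φ y) x = PP Ψ x - 1 - PP Φ x := by
  have h := congrFun (PP_sub (fun y => Ψ y - 1) Φ) x
  rw [h, PP_sub_one]

theorem RR_succ (s : ℝ) (S : Finset (Fin 4)) (c : X4 → ℝ) (t : ℕ) (x : X4) :
    RR s S c (t + 1) x = PP (fun y => c y * RR s S c t y +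
      ((c y - 1) * (1 + ∑ J ∈ prs.filter (fun J => J.1 ∈ S ∧ J.2 ∈ S), Kf s t (y J.1 - y J.2)) -
        ∑ J ∈ prs.filter (fun J => J.1 ∈ S ∧ J.2 ∈ S), s * oJ J y * (1 + Kf s t (y J.1 - y J.2)))) x := by
  have e1 : ∀ J ∈ prs.filter (fun J => J.1 ∈ S ∧ J.2 ∈ S), Kf s (t + 1) (x J.1 - x J.2) =
      PP (fun y => (1 + s * oJ J y) * (1 + Kf s t (y J.1 - y J.2)) - 1) x := by
    intro J hJ
    rw [PP_sub_one, ← Kf_succ_pair s t (Finset.mem_filter.1 hJ).1]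
    ring
  unfold RR
  rw [Finset.sum_congr rfl e1]
  show PP (fun y => c y * FF c t y) x - 1 - _ = _
  have e3 : ∑ J ∈ prs.filter (fun J => J.1 ∈ S ∧ J.2 ∈ S),
      PP (fun y => (1 + s * oJ J y) * (1 + Kf s t (y J.1 - y J.2)) - 1) x =
      PP (fun y => ∑ J ∈ prs.filter (fun J => J.1 ∈ S ∧ J.2 ∈ S),
        ((1 + s * oJ J y) * (1 + Kf s t (y J.1 - y J.2)) - 1)) x := by
    rw [PP_sum]
  rw [e3, ← PP_sub_one_sub]
  congr 1
  funext y
  have e5 : ∑ J ∈ prs.filter (fun J => J.1 ∈ S ∧ J.2 ∈ S),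
        ((1 + s * oJ J y) * (1 + Kf s t (y J.1 - y J.2)) - 1) =
      ∑ J ∈ prs.filter (fun J => J.1 ∈ S ∧ J.2 ∈ S), Kf s t (y J.1 - y J.2) +
      ∑ J ∈ prs.filter (fun J => J.1 ∈ S ∧ J.2 ∈ S), s * oJ J y * (1 + Kf s t (y J.1 - y J.2)) := by
    rw [← Finset.sum_add_distrib]
    apply Finset.sum_congr rfl
    intro J _
    ring
  rw [e5]
  ring

theorem Pot.one_add_le (h : Pot s T ρ g ε κ) (S : Finset (Fin 4)) {t : ℕ} (ht : t ≤ T) (y : X4) :
    1 + ∑ J ∈ prs.filter (fun J => J.1 ∈ S ∧ J.2 ∈ S), Kf s t (y J.1 - y J.2) ≤ 6 * (κ * ρ 0) := by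
  have h1 : ∑ J ∈ prs.filter (fun J => J.1 ∈ S ∧ J.2 ∈ S), Kf s t (y J.1 - y J.2) ≤ 6 * Kf s t 0 := by
    calc _ ≤ ∑ J ∈ prs, Kf s t (y J.1 - y J.2) :=
          Finset.sum_le_sum_of_subset_of_nonneg (Finset.filter_subset _ _) (fun J _ _ => h.Knn _ _)
      _ ≤ ∑ J ∈ prs, Kf s t 0 := Finset.sum_le_sum fun J _ => h.Kmax _ _
      _ = _ := by rw [Finset.sum_const, prs_card]; simp
  have h2 := h.Kle t ht 0
  have h3 : i0 (0 : Z2) = 1 := by unfold i0; simp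
  rw [h3] at h2
  linarith [h.Knn t 0]

/-- source term -/
theorem Pot.source_le (h : Pot s T ρ g ε κ) {C : ℝ} {S : Finset (Fin 4)} {c : X4 → ℝ} (hc : Fac s C S c)
    {t : ℕ} (ht : t ≤ T) (y : X4) :
    |(c y - 1) * (1 + ∑ J ∈ prs.filter (fun J => J.1 ∈ S ∧ J.2 ∈ S), Kf s t (y J.1 - y J.2)) -
        ∑ J ∈ prs.filter (fun J => J.1 ∈ S ∧ J.2 ∈ S), s * oJ J y * (1 + Kf s t (y J.1 - y J.2))| ≤
      (1 + 6 * C) * κ * GG s ρ y := by
  set pS := prs.filter (fun J => J.1 ∈ S ∧ J.2 ∈ S) with hpS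
  set E := c y - 1 - ∑ J ∈ pS, s * oJ J y with hE
  have e1 : (c y - 1) * (1 + ∑ J ∈ pS, Kf s t (y J.1 - y J.2)) -
      ∑ J ∈ pS, s * oJ J y * (1 + Kf s t (y J.1 - y J.2)) =
      ∑ J ∈ pS, s * oJ J y * ∑ I ∈ pS.erase J, Kf s t (y I.1 - y I.2) +
        E * (1 + ∑ J ∈ pS, Kf s t (y J.1 - y J.2)) := by
    have e2 : ∀ J ∈ pS, s * oJ J y * ∑ I ∈ pS.erase J, Kf s t (y I.1 - y I.2) =
        s * oJ J y * (1 + ∑ I ∈ pS, Kf s t (y I.1 - y I.2)) - s * oJ J y * (1 + Kf s t (y J.1 - y J.2)) := by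
      intro J hJ
      rw [← Finset.add_sum_erase pS (fun I => Kf s t (y I.1 - y I.2)) hJ]
      ring
    rw [Finset.sum_congr rfl e2, Finset.sum_sub_distrib, ← Finset.sum_mul]
    rw [hE]
    ring
  rw [e1]
  have hκ : ∀ I : Fin 4 × Fin 4, Kf s t (y I.1 - y I.2) ≤ κ * rJ ρ I y := fun I => by
    have := h.Kle t ht (y I.1 - y I.2)
    have h2 := i0_nonneg (y I.1 - y I.2)
    unfold rJ
    linarith
  have b1 : |∑ J ∈ pS, s * oJ J y * ∑ I ∈ pS.erase J, Kf s t (y I.1 - y I.2)| ≤ κ * GG s ρ y := by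
    rw [abs_of_nonneg (Finset.sum_nonneg fun J _ => mul_nonneg (mul_nonneg h.s0 (oJ_nonneg J y))
      (Finset.sum_nonneg fun I _ => h.Knn _ _))]
    unfold GG
    rw [Finset.mul_sum]
    have hsub : pS ⊆ prs := Finset.filter_subset _ _
    refine le_trans ?_ (Finset.sum_le_sum_of_subset_of_nonneg hsub (fun J _ _ => ?_))
    · apply Finset.sum_le_sum
      intro J _
      have : ∑ I ∈ pS.erase J, Kf s t (y I.1 - y I.2) ≤ κ * ∑ I ∈ prs.erase J, rJ ρ I y := by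
        rw [Finset.mul_sum]
        refine le_trans (Finset.sum_le_sum fun I _ => hκ I) ?_
        exact Finset.sum_le_sum_of_subset_of_nonneg (Finset.erase_subset_erase _ (Finset.filter_subset _ _))
          (fun I _ _ => mul_nonneg h.κ0 (h.nonneg _))
      calc _ ≤ s * oJ J y * (κ * ∑ I ∈ prs.erase J, rJ ρ I y) :=
            mul_le_mul_of_nonneg_left this (mul_nonneg h.s0 (oJ_nonneg J y))
        _ = _ := by ring
    · exact mul_nonneg h.κ0 (mul_nonneg (mul_nonneg h.s0 (oJ_nonneg J y))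
        (Finset.sum_nonneg fun I _ => h.nonneg _))
  have b2 : |E * (1 + ∑ J ∈ pS, Kf s t (y J.1 - y J.2))| ≤ 6 * C * κ * GG s ρ y := by
    have h1 := h.one_add_le S ht y
    have h0 : 0 ≤ 1 + ∑ J ∈ pS, Kf s t (y J.1 - y J.2) := by
      have : 0 ≤ ∑ J ∈ pS, Kf s t (y J.1 - y J.2) := Finset.sum_nonneg fun J _ => h.Knn _ _
      linarith
    rw [abs_mul, abs_of_nonneg h0]
    have h2 := hc.near y
    rw [← hpS, ← hE] at h2
    calc |E| * (1 + ∑ J ∈ pS, Kf s t (y J.1 - y J.2)) ≤ (C * s * st y) * (6 * (κ * ρ 0)) :=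
          mul_le_mul h2 h1 h0 (mul_nonneg (mul_nonneg hc.C0 h.s0) (st_nonneg y))
      _ = 6 * C * κ * (s * st y * ρ 0) := by ring
      _ ≤ 6 * C * κ * GG s ρ y := mul_le_mul_of_nonneg_left (h.st_le y)
          (mul_nonneg (mul_nonneg (by norm_num) hc.C0) h.κ0)
  refine (abs_add_le _ _).trans ?_
  linarith

/-- the remainder is bounded by the accumulated contributions -/
theorem Pot.RR_le (h : Pot s T ρ g ε κ) {C : ℝ} {S : Finset (Fin 4)} {c : X4 → ℝ} (hc : Fac s C S c)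
    (hε : 10 * (1 + 6 * C) * ε ≤ 1) {t : ℕ} (ht : t ≤ T) (x : X4) :
    |RR s S c t x| ≤ 2 * (1 + 6 * C) * κ * ∑ J ∈ prs, TT s ρ J t x := by
  set B := 2 * (1 + 6 * C) * κ with hB
  have hC0 := hc.C0
  have hB0 : 0 ≤ B := by have := h.κ0; positivity
  induction t generalizing x with
  | zero =>
    rw [RR_zero, abs_zero]
    exact mul_nonneg hB0 (Finset.sum_nonneg fun J _ => h.TT_nonneg J _ _)
  | succ t ih =>
    have ht' : t ≤ T := by omega
    rw [RR_succ]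
    refine (abs_PP_le _ x).trans ?_
    have e1 : B * ∑ J ∈ prs, TT s ρ J (t + 1) x =
        PP (fun y => B * (∑ J ∈ prs, (1 + s * oJ J y) * TT s ρ J t y + GG s ρ y)) x := by
      rw [PP_mul_left]
      congr 1
      have e2 : (fun y => ∑ J ∈ prs, (1 + s * oJ J y) * TT s ρ J t y + GG s ρ y) =
          fun y => ∑ J ∈ prs, ((1 + s * oJ J y) * TT s ρ J t y + s * oJ J y * ∑ I ∈ prs.erase J, rJ ρ I y) := by
        funext y
        unfold GG
        rw [Finset.sum_add_distrib]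
      rw [e2, PP_sum]
      apply Finset.sum_congr rfl
      intro J _
      rw [TT_succ]
    rw [e1]
    apply PP_mono
    intro y
    refine (abs_add_le _ _).trans ?_
    rw [abs_mul, abs_of_nonneg (hc.nonneg y)]
    have hsrc := h.source_le hc ht' y
    have hR := ih ht' y
    set W := ∑ J ∈ prs, TT s ρ J t y with hW
    have hW0 : 0 ≤ W := Finset.sum_nonneg fun J _ => h.TT_nonneg J _ _
    have hG0 := h.GG_nonneg y
    -- upper bound of c
    have hcu : c y ≤ 1 + ∑ J ∈ prs, s * oJ J y + C * s * st y := by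
      have h1 := (abs_le.1 (hc.near y)).2
      have h2 : ∑ J ∈ prs.filter (fun J => J.1 ∈ S ∧ J.2 ∈ S), s * oJ J y ≤ ∑ J ∈ prs, s * oJ J y :=
        Finset.sum_le_sum_of_subset_of_nonneg (Finset.filter_subset _ _)
          (fun J _ _ => mul_nonneg h.s0 (oJ_nonneg J y))
      linarith
    -- cross terms
    have hcross : (∑ J ∈ prs, s * oJ J y) * W ≤ ∑ J ∈ prs, s * oJ J y * TT s ρ J t y + 5 * ε * GG s ρ y := by
      rw [Finset.sum_mul]
      unfold GG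
      rw [Finset.mul_sum, ← Finset.sum_add_distrib]
      apply Finset.sum_le_sum
      intro J hJ
      rw [hW, ← Finset.add_sum_erase prs (fun J => TT s ρ J t y) hJ, mul_add]
      have h1 : ∑ I ∈ prs.erase J, TT s ρ I t y ≤ 5 * ε * ∑ I ∈ prs.erase J, rJ ρ I y := by
        rw [Finset.mul_sum]
        exact Finset.sum_le_sum fun I hI => h.TT_le (Finset.mem_of_mem_erase hI) ht' y
      have h2 := mul_le_mul_of_nonneg_left h1 (mul_nonneg h.s0 (oJ_nonneg J y))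
      linarith
    have hWle : W ≤ 30 * ε * ρ 0 := by
      rw [hW]
      calc _ ≤ ∑ J ∈ prs, 5 * ε * ρ 0 := Finset.sum_le_sum fun J hJ =>
            (h.TT_le hJ ht' y).trans (mul_le_mul_of_nonneg_left (h.le0 _) (by have := h.ε0; positivity))
        _ = _ := by rw [Finset.sum_const, prs_card]; simp only [nsmul_eq_mul]; push_cast; ring
    have hst : C * s * st y * W ≤ 30 * C * ε * GG s ρ y := by
      calc C * s * st y * W ≤ C * s * st y * (30 * ε * ρ 0) :=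
            mul_le_mul_of_nonneg_left hWle (mul_nonneg (mul_nonneg hC0 h.s0) (st_nonneg y))
        _ = 30 * C * ε * (s * st y * ρ 0) := by ring
        _ ≤ 30 * C * ε * GG s ρ y := mul_le_mul_of_nonneg_left (h.st_le y)
            (mul_nonneg (mul_nonneg (by norm_num) hC0) h.ε0)
    have hcR : c y * |RR s S c t y| ≤ B * (W + (∑ J ∈ prs, s * oJ J y * TT s ρ J t y) +
        5 * (1 + 6 * C) * ε * GG s ρ y) := by
      calc c y * |RR s S c t y| ≤ c y * (B * W) := mul_le_mul_of_nonneg_left hR (hc.nonneg y)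
        _ ≤ (1 + ∑ J ∈ prs, s * oJ J y + C * s * st y) * (B * W) :=
            mul_le_mul_of_nonneg_right hcu (mul_nonneg hB0 hW0)
        _ = B * (W + (∑ J ∈ prs, s * oJ J y) * W + C * s * st y * W) := by ring
        _ ≤ _ := by
            apply mul_le_mul_of_nonneg_left _ hB0
            nlinarith [hcross, hst]
    have hfin : B * (5 * (1 + 6 * C) * ε * GG s ρ y) + (1 + 6 * C) * κ * GG s ρ y ≤ B * GG s ρ y := by
      have h1 : B * (5 * (1 + 6 * C) * ε) ≤ B * (1 / 2) := by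
        apply mul_le_mul_of_nonneg_left _ hB0
        linarith
      have h2 : B * (5 * (1 + 6 * C) * ε) * GG s ρ y ≤ B * (1 / 2) * GG s ρ y :=
        mul_le_mul_of_nonneg_right h1 hG0
      have h3 : (1 + 6 * C) * κ * GG s ρ y = B * (1 / 2) * GG s ρ y := by rw [hB]; ring
      rw [h3]
      nlinarith [h2]
    have hexp : ∑ J ∈ prs, (1 + s * oJ J y) * TT s ρ J t y =
        W + ∑ J ∈ prs, s * oJ J y * TT s ρ J t y := by
      rw [hW, ← Finset.sum_add_distrib]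
      apply Finset.sum_congr rfl
      intro J _
      ring
    rw [hexp]
    nlinarith [hcR, hsrc, hfin]

/-- final bound of the remainder -/
theorem Pot.RR_bound (h : Pot s T ρ g ε κ) {C : ℝ} {S : Finset (Fin 4)} {c : X4 → ℝ} (hc : Fac s C S c)
    (hε : 10 * (1 + 6 * C) * ε ≤ 1) {t : ℕ} (ht : t ≤ T) (x : X4) :
    |RR s S c t x| ≤ 10 * (1 + 6 * C) * κ * ε * ∑ J ∈ prs, rJ ρ J x := by
  refine (h.RR_le hc hε ht x).trans ?_
  have h1 : ∑ J ∈ prs, TT s ρ J t x ≤ 5 * ε * ∑ J ∈ prs, rJ ρ J x := by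
    rw [Finset.mul_sum]
    exact Finset.sum_le_sum fun J hJ => h.TT_le hJ ht x
  have hC0 := hc.C0
  calc _ ≤ 2 * (1 + 6 * C) * κ * (5 * ε * ∑ J ∈ prs, rJ ρ J x) :=
        mul_le_mul_of_nonneg_left h1 (by have := h.κ0; positivity)
    _ = _ := by ring

end Pool.Agent.Helper97.QC
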