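import Pool.Agent.Helper17.QC.P1

/-! Expectations of quenched quantities. -/

set_option autoImplicit false
set_option linter.unusedSectionVars false

open MeasureTheory ProbabilityTheory Filter Finset Topology

namespace Pool.Agent.Helper97.QC

open Pool.Agent.Helper97.CP

/-- measurability of the transfer operator for a general σ-algebra -/
theorem Lw_meas {Ω : Type*} {m : MeasurableSpace Ω} {Y : ℕ → Z2 → Ω → ℝ} (n t : ℕ)
    (hm : ∀ k y, n < k → k ≤ n + t → Measurable[m] (Y k y)) (φ : Z2 → ℝ) (x : Z2) :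
    Measurable[m] (fun w => Lw (ev Y w) n t φ x) := by
  induction t generalizing n x with
  | zero => exact measurable_const
  | succ t ih =>
    show Measurable[m] (fun w => (1 / 4) * ∑ e : E4, Y (n + 1) (x + stp e) w *
      Lw (ev Y w) (n + 1) t φ (x + stp e))
    apply Measurable.const_mul
    apply Finset.measurable_sum
    intro e _
    exact (hm (n + 1) _ (by omega) (by omega)).mul (ih (n + 1) (fun k y h1 h2 => hm k y (by omega) (by omega)) _)

theorem L2_meas {Ω : Type*} {m : MeasurableSpace Ω} {Y : ℕ → Z2 → Ω → ℝ} (n t : ℕ)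
    (hm : ∀ k y, n < k → k ≤ n + t → Measurable[m] (Y k y)) (ψ : Z2 → ℝ) (x y : Z2) :
    Measurable[m] (fun w => L2 (ev Y w) n t ψ x y) := by
  induction t generalizing n x y with
  | zero => exact measurable_const
  | succ t ih =>
    show Measurable[m] (fun w => (1 / 16) * ∑ e : E4, ∑ e' : E4,
      Y (n + 1) (x + stp e) w * Y (n + 1) (y + stp e') w * L2 (ev Y w) (n + 1) t ψ (x + stp e) (y + stp e'))
    apply Measurable.const_mul
    apply Finset.measurable_sum
    intro e _
    apply Finset.measurable_sum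
    intro e' _
    exact ((hm (n + 1) _ (by omega) (by omega)).mul (hm (n + 1) _ (by omega) (by omega))).mul
      (ih (n + 1) (fun k y h1 h2 => hm k y (by omega) (by omega)) _ _)

theorem meas_site {Ω : Type*} {Y : ℕ → Z2 → Ω → ℝ} {S : Set (ℕ × Z2)} {k : ℕ} {y : Z2} (h : (k, y) ∈ S) :
    Measurable[sig Y S] (Y k y) := by
  have h1 : MeasurableSpace.comap (Y k y) inferInstance ≤ sig Y S := by
    unfold sig
    exact le_iSup₂_of_le (k, y) h le_rfl
  exact (comap_measurable (Y k y)).mono h1 le_rfl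

section
variable {Ω : Type*} [mΩ : MeasurableSpace Ω] {P : Measure Ω} [IsProbabilityMeasure P]
  {Y : ℕ → Z2 → Ω → ℝ} {s C : ℝ}

theorem sig_le (h : PEnv P Y s C) (S : Set (ℕ × Z2)) : sig Y S ≤ mΩ := by
  unfold sig
  exact iSup₂_le fun p _ => (h.meas p.1 p.2).comap_le

theorem past_le (h : PEnv P Y s C) (n : ℕ) : past Y n ≤ mΩ := sig_le h _

theorem futr_le (h : PEnv P Y s C) (n : ℕ) : futr Y n ≤ mΩ := sig_le h _

theorem indep_sig (h : PEnv P Y s C) {S T : Set (ℕ × Z2)} (hST : Disjoint S T) :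
    Indep (sig Y S) (sig Y T) P := by
  have h1 : iIndep (fun p : ℕ × Z2 => MeasurableSpace.comap (Y p.1 p.2) inferInstance) P := h.indep.iIndep
  have h2 : ∀ p : ℕ × Z2, MeasurableSpace.comap (Y p.1 p.2) inferInstance ≤ mΩ :=
    fun p => (h.meas p.1 p.2).comap_le
  have h3 := indep_iSup_of_disjoint h2 h1 hST
  exact h3

theorem indep_past (h : PEnv P Y s C) (n : ℕ) : Indep (past Y n) (futr Y n) P := by
  apply indep_sig h
  rw [Set.disjoint_left]
  intro p hp hp'
  have h1 : p.1 ≤ n := hp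
  have h2 : n < p.1 := hp'
  omega

theorem meas_pq (n : ℕ) (x : Z2) : Measurable[past Y n] (fun w => pq (ev Y w) n x) := by
  have h1 : ∀ φ : Z2 → ℝ, Measurable[past Y n] (fun w => Lw (ev Y w) 0 n φ 0) := fun φ =>
    Lw_meas 0 n (fun k y _ h => meas_site (S := {p | p.1 ≤ n}) (by simpa using h)) φ 0
  have key : ∀ {m : MeasurableSpace Ω} {f g : Ω → ℝ}, Measurable[m] f → Measurable[m] g →
      Measurable[m] (fun w => f w / g w) := fun hf hg => hf.div hg
  exact key (h1 _) (h1 _)

theorem meas_Wt0 (n : ℕ) : Measurable[past Y n] (fun w => Wt (ev Y w) 0 n 0) :=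
  Lw_meas 0 n (fun k y _ h => meas_site (S := {p | p.1 ≤ n}) (by simpa using h)) _ 0

theorem meas_Wt (n t : ℕ) (x : Z2) : Measurable[futr Y n] (fun w => Wt (ev Y w) n t x) :=
  Lw_meas n t (fun k y h _ => meas_site (S := {p | n < p.1}) h) _ x

theorem meas_L2 (n t : ℕ) (ψ : Z2 → ℝ) (x y : Z2) :
    Measurable[futr Y n] (fun w => L2 (ev Y w) n t ψ x y) :=
  L2_meas n t (fun k y h _ => meas_site (S := {p | n < p.1}) h) _ x y

/-- the environment at one time -/
def slice (Y : ℕ → Z2 → Ω → ℝ) (n : ℕ) : MeasurableSpace Ω := sig Y {p | p.1 = n}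

theorem indep_slice (h : PEnv P Y s C) (n : ℕ) : Indep (slice Y (n + 1)) (futr Y (n + 1)) P := by
  apply indep_sig h
  rw [Set.disjoint_left]
  intro p hp hp'
  have h1 : p.1 = n + 1 := hp
  have h2 : n + 1 < p.1 := hp'
  omega

theorem meas_slice (n : ℕ) (y : Z2) : Measurable[slice Y n] (Y n y) :=
  meas_site (S := {p | p.1 = n}) rfl

/-- products of a function of the slice and a function of the future -/
theorem int_mul_slice (h : PEnv P Y s C) (n : ℕ) {f g : Ω → ℝ} (hf : Measurable[slice Y (n + 1)] f)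
    (hg : Measurable[futr Y (n + 1)] g) (hfi : Integrable f P) (hgi : Integrable g P) :
    Integrable (fun w => f w * g w) P ∧ ∫ w, f w * g w ∂P = (∫ w, f w ∂P) * ∫ w, g w ∂P := by
  have hi : IndepFun f g P := by
    rw [IndepFun_iff_Indep]
    exact indep_of_indep_of_le_left (indep_of_indep_of_le_right (indep_slice h n) hg.comap_le) hf.comap_le
  exact ⟨hi.integrable_mul hfi hgi,
    hi.integral_fun_mul_eq_mul_integral hfi.aestronglyMeasurable hgi.aestronglyMeasurable⟩

theorem Y_l4 (h : PEnv P Y s C) (n : ℕ) (x : Z2) : Integrable (fun w => Y n x w ^ 4) P :=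
  ((h.ident n x).comp (u := fun r : ℝ => r ^ 4) (by fun_prop)).integrable_iff.2 h.l4

theorem quad_ineq (a b c d : ℝ) : |a * b * c * d| ≤ a ^ 4 + b ^ 4 + c ^ 4 + d ^ 4 := by
  have h1 : |a * b * c * d| = |a * b| * |c * d| := by
    rw [← abs_mul]; ring_nf
  have h2 : |a * b| * |c * d| ≤ ((a * b) ^ 2 + (c * d) ^ 2) / 2 := by
    have := sq_nonneg (|a * b| - |c * d|)
    rw [← sq_abs (a * b), ← sq_abs (c * d)]
    linarith
  have h3 : (a * b) ^ 2 ≤ (a ^ 4 + b ^ 4) / 2 := by
    have := sq_nonneg (a ^ 2 - b ^ 2); nlinarith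
  have h4 : (c * d) ^ 2 ≤ (c ^ 4 + d ^ 4) / 2 := by
    have := sq_nonneg (c ^ 2 - d ^ 2); nlinarith
  have : 0 ≤ a ^ 4 + b ^ 4 + c ^ 4 + d ^ 4 := by positivity
  rw [h1]
  linarith

/-- products of at most four functions with fourth moments -/
theorem int_prod4 {f : Fin 4 → Ω → ℝ} (hm : ∀ a, Measurable (f a)) (hi : ∀ a, Integrable (fun w => f a w ^ 4) P)
    (S : Finset (Fin 4)) : Integrable (fun w => ∏ a ∈ S, f a w) P := by
  have hb : Integrable (fun w => (∑ a : Fin 4, f a w ^ 4) + 4) P :=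
    (integrable_finsetSum _ fun a _ => hi a).add (integrable_const _)
  refine hb.mono' (Finset.measurable_prod _ fun a _ => hm a).aestronglyMeasurable ?_
  filter_upwards with w
  rw [Real.norm_eq_abs]
  have e : ∏ a ∈ S, f a w = ∏ a : Fin 4, if a ∈ S then f a w else 1 := by
    rw [Finset.prod_ite_mem, Finset.univ_inter]
  rw [e, Fin.prod_univ_four, Fin.sum_univ_four]
  refine (quad_ineq _ _ _ _).trans ?_
  have key : ∀ a : Fin 4, (if a ∈ S then f a w else 1) ^ 4 ≤ f a w ^ 4 + 1 := by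
    intro a
    split_ifs
    · linarith
    · have : 0 ≤ f a w ^ 4 := by positivity
      linarith
  linarith [key 0, key 1, key 2, key 3]

theorem Wt_pow4 (h : PEnv P Y s C) (n t : ℕ) (x : Z2) : Integrable (fun w => Wt (ev Y w) n t x ^ 4) P := by
  induction t generalizing n x with
  | zero =>
    show Integrable (fun w => (1 : ℝ) ^ 4) P
    exact integrable_const _
  | succ t ih =>
    -- convexity: (1/4 ∑ u_e)^4 ≤ 1/4 ∑ u_e^4
    have hterm : ∀ e : E4, Integrable (fun w => (Y (n + 1) (x + stp e) w * Wt (ev Y w) (n + 1) t (x + stp e)) ^ 4) P := by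
      intro e
      have h1 := (int_mul_slice h n (f := fun w => Y (n + 1) (x + stp e) w ^ 4)
        (g := fun w => Wt (ev Y w) (n + 1) t (x + stp e) ^ 4)
        ((meas_slice (n + 1) _).pow_const 4) ((meas_Wt (n + 1) t _).pow_const 4)
        (Y_l4 h _ _) (ih (n + 1) _)).1
      simp only [← mul_pow] at h1
      exact h1
    have hsum : Integrable (fun w => ∑ e : E4, (Y (n + 1) (x + stp e) w * Wt (ev Y w) (n + 1) t (x + stp e)) ^ 4) P :=
      integrable_finsetSum _ fun e _ => hterm e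
    have hmeas : Measurable (fun w => Wt (ev Y w) n (t + 1) x) :=
      (meas_Wt n (t + 1) x).mono (futr_le h n) le_rfl
    refine hsum.mono' (hmeas.pow_const 4).aestronglyMeasurable ?_
    filter_upwards with w
    rw [Real.norm_eq_abs, abs_of_nonneg (by positivity)]
    show ((1 / 4) * ∑ e : E4, Y (n + 1) (x + stp e) w * Wt (ev Y w) (n + 1) t (x + stp e)) ^ 4 ≤ _
    have key : ∀ u : E4 → ℝ, ((1 / 4) * ∑ e : E4, u e) ^ 4 ≤ ∑ e : E4, u e ^ 4 := by
      intro u
      have h1 : (∑ e : E4, u e) ^ 2 ≤ 4 * ∑ e : E4, u e ^ 2 := by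
        have := sq_sum_le_card_mul_sum_sq (s := (univ : Finset E4)) (f := u)
        simpa using this
      have h2 : (∑ e : E4, u e ^ 2) ^ 2 ≤ 4 * ∑ e : E4, (u e ^ 2) ^ 2 := by
        have := sq_sum_le_card_mul_sum_sq (s := (univ : Finset E4)) (f := fun e => u e ^ 2)
        simpa using this
      have h3 : 0 ≤ ∑ e : E4, u e ^ 2 := Finset.sum_nonneg fun e _ => sq_nonneg _
      have h4 : ((∑ e : E4, u e) ^ 2) ^ 2 ≤ (4 * ∑ e : E4, u e ^ 2) ^ 2 :=
        pow_le_pow_left₀ (sq_nonneg _) h1 2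
      have h5 : ∑ e : E4, (u e ^ 2) ^ 2 = ∑ e : E4, u e ^ 4 := Finset.sum_congr rfl fun e _ => by ring
      rw [h5] at h2
      calc ((1 / 4) * ∑ e : E4, u e) ^ 4 = (1 / 256) * ((∑ e : E4, u e) ^ 2) ^ 2 := by ring
        _ ≤ (1 / 256) * (4 * ∑ e : E4, u e ^ 2) ^ 2 := by linarith
        _ = (1 / 16) * (∑ e : E4, u e ^ 2) ^ 2 := by ring
        _ ≤ (1 / 16) * (4 * ∑ e : E4, u e ^ 4) := by linarith
        _ ≤ ∑ e : E4, u e ^ 4 := by
            have : 0 ≤ ∑ e : E4, u e ^ 4 := Finset.sum_nonneg fun e _ => by positivity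
            linarith
    exact key _

theorem Wt_l4 (h : PEnv P Y s C) (n t : ℕ) (x : Z2) : MemLp (fun w => Wt (ev Y w) n t x) 4 P := by
  have hmeas : Measurable (fun w => Wt (ev Y w) n t x) := (meas_Wt n t x).mono (futr_le h n) le_rfl
  rw [← integrable_norm_rpow_iff hmeas.aestronglyMeasurable (by norm_num) (by norm_num)]
  refine (Wt_pow4 h n t x).congr ?_
  filter_upwards with w
  have e : (ENNReal.toReal 4) = ((4 : ℕ) : ℝ) := by norm_num
  rw [Real.norm_eq_abs, e, Real.rpow_natCast, ← abs_pow, abs_of_nonneg (by positivity)]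

end

end Pool.Agent.Helper97.QC
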