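import Pool.Agent.Helper97.QC.Four3

/-! Quasi-critical two-dimensional directed polymers (MP_f3a553_pr): definitions of the
probabilistic part. -/

set_option autoImplicit false

open MeasureTheory ProbabilityTheory Filter Finset

namespace Pool.Agent.Helper97.QC

open Pool.Agent.Helper97.CP

/-- quenched transfer operator: `t` steps from time `n` in the environment `v` -/
noncomputable def Lw (v : ℕ → Z2 → ℝ) : ℕ → ℕ → (Z2 → ℝ) → Z2 → ℝ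
  | _, 0, φ => φ
  | n, t + 1, φ => fun x => (1 / 4) * ∑ e : E4, v (n + 1) (x + stp e) * Lw v (n + 1) t φ (x + stp e)

/-- partition function of `t` steps from the point `x` at time `n` -/
noncomputable def Wt (v : ℕ → Z2 → ℝ) (n t : ℕ) (x : Z2) : ℝ := Lw v n t (fun _ => 1) x

/-- two replicas in the environment `v` -/
noncomputable def L2 (v : ℕ → Z2 → ℝ) : ℕ → ℕ → (Z2 → ℝ) → Z2 → Z2 → ℝ
  | _, 0, ψ => fun x y => ψ (x - y)
  | n, t + 1, ψ => fun x y => (1 / 16) * ∑ e : E4, ∑ e' : E4,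
      v (n + 1) (x + stp e) * v (n + 1) (y + stp e') * L2 v (n + 1) t ψ (x + stp e) (y + stp e')

/-- quenched law of the endpoint after `n` steps -/
noncomputable def pq (v : ℕ → Z2 → ℝ) (n : ℕ) (x : Z2) : ℝ :=
  Lw v 0 n (fun y => i0 (y - x)) 0 / Wt v 0 n 0

/-- quenched averages over the endpoints of one, two and four replicas -/
noncomputable def av1 (v : ℕ → Z2 → ℝ) (n : ℕ) (φ : Z2 → ℝ) : ℝ := ∑ x ∈ bx n, pq v n x * φ x

noncomputable def av2 (v : ℕ → Z2 → ℝ) (n : ℕ) (Φ : Z2 → Z2 → ℝ) : ℝ :=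
  ∑ x ∈ bx n, ∑ y ∈ bx n, pq v n x * pq v n y * Φ x y

noncomputable def av4 (v : ℕ → Z2 → ℝ) (n : ℕ) (Ψ : X4 → ℝ) : ℝ :=
  ∑ x ∈ Fintype.piFinset (fun _ : Fin 4 => bx n), (∏ a, pq v n (x a)) * Ψ x

/-- the environment `Y = exp (β ω - Λ)` -/
structure PEnv {Ω : Type*} [MeasurableSpace Ω] (P : Measure Ω) (Y : ℕ → Z2 → Ω → ℝ) (s C : ℝ) : Prop where
  meas : ∀ n x, Measurable (Y n x)
  pos : ∀ n x w, 0 < Y n x w
  indep : iIndepFun (fun p : ℕ × Z2 => Y p.1 p.2) P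
  ident : ∀ n x, IdentDistrib (Y n x) (Y 0 0) P P
  l4 : Integrable (fun w => Y 0 0 w ^ 4) P
  m1 : ∫ w, Y 0 0 w ∂P = 1
  m2 : ∫ w, Y 0 0 w ^ 2 ∂P = 1 + s
  m3 : ∫ w, |Y 0 0 w - 1| ^ 3 ∂P ≤ C * s
  m4 : ∫ w, |Y 0 0 w - 1| ^ 4 ∂P ≤ C * s
  s0 : 0 ≤ s
  C0 : 0 ≤ C

/-- the environment at the sample point `w` -/
def ev {Ω : Type*} (Y : ℕ → Z2 → Ω → ℝ) (w : Ω) : ℕ → Z2 → ℝ := fun n x => Y n x w

/-- σ-algebra generated by the environment on a set of space time points -/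
def sig {Ω : Type*} (Y : ℕ → Z2 → Ω → ℝ) (S : Set (ℕ × Z2)) : MeasurableSpace Ω :=
  ⨆ p ∈ S, MeasurableSpace.comap (Y p.1 p.2) inferInstance

def past {Ω : Type*} (Y : ℕ → Z2 → Ω → ℝ) (n : ℕ) : MeasurableSpace Ω := sig Y {p | p.1 ≤ n}

def futr {Ω : Type*} (Y : ℕ → Z2 → Ω → ℝ) (n : ℕ) : MeasurableSpace Ω := sig Y {p | n < p.1}

/-- interaction factor of the set `S` of replicas -/
noncomputable def cS {Ω : Type*} [MeasurableSpace Ω] (P : Measure Ω) (Y : ℕ → Z2 → Ω → ℝ)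
    (S : Finset (Fin 4)) (y : X4) : ℝ := ∫ w, ∏ a ∈ S, Y 0 (y a) w ∂P

/-- spread functional -/
noncomputable def psi (M : ℕ) (z : Z2) : ℝ := ((M : ℝ) / (1 + nsq z)) ^ (1 / 4 : ℝ) + nsq z / M

/-- the block parameters -/
def Blk (s : ℝ) (M L : ℕ) (CB : ℝ) : Prop :=
  0 < s ∧ 1 ≤ M ∧ 16 * M ≤ L ∧ s * R L < 1 ∧ √(s / (1 - s * R L)) * Real.log (L / M) ≤ CB ∧
    1 / √(s / (1 - s * R L)) ≤ (L : ℝ) ^ √(s / (1 - s * R L))

end Pool.Agent.Helper97.QC
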